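import Pool.Agent.NH27.B.Defs
import Pool.Agent.Y741.Global
import Pool.Agent.Y741.FinV

/-!
The area form on the tangent plane, and the minors: definitions.
-/

set_option autoImplicit false

open MvPolynomial FF Pool.Agent.W603.LV Pool.Agent.W603.PV Pool.Agent.TH145.GH
open Pool.Agent.Y735 (lf pm pl vol vol_apply)
open Pool.Agent.Y741

namespace Pool.Agent.NH27.B

/-- The rows of the equations, the point and two vectors. -/
def rwf {V Y : Type} (r : Y → V) (x u v : V) : Ri Y Empty Unit Empty Empty → V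
  | Sum.inl c => r c
  | Sum.inr none => x
  | Sum.inr (some (Sum.inl a)) => a.elim
  | Sum.inr (some (Sum.inr (Sum.inl (Sum.inl _)))) => u
  | Sum.inr (some (Sum.inr (Sum.inl (Sum.inr _)))) => v
  | Sum.inr (some (Sum.inr (Sum.inr (Sum.inl a)))) => a.elim
  | Sum.inr (some (Sum.inr (Sum.inr (Sum.inr a)))) => a.elim

variable {K A : Type} [Field K] [Fintype A] [DecidableEq A] {n : ℕ}

/-- The area form on the tangent plane. -/
noncomputable def AB (dg : A → ℕ) (D : A → (Fin (n + 1) →₀ ℕ) → Derivation ℤ K K)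
    {C : Finset A} (E : Ri C Empty Unit Empty Empty ≃ Fin (n + 1)) (x : Fin (n + 1) → K)
    (i1 : Fin (n + 1)) (u v : Fin (n + 1) → K) : K :=
  vol E (rwf (fun c : C => vA D x (Pi.single c.1 (X i1 ^ dg c.1))) x u v) / ∏ c ∈ C, x i1 ^ dg c

/-- The minors. -/
noncomputable def DB (dg : A → ℕ) (D : A → (Fin (n + 1) →₀ ℕ) → Derivation ℤ K K)
    {C : Finset A} (E : Ri C Empty Unit Empty Empty ≃ Fin (n + 1)) (x : Fin (n + 1) → K)
    (i1 : Fin (n + 1)) (Q : Fam K n A) (a b c : Fin (n + 1)) : K :=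
  x a * AB dg D E x i1 (vq D x Q (Pi.single b 1)) (vq D x Q (Pi.single c 1)) -
    x b * AB dg D E x i1 (vq D x Q (Pi.single a 1)) (vq D x Q (Pi.single c 1)) +
    x c * AB dg D E x i1 (vq D x Q (Pi.single a 1)) (vq D x Q (Pi.single b 1))

/-- The basis of the plane in echelon form. -/
noncomputable def pB (dg : A → ℕ) (D : A → (Fin (n + 1) →₀ ℕ) → Derivation ℤ K K)
    {C : Finset A} (E : Ri C Empty Unit Empty Empty ≃ Fin (n + 1)) (x : Fin (n + 1) → K)
    (i1 : Fin (n + 1)) (Q : Fam K n A) (ι : Fin 3 → Fin (n + 1)) (i : Fin 3) (l : Fin (n + 1)) :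
    K :=
  DB dg D E x i1 Q (Function.update ι i l 0) (Function.update ι i l 1) (Function.update ι i l 2) /
    DB dg D E x i1 Q (ι 0) (ι 1) (ι 2)

/-- The heights of the integral points of the remaining case are bounded. -/
def Bnd5 (n : ℕ) (A : Type) [Fintype A] [DecidableEq A] (dg : A → ℕ) (C : Finset A) : Prop :=
  ∀ (κ L Ω : Type) [Field κ] [Field L] [Field Ω] [Algebra κ L] [Algebra L Ω] [IsAlgClosed κ]
    [CharZero κ] [IsFF κ L] [IsAlgClosed Ω] (F : Fam L n A)
    (D : A → (Fin (n + 1) →₀ ℕ) → Derivation ℤ L L) (e g : Place κ L → ℤ),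
    DataL κ F dg D e g → GenA dg F → ∀ Sg : Set (Place κ L), Sg.Finite →
    ∃ B : ℤ, ∀ x : Fin (n + 1) → L, (∀ c ∈ C, eval x (F c) = 0) →
      (∀ b, b ∉ C → eval x (F b) ≠ 0) → PlOK dg D e F C x →
      (∀ P, P ∉ Sg → ∀ b, b ∉ C → P.ord (eval x (F b)) ≤ dg b * pord P x) → Rest5 dg D x →
      (∀ (y : Fin (n + 1) → L) (ik : Fin (n + 1) × Fin (n + 1)), pl x y ik ≠ 0 →
        OnL F C x y → ¬ Pun 2 (mapF (algebraMap L Ω) F) C (fun j => algebraMap L Ω (x j))
          (fun j => algebraMap L Ω (y j))) → pht κ x ≤ B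

end Pool.Agent.NH27.B
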