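import Pool.Agent.NH27.B.Defs
import Pool.Agent.NH27.Q.ConicM

/-!
Heights of integral points on conics of bounded height in a projective space (function field).
-/

set_option autoImplicit false

open MvPolynomial FF Pool.Agent.W603.LV Pool.Agent.W603.PV Pool.Agent.W602.RG Pool.Agent.TH145.GH
open Pool.Agent.TH145.GC (Cf)
open Pool.Agent.Y735 (po po_le po_finite exists_po)
open Pool.Agent.Y735.S (pe)
open Pool.Agent.Y741
open Pool.Agent.NH27.Q (eval_pe' map_pe natDegree_pe coeff_pe few_roots)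
open LinearAlgebra.Projectivization

namespace Pool.Agent.NH27.B

theorem prod_lead {k ι : Type} [Field k] (s : Finset ι) (f : ι → Polynomial k) (m : ι → ℕ)
    (h : ∀ l ∈ s, (f l).natDegree ≤ m l) :
    (∏ l ∈ s, f l).natDegree ≤ ∑ l ∈ s, m l ∧
      (∏ l ∈ s, f l).coeff (∑ l ∈ s, m l) = ∏ l ∈ s, (f l).coeff (m l) := by
  classical
  induction s using Finset.induction_on with
  | empty => simp
  | insert a s ha ih =>
    rw [Finset.prod_insert ha, Finset.sum_insert ha, Finset.prod_insert ha]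
    obtain ⟨h1, h2⟩ := ih fun l hl => h l (Finset.mem_insert_of_mem hl)
    have h3 := h a (Finset.mem_insert_self a s)
    exact ⟨Polynomial.natDegree_mul_le_of_le h3 h1, by
      rw [Polynomial.coeff_mul_add_eq_of_natDegree_le h3 h1, h2]⟩

/-- degree and leading coefficient of the restriction to a conic -/
theorem lead_peB {k : Type} [Field k] {n d : ℕ} (e : Fin (n + 1) → Fin 3 → k)
    {F : MvPolynomial (Fin (n + 1)) k} (hF : F.IsHomogeneous d) :
    (aeval (pe e) F).natDegree ≤ 2 * d ∧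
      (aeval (pe e) F).coeff (2 * d) = eval (fun l => e l 0) F := by
  have h0 : aeval (pe e) F = ∑ u ∈ F.support, Polynomial.C (F.coeff u) * ∏ l, pe e l ^ u l := by
    rw [aeval_def, eval₂_eq']
    rfl
  have hu : ∀ u ∈ F.support, ∑ l, u l * 2 = 2 * d := by
    intro u hu
    have h1 := deg_of_mem hF hu
    rw [Finsupp.degree_eq_sum] at h1
    rw [← Finset.sum_mul, h1, mul_comm]
  have hd : ∀ (l : Fin (n + 1)) (m : ℕ), (pe e l ^ m).natDegree ≤ m * 2 := fun l m =>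
    Polynomial.natDegree_pow_le_of_le m (natDegree_pe e l)
  constructor
  · rw [h0]
    apply Polynomial.natDegree_sum_le_of_forall_le
    intro u hu'
    refine (Polynomial.natDegree_C_mul_le _ _).trans ?_
    rw [← hu u hu']
    exact (prod_lead Finset.univ (fun l => pe e l ^ u l) (fun l => u l * 2)
      fun l _ => hd l (u l)).1
  · rw [h0, Polynomial.finsetSum_coeff, eval_eq']
    refine Finset.sum_congr rfl fun u hu' => ?_
    rw [Polynomial.coeff_C_mul]
    congr 1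
    rw [← hu u hu', (prod_lead Finset.univ (fun l => pe e l ^ u l) (fun l => u l * 2)
      fun l _ => hd l (u l)).2]
    refine Finset.prod_congr rfl fun l _ => ?_
    rw [Polynomial.coeff_pow_of_natDegree_le (natDegree_pe e l), coeff_pe]

/-- A good parameter. -/
theorem exists_goodB {κ L : Type} [Field κ] [Field L] [Algebra κ L] [CharZero κ] {n d : ℕ}
    {F : MvPolynomial (Fin (n + 1)) L} (hF : F.IsHomogeneous d) {ψ : Fin (n + 1) → Fin 3 → L}
    {c s t : L} {x : Fin (n + 1) → L}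
    (hx : ∀ l, x l = c * (ψ l 0 * s ^ 2 + ψ l 1 * (s * t) + ψ l 2 * t ^ 2))
    (hxF : eval x F ≠ 0) : ∃ ξ : κ, eval (fun l => ψ l 0 + algebraMap κ L ξ * ψ l 1 +
      (algebraMap κ L ξ) ^ 2 * ψ l 2) F ≠ 0 := by
  classical
  by_cases ht : t = 0
  · refine ⟨0, fun h0 => hxF ?_⟩
    have h1 : x = (c * s ^ 2) • fun l => ψ l 0 + algebraMap κ L 0 * ψ l 1 +
      (algebraMap κ L 0) ^ 2 * ψ l 2 := by
      funext l
      rw [hx l, ht, Pi.smul_apply, smul_eq_mul, map_zero]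
      ring
    rw [h1, eval_smul_hom hF, h0, mul_zero]
  · have hR : aeval (pe ψ) F ≠ 0 := by
      intro h0
      apply hxF
      have h1 : x = (c * t ^ 2) • fun l => ψ l 0 * (s / t) ^ 2 + ψ l 1 * (s / t) + ψ l 2 := by
        funext l
        rw [hx l, Pi.smul_apply, smul_eq_mul]
        field_simp
      rw [h1, eval_smul_hom hF, ← eval_pe' ψ F, h0, Polynomial.eval_zero, mul_zero]
    have hinf : Infinite κ := inferInstance
    obtain ⟨η, hη⟩ := Infinite.exists_notMem_finset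
      (((aeval (pe ψ) F).roots.toFinset.preimage (algebraMap κ L)
        (algebraMap κ L).injective.injOn) ∪ {0})
    rw [Finset.mem_union, not_or, Finset.mem_preimage, Multiset.mem_toFinset,
      Polynomial.mem_roots hR, Finset.mem_singleton] at hη
    obtain ⟨h1, h2⟩ := hη
    refine ⟨η⁻¹, fun h0 => h1 ?_⟩
    rw [Polynomial.IsRoot, eval_pe']
    have h3 : algebraMap κ L η ≠ 0 := (map_ne_zero _).2 h2
    have h4 : (fun l => ψ l 0 * (algebraMap κ L η) ^ 2 + ψ l 1 * (algebraMap κ L η) + ψ l 2) =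
        ((algebraMap κ L η) ^ 2) • fun l => ψ l 0 + algebraMap κ L η⁻¹ * ψ l 1 +
      (algebraMap κ L η⁻¹) ^ 2 * ψ l 2 := by
      funext l
      rw [Pi.smul_apply, smul_eq_mul, map_inv₀]
      field_simp
    rw [h4, eval_smul_hom hF, h0, mul_zero]

/-- reparametrisation -/
theorem repar_zero {L : Type} [Field L] [Infinite L] {n d : ℕ}
    {F : MvPolynomial (Fin (n + 1)) L} (hF : F.IsHomogeneous d) {ψ e : Fin (n + 1) → Fin 3 → L}
    {z : L} (he0 : ∀ l, e l 0 = ψ l 0 + z * ψ l 1 + z ^ 2 * ψ l 2)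
    (he1 : ∀ l, e l 1 = ψ l 1 + 2 * z * ψ l 2) (he2 : ∀ l, e l 2 = ψ l 2)
    (h : aeval (pe ψ) F = 0) : aeval (pe e) F = 0 := by
  have h1 : aeval (pe e) F * (1 + Polynomial.C z * Polynomial.X) = 0 := by
    apply Polynomial.funext
    intro v
    rw [Polynomial.eval_mul, Polynomial.eval_zero]
    by_cases hv : 1 + z * v = 0
    · have : (1 + Polynomial.C z * Polynomial.X : Polynomial L).eval v = 0 := by
        simpa using hv
      rw [this, mul_zero]
    · rw [eval_pe']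
      have h4 : (fun l => e l 0 * v ^ 2 + e l 1 * v + e l 2) = ((1 + z * v) ^ 2) • fun l =>
          ψ l 0 * (v / (1 + z * v)) ^ 2 + ψ l 1 * (v / (1 + z * v)) + ψ l 2 := by
        funext l
        rw [Pi.smul_apply, smul_eq_mul, he0, he1, he2]
        field_simp
        ring
      rw [h4, eval_smul_hom hF, ← eval_pe' ψ F, h, Polynomial.eval_zero, mul_zero, zero_mul]
  refine (mul_eq_zero.1 h1).resolve_right fun h2 => ?_
  have h3 := congrArg (Polynomial.eval 0) h2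
  simp at h3

theorem inner_eq {L : Type} [Field L] {n : ℕ} {ψ : Fin (n + 1) → Fin 3 → L}
    {ψ' : Fin 3 → Fin (n + 1) → L}
    (hinv : ∀ i j, ∑ l, ψ' i l * ψ l j = if i = j then 1 else 0) (u v : Fin 3 → L) :
    ∑ l, (∑ a, u a * ψ' a l) * (∑ b, ψ l b * v b) = ∑ a, u a * v a := by
  have h1 : ∀ l, (∑ a, u a * ψ' a l) * (∑ b, ψ l b * v b) =
      ∑ a, ∑ b, u a * v b * (ψ' a l * ψ l b) := by
    intro l
    rw [Finset.sum_mul_sum]
    refine Finset.sum_congr rfl fun a _ => Finset.sum_congr rfl fun b _ => ?_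
    ring
  rw [Finset.sum_congr rfl fun l _ => h1 l, Finset.sum_comm]
  refine Finset.sum_congr rfl fun a _ => ?_
  rw [Finset.sum_comm]
  have h2 : ∀ b, ∑ l, u a * v b * (ψ' a l * ψ l b) = u a * v b * (if a = b then 1 else 0) := by
    intro b
    rw [← Finset.mul_sum, hinv]
  rw [Finset.sum_congr rfl fun b _ => h2 b]
  simp

section loc

variable {κ L : Type} [Field κ] [Field L] [Algebra κ L]

/-- local bound of the restriction -/
theorem pge_peB {n d : ℕ} {F : MvPolynomial (Fin (n + 1)) L} (hF : F.IsHomogeneous d)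
    {e : Fin (n + 1) → Fin 3 → L} {P : Place κ L} {a g : ℤ} (he : ∀ l i, Ge P (-a) (e l i))
    (hg : ∀ u, Ge P (-g) (F.coeff u)) : PGe P (-(g + d * a)) (aeval (pe e) F) := by
  have h0 : aeval (pe e) F = ∑ u ∈ F.support, Polynomial.C (F.coeff u) * ∏ l, pe e l ^ u l := by
    rw [aeval_def, eval₂_eq']
    rfl
  rw [h0]
  refine PGe.sum _ _ fun u hu => ?_
  have hpe : ∀ l, PGe P (-a) (pe e l) := by
    intro l
    unfold pe
    have hX : PGe P 0 (Polynomial.X : Polynomial L) := PGe.X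
    have hX2 : PGe P 0 (Polynomial.X ^ 2 : Polynomial L) := by
      have := hX.pow 2
      rwa [mul_zero] at this
    have h1 := (PGe.C (he l 0)).mul hX2
    have h2 := (PGe.C (he l 1)).mul hX
    rw [add_zero] at h1 h2
    exact (h1.add h2).add (PGe.C (he l 2))
  have h2 := PGe.prod Finset.univ (fun l => pe e l ^ u l) (fun l => (u l : ℤ) * (-a))
    fun l _ => (hpe l).pow (u l)
  refine ((PGe.C (hg u)).mul h2).mono ?_
  rw [← Finset.sum_mul]
  have h3 := deg_of_mem hF hu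
  rw [Finsupp.degree_eq_sum] at h3
  have h4 : ∑ i, (u i : ℤ) = d := by exact_mod_cast h3
  rw [h4]
  linarith

/-- the height of a root -/
theorem root_bd [IsAlgClosed κ] [CharZero κ] [IsFF κ L] {ρ : Polynomial L} (hρ0 : ρ ≠ 0)
    {c0 : Place κ L → ℤ} {B : ℤ}
    (hL : Loc c0 B) (hρ : ∀ P, PGe P (-c0 P) ρ) {ζ : L} (hζ : ρ.eval ζ = 0) :
    hgt κ ζ ≤ B + B := by
  obtain ⟨lc, hlc⟩ : ∃ lc, lc = ρ.leadingCoeff := ⟨_, rfl⟩
  have hlc0 : lc ≠ 0 := by rw [hlc]; exact Polynomial.leadingCoeff_ne_zero.2 hρ0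
  have hlcH : hgt κ lc⁻¹ ≤ B := by
    rw [hgt_inv]
    exact hgt_le_of_loc hL fun P => by
      rw [hlc]
      exact hρ P _
  have hLlc := (loc_hgt (κ := κ) lc⁻¹).mono hlcH
  have hL3 := hL.add hLlc
  obtain ⟨ρ1, hρ1'⟩ : ∃ ρ1, ρ1 = ρ * Polynomial.C lc⁻¹ := ⟨_, rfl⟩
  have hm1 : ρ1.Monic := by
    rw [hρ1', hlc]
    exact Polynomial.monic_mul_leadingCoeff_inv hρ0
  have hρ1P : ∀ P, PGe P (-(c0 P + max (-P.ord lc⁻¹) 0)) ρ1 := by
    intro P
    rw [hρ1']
    refine ((hρ P).mul (PGe.C (ge_hgt lc⁻¹ P))).mono ?_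
    omega
  have hroot : ρ1.IsRoot ζ := by
    rw [Polynomial.IsRoot, hρ1', Polynomial.eval_mul, hζ, zero_mul]
  obtain ⟨γ, hγ⟩ := Polynomial.dvd_iff_isRoot.2 hroot
  have hXm : (Polynomial.X - Polynomial.C ζ).Monic := Polynomial.monic_X_sub_C ζ
  have hγm : γ.Monic := by
    refine hXm.of_mul_monic_left ?_
    rw [← hγ]
    exact hm1
  refine hgt_le_of_loc hL3 fun P => ?_
  have h1 := PGe.of_mul hXm hγm (P := P) (c := -(c0 P + max (-P.ord lc⁻¹) 0)) (by
    rw [← hγ]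
    exact hρ1P P)
  have h2 := h1 0
  rw [Polynomial.coeff_sub, Polynomial.coeff_X_zero, Polynomial.coeff_C_zero, zero_sub] at h2
  have h3 := h2.neg
  rwa [neg_neg] at h3

/-- the height of the point -/
theorem point_bd [IsAlgClosed κ] [CharZero κ] [IsFF κ L] {n : ℕ} {e : Fin (n + 1) → Fin 3 → L}
    {lam : Place κ L → ℤ} {H1 B : ℤ}
    (hL : Loc lam H1) (heP : ∀ P l i, Ge P (-lam P) (e l i)) {c s t : L} {x : Fin (n + 1) → L}
    (hx : ∀ l, x l = c * (e l 0 * s ^ 2 + e l 1 * (s * t) + e l 2 * t ^ 2)) (hx0 : x ≠ 0)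
    (hB : 0 ≤ B) (hζ : t ≠ 0 → hgt κ (s / t) ≤ B) : pht κ x ≤ 2 * B + H1 := by
  have hcase0 : ∀ (u : L) (c : Place κ L → ℤ) (B : ℤ), u ≠ 0 → Loc c B →
      (∀ P i, Ge P (-c P) (u⁻¹ * x i)) → pht κ x ≤ B := by
    intro u c B hu hL hge
    refine pht_le_of hx0 hL u⁻¹ fun P => ?_
    obtain ⟨i, hi, hiP⟩ := exists_po P hx0
    have h1 := (hge P i).resolve_left (mul_ne_zero (inv_ne_zero hu) hi)
    rw [P.ord_mul (inv_ne_zero hu) hi, hiP] at h1
    change -po P x ≤ _
    omega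
  by_cases ht0 : t = 0
  · have hcs : c * s ^ 2 ≠ 0 := by
      intro h0
      apply hx0
      funext l
      rw [hx l, ht0, Pi.zero_apply]
      have : c * (e l 0 * s ^ 2 + e l 1 * (s * 0) + e l 2 * 0 ^ 2) = e l 0 * (c * s ^ 2) := by ring
      rw [this, h0, mul_zero]
    have h1 : pht κ x ≤ H1 := by
      refine hcase0 (c * s ^ 2) lam H1 hcs hL fun P i => ?_
      have h2 : (c * s ^ 2)⁻¹ * x i = e i 0 := by
        rw [hx i, ht0, inv_mul_eq_iff_eq_mul₀ hcs]
        ring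
      rw [h2]
      exact heP P i 0
    linarith
  · have hc0' : c ≠ 0 := by
      rintro rfl
      apply hx0
      funext l
      rw [hx l, zero_mul, Pi.zero_apply]
    obtain ⟨Y, hY⟩ : ∃ Y, Y = c * t ^ 2 := ⟨_, rfl⟩
    have hY0 : Y ≠ 0 := by rw [hY]; exact mul_ne_zero hc0' (pow_ne_zero 2 ht0)
    obtain ⟨ζ, hζ'⟩ : ∃ ζ, ζ = s / t := ⟨_, rfl⟩
    have hζH := hζ ht0
    rw [← hζ'] at hζH
    have hL' := (((loc_hgt (κ := κ) ζ).mono hζH).mul (m := 2) (by norm_num)).add hL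
    refine hcase0 Y _ _ hY0 hL' fun P i => ?_
    have h1 : Y⁻¹ * x i = e i 0 * ζ ^ 2 + e i 1 * ζ + e i 2 := by
      rw [hx i, hY, hζ']
      field_simp
    rw [h1]
    have hz1 := le_max_right (-P.ord ζ) 0
    refine ((((heP P i 0).mul ((ge_hgt ζ P).pow 2)).mono ?_).add
      (((heP P i 1).mul (ge_hgt ζ P)).mono ?_)).add ((heP P i 2).mono ?_)
    · push_cast
      omega
    · omega
    · omega

end loc

/-- Heights of integral points on the conics of bounded height. -/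
theorem conicMB {κ L Ω A : Type} [Field κ] [Field L] [Field Ω] [Algebra κ L] [Algebra L Ω]
    [IsAlgClosed κ] [CharZero κ] [IsFF κ L] [IsAlgClosed Ω] [Finite A] {n β : ℕ} {dg : A → ℕ}
    {F : A → MvPolynomial (Fin (n + 1)) L} (hF : ∀ a, (F a).IsHomogeneous (dg a)) {C : Finset A}
    {G : MvPolynomial (Fin (n + 1)) L} (hG : G.IsHomogeneous β)
    (hno : NoCG (fun a => map (algebraMap L Ω) (F a)) C (map (algebraMap L Ω) G) β)
    {Sg : Set (Place κ L)} (hSg : Sg.Finite) (H : ℤ) :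
    ∃ B : ℤ, ∀ (ψ : Fin (n + 1) → Fin 3 → L) (ψ' : Fin 3 → Fin (n + 1) → L),
      (∀ i j, hgt κ (ψ i j) ≤ H) → (∀ i j, hgt κ (ψ' i j) ≤ H) →
      (∀ i j, ∑ l, ψ' i l * ψ l j = if i = j then 1 else 0) →
      ∀ (c s t : L) (x : Fin (n + 1) → L),
        (∀ l, x l = c * (ψ l 0 * s ^ 2 + ψ l 1 * (s * t) + ψ l 2 * t ^ 2)) →
        (∀ a ∈ C, eval x (F a) = 0) → eval x G ≠ 0 →
        (∀ P, P ∉ Sg → P.ord (eval x G) ≤ β * pord P x) → pht κ x ≤ B := by
  classical
  have hfin : Fintype A := Fintype.ofFinite A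
  have hczL : CharZero L := charZero_of_injective_algebraMap (algebraMap κ L).injective
  have hinfL : Infinite L := inferInstance
  obtain ⟨g, G0, hLg, hg'⟩ := exists_coef_loc (κ := κ) (L := L) (fun _ : Unit => G)
  have hg : ∀ P u, Ge P (-g P) (G.coeff u) := fun P u => hg' P () u
  obtain ⟨gF, GF, hLgF, hgF⟩ := exists_coef_loc (κ := κ) (L := L) F
  obtain ⟨sg, S, hLs, hs⟩ := exists_ind hSg
  choose Cr hCr0 hCr using fun r : {r : ℕ // 3 ≤ r} => mason (κ := κ) (L := L) r.2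
  obtain ⟨Cm, hCm0, hCm⟩ : ∃ Cm : ℤ, 0 ≤ Cm ∧ ∀ r (hr : 3 ≤ r), r ≤ 2 * β → Cr ⟨r, hr⟩ ≤ Cm := by
    obtain ⟨B, hB⟩ := (Set.finite_range fun i : Fin (2 * β + 1) =>
      if h : 3 ≤ i.1 then Cr ⟨i.1, h⟩ else 0).bddAbove
    refine ⟨max B 0, le_max_right _ _, fun r hr hrN => le_trans ?_ (le_max_left _ _)⟩
    have := hB ⟨⟨r, by omega⟩, rfl⟩
    dsimp only at this
    rwa [dif_pos hr] at this
  obtain ⟨H1, hH1⟩ : ∃ H1 : ℤ, H1 = ((n + 1 : ℕ) * 3 : ℕ) * H + ((n + 1 : ℕ) * 3 : ℕ) * H :=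
    ⟨_, rfl⟩
  obtain ⟨D, hD⟩ : ∃ D : ℕ, D = ∑ a, dg a := ⟨_, rfl⟩
  have hDa : ∀ a, dg a ≤ D := fun a => by
    rw [hD]
    exact Finset.single_le_sum (f := dg) (fun _ _ => Nat.zero_le _) (Finset.mem_univ a)
  obtain ⟨B1, hB1⟩ : ∃ B1 : ℤ, B1 = Cm * ((G0 + β * H1) + (G0 + β * H1) + S + H1 + 1) := ⟨_, rfl⟩
  obtain ⟨B2, hB2⟩ : ∃ B2 : ℤ, B2 = (GF + D * H1) + (GF + D * H1) := ⟨_, rfl⟩
  refine ⟨2 * max B1 B2 + H1, fun ψ ψ' hψ hψ' hinv c s t x hx hxC hxG hint => ?_⟩
  -- the local bounds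
  obtain ⟨g1, hLg1, hg1⟩ := exists_loc (κ := κ) (Finset.univ : Finset (Fin (n + 1) × Fin 3))
    (fun p => ψ p.1 p.2) (H := H) fun p _ => hψ p.1 p.2
  obtain ⟨g2, hLg2, hg2⟩ := exists_loc (κ := κ) (Finset.univ : Finset (Fin 3 × Fin (n + 1)))
    (fun p => ψ' p.1 p.2) (H := H) fun p _ => hψ' p.1 p.2
  have hcard1 : (Finset.univ : Finset (Fin (n + 1) × Fin 3)).card = (n + 1) * 3 := by
    rw [Finset.card_univ, Fintype.card_prod, Fintype.card_fin, Fintype.card_fin]
  have hcard2 : (Finset.univ : Finset (Fin 3 × Fin (n + 1))).card = (n + 1) * 3 := by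
    rw [Finset.card_univ, Fintype.card_prod, Fintype.card_fin, Fintype.card_fin, mul_comm]
  rw [hcard1] at hLg1
  rw [hcard2] at hLg2
  obtain ⟨lam, hlam⟩ : ∃ lam : Place κ L → ℤ, lam = fun P => g1 P + g2 P := ⟨_, rfl⟩
  have hLlam : Loc lam H1 := by
    rw [hlam, hH1]
    exact hLg1.add hLg2
  have hH10 := hLlam.B_nonneg
  have hψP : ∀ P i j, Ge P (-lam P) (ψ i j) := fun P i j =>
    (hg1 P (i, j) (Finset.mem_univ _)).mono (by
      rw [hlam]
      have := hLg2.nonneg P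
      dsimp only
      omega)
  have hψ'P : ∀ P i j, Ge P (-lam P) (ψ' i j) := fun P i j =>
    (hg2 P (i, j) (Finset.mem_univ _)).mono (by
      rw [hlam]
      have := hLg1.nonneg P
      dsimp only
      omega)
  have hB20 : 0 ≤ B2 := by
    have h1 := hLgF.B_nonneg
    have h2 : (0 : ℤ) ≤ D * H1 := by positivity
    rw [hB2]
    linarith
  have hB0 : 0 ≤ max B1 B2 := hB20.trans (le_max_right _ _)
  by_cases hx0 : x = 0
  · have h1 : pht κ x = 0 := by
      unfold pht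
      rw [neg_eq_zero]
      refine finsum_eq_zero_of_forall_eq_zero fun P => ?_
      unfold pord
      have : IsEmpty {j // x j ≠ 0} := ⟨fun j => j.2 (congrFun hx0 j.1)⟩
      rw [iInf, Set.range_eq_empty]
      exact Int.csInf_empty
    rw [h1]
    linarith
  by_cases hcase : ∃ a ∈ C, aeval (pe ψ) (F a) ≠ 0
  · -- a form which does not vanish on the conic
    obtain ⟨a, haC, ha⟩ := hcase
    refine (point_bd hLlam hψP hx hx0 hB20 fun ht => ?_).trans (by
      have := le_max_right B1 B2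
      linarith)
    have hLc : Loc (fun P => gF P + D * lam P) (GF + D * H1) :=
      hLgF.add (hLlam.mul (by positivity))
    rw [hB2]
    refine root_bd ha hLc (fun P => ?_) ?_
    · refine (pge_peB (hF a) (hψP P) fun u => hgF P a u).mono ?_
      have h1 : (dg a : ℤ) ≤ D := by exact_mod_cast hDa a
      have h2 := mul_le_mul_of_nonneg_right h1 (hLlam.nonneg P)
      linarith
    · have hc0 : c ≠ 0 := by
        rintro rfl
        apply hx0
        funext l
        rw [hx l, zero_mul, Pi.zero_apply]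
      have h1 : x = (c * t ^ 2) • fun l => ψ l 0 * (s / t) ^ 2 + ψ l 1 * (s / t) + ψ l 2 := by
        funext l
        rw [hx l, Pi.smul_apply, smul_eq_mul]
        field_simp
      have h2 := hxC a haC
      rw [h1, eval_smul_hom (hF a), ← eval_pe' ψ (F a)] at h2
      exact (mul_eq_zero.1 h2).resolve_left (pow_ne_zero _ (mul_ne_zero hc0 (pow_ne_zero 2 ht)))
  push Not at hcase
  -- the good parameter
  obtain ⟨ξ, hξ⟩ := exists_goodB (κ := κ) hG hx hxG
  obtain ⟨z, hz⟩ : ∃ z, z = algebraMap κ L ξ := ⟨_, rfl⟩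
  rw [← hz] at hξ
  have hzP : ∀ (P : Place κ L) (w : L), Ge P (-lam P) w → Ge P (-lam P) (z * w) := by
    intro P w hw
    have := (Ge.const (P := P) ξ).mul hw
    rwa [zero_add, ← hz] at this
  obtain ⟨e, he⟩ : ∃ e : Fin (n + 1) → Fin 3 → L, e = fun l => ![ψ l 0 + z * ψ l 1 + z ^ 2 * ψ l 2,
    ψ l 1 + 2 * z * ψ l 2, ψ l 2] := ⟨_, rfl⟩
  have he0 : ∀ l, e l 0 = ψ l 0 + z * ψ l 1 + z ^ 2 * ψ l 2 := fun l => by rw [he]; rfl
  have he1 : ∀ l, e l 1 = ψ l 1 + 2 * z * ψ l 2 := fun l => by rw [he]; rfl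
  have he2 : ∀ l, e l 2 = ψ l 2 := fun l => by rw [he]; rfl
  obtain ⟨e', he'⟩ : ∃ e' : Fin 3 → Fin (n + 1) → L, e' = ![fun l => ψ' 0 l,
    fun l => ψ' 1 l - z * ψ' 0 l, fun l => ψ' 2 l - 2 * z * ψ' 1 l + z ^ 2 * ψ' 0 l] := ⟨_, rfl⟩
  have he'0 : ∀ l, e' 0 l = ψ' 0 l := fun l => by rw [he']; rfl
  have he'1 : ∀ l, e' 1 l = ψ' 1 l - z * ψ' 0 l := fun l => by rw [he']; rfl
  have he'2 : ∀ l, e' 2 l = ψ' 2 l - 2 * z * ψ' 1 l + z ^ 2 * ψ' 0 l := fun l => by rw [he']; rfl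
  have heP : ∀ P l i, Ge P (-lam P) (e l i) := by
    intro P l i
    fin_cases i
    · change Ge P (-lam P) (e l 0)
      rw [he0, pow_two, mul_assoc]
      exact ((hψP P l 0).add (hzP P _ (hψP P l 1))).add (hzP P _ (hzP P _ (hψP P l 2)))
    · change Ge P (-lam P) (e l 1)
      rw [he1, mul_assoc, two_mul]
      exact (hψP P l 1).add ((hzP P _ (hψP P l 2)).add (hzP P _ (hψP P l 2)))
    · change Ge P (-lam P) (e l 2)
      rw [he2]
      exact hψP P l 2
  have he'P : ∀ P i l, Ge P (-lam P) (e' i l) := by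
    intro P i l
    fin_cases i
    · change Ge P (-lam P) (e' 0 l)
      rw [he'0]
      exact hψ'P P 0 l
    · change Ge P (-lam P) (e' 1 l)
      rw [he'1]
      exact (hψ'P P 1 l).sub (hzP P _ (hψ'P P 0 l))
    · change Ge P (-lam P) (e' 2 l)
      rw [he'2, mul_assoc, two_mul, pow_two, mul_assoc]
      exact ((hψ'P P 2 l).sub ((hzP P _ (hψ'P P 1 l)).add (hzP P _ (hψ'P P 1 l)))).add
        (hzP P _ (hzP P _ (hψ'P P 0 l)))
  have hinv' : ∀ i j, ∑ l, e' i l * e l j = if i = j then 1 else 0 := by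
    obtain ⟨U, hU⟩ : ∃ U : Fin 3 → Fin 3 → L, U = ![![1, 0, 0], ![-z, 1, 0],
      ![z ^ 2, -(2 * z), 1]] := ⟨_, rfl⟩
    obtain ⟨V, hV⟩ : ∃ V : Fin 3 → Fin 3 → L, V = ![![1, z, z ^ 2], ![0, 1, 2 * z],
      ![0, 0, 1]] := ⟨_, rfl⟩
    have h1 : ∀ i l, e' i l = ∑ a, U i a * ψ' a l := by
      intro i l
      rw [Fin.sum_univ_three, hU, he']
      fin_cases i <;> simp <;> ring
    have h2 : ∀ j l, e l j = ∑ b, ψ l b * V j b := by
      intro j l
      rw [Fin.sum_univ_three, hV, he]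
      fin_cases j <;> simp <;> ring
    intro i j
    have h3 : ∀ l, e' i l * e l j = (∑ a, U i a * ψ' a l) * (∑ b, ψ l b * V j b) := by
      intro l
      rw [h1, h2]
    rw [Finset.sum_congr rfl fun l _ => h3 l, inner_eq hinv (U i) (V j), Fin.sum_univ_three,
      hU, hV]
    fin_cases i <;> fin_cases j <;> simp <;> ring
  obtain ⟨t', ht'⟩ : ∃ t', t' = t - z * s := ⟨_, rfl⟩
  have hx' : ∀ l, x l = c * (e l 0 * s ^ 2 + e l 1 * (s * t') + e l 2 * t' ^ 2) := by
    intro l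
    rw [hx l, he0, he1, he2, ht']
    ring
  have hcol : ∀ i, ∑ l, e' i l * x l = c * ![s ^ 2, s * t', t' ^ 2] i := by
    intro i
    have h1 : ∀ l, e' i l * x l = c * (s ^ 2 * (e' i l * e l 0) + (s * t') * (e' i l * e l 1) +
        t' ^ 2 * (e' i l * e l 2)) := by
      intro l
      rw [hx' l]
      ring
    rw [Finset.sum_congr rfl fun l _ => h1 l, ← Finset.mul_sum, Finset.sum_add_distrib,
      Finset.sum_add_distrib, ← Finset.mul_sum, ← Finset.mul_sum, ← Finset.mul_sum, hinv', hinv',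
      hinv']
    congr 1
    fin_cases i <;> simp
  -- the restriction
  obtain ⟨φ, hφ⟩ : ∃ φ, φ = aeval (pe e) G := ⟨_, rfl⟩
  obtain ⟨hφd, hφc⟩ := lead_peB e hG
  rw [← hφ] at hφd hφc
  have hφc0 : φ.coeff (2 * β) ≠ 0 := by
    rw [hφc]
    have h1 : (fun l => e l 0) = fun l => ψ l 0 + z * ψ l 1 + z ^ 2 * ψ l 2 := by
      funext l
      rw [he0]
    rw [h1]
    exact hξ
  have hφ1 : φ.natDegree = 2 * β := le_antisymm hφd (Polynomial.le_natDegree_of_ne_zero hφc0)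
  have hφ3 : φ ≠ 0 := by
    rintro h0
    rw [h0, Polynomial.coeff_zero] at hφc0
    exact hφc0 rfl
  obtain ⟨lc, hlc⟩ : ∃ lc, lc = φ.leadingCoeff := ⟨_, rfl⟩
  have hlc0 : lc ≠ 0 := by rw [hlc]; exact Polynomial.leadingCoeff_ne_zero.2 hφ3
  obtain ⟨c0, hc0⟩ : ∃ c0 : Place κ L → ℤ, c0 = fun P => g P + β * lam P := ⟨_, rfl⟩
  have hLc0 : Loc c0 (G0 + β * H1) := by
    rw [hc0]
    exact hLg.add (hLlam.mul (by positivity))
  have hφP : ∀ P, PGe P (-c0 P) φ := by
    intro P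
    rw [hφ, hc0]
    exact pge_peB hG (heP P) (hg P)
  have hlcP : ∀ P, Ge P (-c0 P) lc := fun P => by
    rw [hlc]
    exact hφP P _
  have hlcH : hgt κ lc⁻¹ ≤ G0 + β * H1 := by
    rw [hgt_inv]
    exact hgt_le_of_loc hLc0 hlcP
  have hLlc := (loc_hgt (κ := κ) lc⁻¹).mono hlcH
  obtain ⟨c3, hc3⟩ : ∃ c3 : Place κ L → ℤ,
      c3 = fun P => c0 P + max (-P.ord lc⁻¹) 0 + sg P + lam P := ⟨_, rfl⟩
  have hLc3 : Loc c3 ((G0 + β * H1) + (G0 + β * H1) + S + H1) := by
    rw [hc3]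
    exact ((hLc0.add hLlc).add hLs).add hLlam
  have hB3 := hLc3.B_nonneg
  have hc3' : ∀ P, c0 P + max (-P.ord lc⁻¹) 0 ≤ c3 P := by
    intro P
    rw [hc3]
    have := hLs.nonneg P
    have := hLlam.nonneg P
    dsimp only
    omega
  obtain ⟨φ1, hφ1'⟩ : ∃ φ1, φ1 = φ * Polynomial.C lc⁻¹ := ⟨_, rfl⟩
  have hm1 : φ1.Monic := by
    rw [hφ1', hlc]
    exact Polynomial.monic_mul_leadingCoeff_inv hφ3
  have hφ1P : ∀ P, PGe P (-c3 P) φ1 := by
    intro P
    rw [hφ1']
    refine ((hφP P).mul (PGe.C (ge_hgt lc⁻¹ P))).mono ?_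
    have := hc3' P
    omega
  obtain ⟨χ, γ, m, hχm, hγm, hcop, hχγ, hdvd⟩ := exists_sqf hm1
  have hχP : ∀ P, PGe P (-c3 P) χ := fun P =>
    PGe.of_mul hχm hγm (by rw [← hχγ]; exact hφ1P P)
  have hγP : ∀ P, PGe P (-c3 P) γ := fun P =>
    PGe.of_mul hγm hχm (by rw [mul_comm, ← hχγ]; exact hφ1P P)
  have hdegs : χ.natDegree + γ.natDegree = 2 * β := by
    rw [← hχm.natDegree_mul hγm, ← hχγ, hφ1', Polynomial.natDegree_mul_C (inv_ne_zero hlc0), hφ1]
  -- the number of the punctures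
  have hr : 3 ≤ χ.natDegree := by
    by_contra hcon
    obtain ⟨θ, hθ⟩ : ∃ θ, θ = algebraMap L Ω := ⟨_, rfl⟩
    obtain ⟨c', a, b, i, j, hij, hprod⟩ := few_roots (φ := φ.map θ) (χ := χ.map θ)
      ((Polynomial.map_ne_zero_iff θ.injective).2 hφ3)
      ((Polynomial.map_ne_zero_iff θ.injective).2 hχm.ne_zero)
      (by rw [Polynomial.natDegree_map]; omega) (fun t ht => by
        have h1 : (φ1.map θ).eval t = 0 := by
          rw [hφ1', Polynomial.map_mul, Polynomial.eval_mul, ht, zero_mul]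
        obtain ⟨q, hq⟩ := hdvd
        have h2 : ((χ ^ m).map θ).eval t = 0 := by
          rw [hq, Polynomial.map_mul, Polynomial.eval_mul, h1, zero_mul]
        rw [Polynomial.map_pow, Polynomial.eval_pow] at h2
        by_contra hcon
        exact pow_ne_zero _ hcon h2)
    rw [Polynomial.natDegree_map, hφ1] at hij
    have hc'0 : c' ≠ 0 := by
      rintro rfl
      rw [Polynomial.C_0, zero_mul, zero_mul] at hprod
      exact (Polynomial.map_ne_zero_iff θ.injective).2 hφ3 hprod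
    refine hno (fun l i => θ (e l i)) (fun v hv => ?_) (fun a haC => ?_) c' a b i j hc'0 hij ?_
    · funext i0
      have h1 : ∑ l, θ (e' i0 l) * (∑ i, θ (e l i) * v i) = v i0 := by
        have h2 : ∀ l, θ (e' i0 l) * (∑ i, θ (e l i) * v i) =
            ∑ i, v i * θ (e' i0 l * e l i) := by
          intro l
          rw [Finset.mul_sum]
          refine Finset.sum_congr rfl fun i _ => ?_
          rw [map_mul]
          ring
        rw [Finset.sum_congr rfl fun l _ => h2 l, Finset.sum_comm]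
        have h3 : ∀ i, ∑ l, v i * θ (e' i0 l * e l i) = v i * (if i0 = i then 1 else 0) := by
          intro i
          rw [← Finset.mul_sum, ← map_sum, hinv']
          split_ifs <;> simp
        rw [Finset.sum_congr rfl fun i _ => h3 i]
        simp
      rw [← h1, Pi.zero_apply]
      refine Finset.sum_eq_zero fun l _ => ?_
      rw [hv l, mul_zero]
    · rw [← hθ, map_pe, repar_zero (hF a) he0 he1 he2 (hcase a haC), Polynomial.map_zero]
    · rw [← hθ, map_pe, ← hφ]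
      exact hprod
  -- the point
  refine (point_bd (B := B1) hLlam heP hx' hx0 ?_ fun ht0 => ?_).trans (by
    have := le_max_left B1 B2
    linarith)
  · rw [hB1]
    exact mul_nonneg hCm0 (by linarith)
  · have hc0' : c ≠ 0 := by
      rintro rfl
      apply hx0
      funext l
      rw [hx' l, zero_mul, Pi.zero_apply]
    obtain ⟨Y, hY⟩ : ∃ Y, Y = c * t' ^ 2 := ⟨_, rfl⟩
    have hY0 : Y ≠ 0 := by rw [hY]; exact mul_ne_zero hc0' (pow_ne_zero 2 ht0)
    obtain ⟨ζ, hζ⟩ : ∃ ζ, ζ = s / t' := ⟨_, rfl⟩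
    rw [← hζ]
    have hv : x = Y • fun l => e l 0 * ζ ^ 2 + e l 1 * ζ + e l 2 := by
      funext l
      rw [Pi.smul_apply, smul_eq_mul, hx' l, hY, hζ]
      field_simp
    have hvF : eval x G = Y ^ β * φ.eval ζ := by
      conv_lhs => rw [hv]
      rw [eval_smul_hom hG, hφ, eval_pe']
    have hφζ0 : φ.eval ζ ≠ 0 := by
      intro h0
      apply hxG
      rw [hvF, h0, mul_zero]
    have hφ1ζ : φ1.eval ζ = φ.eval ζ * lc⁻¹ := by
      rw [hφ1', Polynomial.eval_mul, Polynomial.eval_C]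
    have hφ1ζ0 : φ1.eval ζ ≠ 0 := by
      rw [hφ1ζ]
      exact mul_ne_zero hφζ0 (inv_ne_zero hlc0)
    have hχγζ : χ.eval ζ * γ.eval ζ = φ1.eval ζ := by
      rw [hχγ, Polynomial.eval_mul]
    have hχζ0 : χ.eval ζ ≠ 0 := fun h0 => hφ1ζ0 (by rw [← hχγζ, h0, zero_mul])
    have hγζ0 : γ.eval ζ ≠ 0 := fun h0 => hφ1ζ0 (by rw [← hχγζ, h0, mul_zero])
    rw [hB1]
    refine (hCr ⟨χ.natDegree, hr⟩ χ ζ c3 _ hχm rfl hcop hLc3 hχP hχζ0 fun P hP => ?_).trans
      (mul_le_mul_of_nonneg_right (hCm _ hr (by omega)) (by linarith))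
    obtain ⟨mm, hmm⟩ : ∃ mm, mm = min (P.ord ζ) 0 := ⟨_, rfl⟩
    rw [← hmm]
    have hmm0 : mm ≤ 0 := by rw [hmm]; exact min_le_right _ _
    have hζm : Ge P mm ζ := Or.inr (by rw [hmm]; exact min_le_left _ _)
    have hc0P := hLc0.nonneg P
    have hsP := hLs.nonneg P
    have hgP := hLg.nonneg P
    have hlamP := hLlam.nonneg P
    have hmax := le_max_right (-P.ord lc⁻¹) 0
    have hmax' := le_max_left (-P.ord lc⁻¹) 0
    have hc3P : c0 P + max (-P.ord lc⁻¹) 0 + sg P + lam P = 0 := by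
      rw [hc3] at hP
      exact hP
    have hlam0 : lam P = 0 := by omega
    have hPS : P ∉ Sg := by
      intro hPS
      have := hs P hPS
      omega
    have hlcP0 : P.ord lc = 0 := by
      have h1 := (hlcP P).resolve_left hlc0
      have h2 := P.ord_inv lc
      omega
    -- the order of the point
    have hpc : ∀ i, Ge P (pord P x) (c * ![s ^ 2, s * t', t' ^ 2] i) := by
      intro i
      rw [← hcol i]
      refine Ge.sum _ _ fun l _ => ?_
      have h2 : Ge P (pord P x) (x l) := by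
        by_cases hl : x l = 0
        · exact Or.inl hl
        · exact Or.inr (pord_le P hl)
      have h3 := (he'P P i l).mul h2
      rwa [hlam0, neg_zero, zero_add] at h3
    have hpY : pord P x ≤ P.ord Y := by
      have h1 : Ge P (pord P x) Y := by
        rw [hY]
        exact hpc 2
      exact h1.resolve_left hY0
    have hpX : ζ ≠ 0 → pord P x ≤ 2 * P.ord ζ + P.ord Y := by
      intro hζ0
      have h1 : Ge P (pord P x) (ζ ^ 2 * Y) := by
        have h2 : ζ ^ 2 * Y = c * s ^ 2 := by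
          rw [hζ, hY]
          field_simp
        rw [h2]
        exact hpc 0
      have h3 := h1.resolve_left (mul_ne_zero (pow_ne_zero 2 hζ0) hY0)
      rw [P.ord_mul (pow_ne_zero 2 hζ0) hY0, P.ord_pow] at h3
      exact_mod_cast h3
    have hpm : pord P x ≤ 2 * mm + P.ord Y := by
      rcases min_choice (P.ord ζ) 0 with h | h
      · by_cases hζ0 : ζ = 0
        · have h2 : mm = 0 := by
            rw [hmm, hζ0, P.ord_zero, min_self]
          rw [h2, mul_zero, zero_add]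
          exact hpY
        · rw [hmm, h]; exact hpX hζ0
      · rw [hmm, h, mul_zero, zero_add]; exact hpY
    have hφm : P.ord (φ.eval ζ) ≤ (2 * β : ℤ) * mm := by
      have h1 := hint P hPS
      rw [hvF, P.ord_mul (pow_ne_zero _ hY0) hφζ0, P.ord_pow] at h1
      have h2 := mul_le_mul_of_nonneg_left hpm (by positivity : (0 : ℤ) ≤ β)
      have h3 : (β : ℤ) * (2 * mm + P.ord Y) = (2 * β : ℤ) * mm + β * P.ord Y := by ring
      rw [h3] at h2
      linarith
    have hφ1m : P.ord (φ1.eval ζ) ≤ (2 * β : ℤ) * mm := by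
      rw [hφ1ζ, P.ord_mul hφζ0 (inv_ne_zero hlc0), P.ord_inv, hlcP0]
      linarith
    have hγm' : (γ.natDegree : ℤ) * mm ≤ P.ord (γ.eval ζ) := by
      have h1 := ((hγP P).eval le_rfl hmm0 hζm).resolve_left hγζ0
      rw [hP] at h1
      omega
    rw [← hχγζ, P.ord_mul hχζ0 hγζ0] at hφ1m
    have h1 : (2 * β : ℤ) = χ.natDegree + γ.natDegree := by exact_mod_cast hdegs.symm
    rw [h1] at hφ1m
    linarith

end Pool.Agent.NH27.B
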