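import Pool.Agent.NH27.B.Area
import Pool.Agent.Y741.LimX
import Pool.Agent.Y735.S.Cases5

/-!
The area form on the tangent plane, and the minors.
-/

set_option autoImplicit false

open MvPolynomial FF Pool.Agent.W603.LV Pool.Agent.W603.PV Pool.Agent.TH145.GH
open Pool.Agent.Y735 (lf pm pl vol vol_apply lf_pm alt_tri)
open Pool.Agent.Y741

namespace Pool.Agent.NH27.B

section rows

variable {V Y : Type}

/-- The position of the first vector. -/
abbrev pu (Y : Type) : Ri Y Empty Unit Empty Empty := Sum.inr (some (Sum.inr (Sum.inl (Sum.inl ()))))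

/-- The position of the second vector. -/
abbrev pv (Y : Type) : Ri Y Empty Unit Empty Empty := Sum.inr (some (Sum.inr (Sum.inl (Sum.inr ()))))

theorem rwf_u [DecidableEq (Ri Y Empty Unit Empty Empty)] (r : Y → V) (x u u' v : V) :
    Function.update (rwf r x u' v) (pu Y) u = rwf r x u v := by
  funext κ
  rcases κ with c | _ | a | (b | b) | a | a
  · rw [Function.update_of_ne (by simp)]; rfl
  · rw [Function.update_of_ne (by simp)]; rfl
  · exact a.elim
  · rw [Function.update_self]; rfl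
  · rw [Function.update_of_ne (by simp)]; rfl
  · exact a.elim
  · exact a.elim

theorem rwf_v [DecidableEq (Ri Y Empty Unit Empty Empty)] (r : Y → V) (x u v v' : V) :
    Function.update (rwf r x u v') (pv Y) v = rwf r x u v := by
  funext κ
  rcases κ with c | _ | a | (b | b) | a | a
  · rw [Function.update_of_ne (by simp)]; rfl
  · rw [Function.update_of_ne (by simp)]; rfl
  · exact a.elim
  · rw [Function.update_of_ne (by simp)]; rfl
  · rw [Function.update_self]; rfl
  · exact a.elim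
  · exact a.elim

end rows

variable {K A : Type} [Field K] [Fintype A] [DecidableEq A] {n : ℕ} {dg : A → ℕ}
  {C : Finset A} (E : Ri C Empty Unit Empty Empty ≃ Fin (n + 1))

omit [Fintype A] [DecidableEq A] in
/-- F1 -/
theorem exists_E (hC : C.card + 2 = n) : Nonempty (Ri C Empty Unit Empty Empty ≃ Fin (n + 1)) := by
  refine Fintype.card_eq.1 ?_
  simp only [Fintype.card_option, Fintype.card_sum, Fintype.card_fin, Fintype.card_coe,
    Fintype.card_empty, Fintype.card_unit]
  omega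

/-- The area form as a bilinear form. -/
theorem exists_AB (dg : A → ℕ) (D : A → (Fin (n + 1) →₀ ℕ) → Derivation ℤ K K)
    (x : Fin (n + 1) → K) (i1 : Fin (n + 1)) :
    ∃ B : (Fin (n + 1) → K) →ₗ[K] (Fin (n + 1) → K) →ₗ[K] K,
      (∀ u v, B u v = AB dg D E x i1 u v) ∧ (∀ u, B u u = 0) ∧ ∀ v, B x v = 0 := by
  classical
  obtain ⟨r, hr⟩ : ∃ r : C → Fin (n + 1) → K,
    r = fun c : C => vA D x (Pi.single c.1 (X i1 ^ dg c.1)) := ⟨_, rfl⟩
  have hu : ∀ u v, rwf r x u v = Function.update (rwf r x 0 v) (pu C) u := fun u v =>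
    (rwf_u r x u 0 v).symm
  have hv : ∀ u v, rwf r x u v = Function.update (rwf r x u 0) (pv C) v := fun u v =>
    (rwf_v r x u v 0).symm
  refine ⟨LinearMap.mk₂ K (fun u v => AB dg D E x i1 u v) ?_ ?_ ?_ ?_, fun u v => rfl,
    fun u => ?_, fun v => ?_⟩
  · intro u u' v
    unfold AB
    rw [← hr, hu, AlternatingMap.map_update_add, ← hu, ← hu, add_div]
  · intro c u v
    unfold AB
    rw [← hr, hu, AlternatingMap.map_update_smul, ← hu, smul_eq_mul, smul_eq_mul, mul_div_assoc]
  · intro u v v'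
    unfold AB
    rw [← hr, hv, AlternatingMap.map_update_add, ← hv, ← hv, add_div]
  · intro c u v
    unfold AB
    rw [← hr, hv, AlternatingMap.map_update_smul, ← hv, smul_eq_mul, smul_eq_mul, mul_div_assoc]
  · change AB dg D E x i1 u u = 0
    unfold AB
    rw [AlternatingMap.map_eq_zero_of_eq _ _ (i := pu C) (j := pv C) rfl (by simp), zero_div]
  · change AB dg D E x i1 x v = 0
    unfold AB
    rw [AlternatingMap.map_eq_zero_of_eq _ _ (i := pu C) (j := Sum.inr none) rfl (by simp),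
      zero_div]

theorem AB_swap (dg : A → ℕ) (D : A → (Fin (n + 1) →₀ ℕ) → Derivation ℤ K K)
    (x : Fin (n + 1) → K) (i1 : Fin (n + 1)) (u v : Fin (n + 1) → K) :
    AB dg D E x i1 v u = -AB dg D E x i1 u v := by
  obtain ⟨B, hB, hB2, -⟩ := exists_AB E dg D x i1
  have h := hB2 (u + v)
  simp only [map_add, LinearMap.add_apply, hB2, zero_add, add_zero, hB] at h
  linear_combination h

theorem AB_self (dg : A → ℕ) (D : A → (Fin (n + 1) →₀ ℕ) → Derivation ℤ K K)
    (x : Fin (n + 1) → K) (i1 : Fin (n + 1)) (u : Fin (n + 1) → K) :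
    AB dg D E x i1 u u = 0 := by
  obtain ⟨B, hB, hB2, -⟩ := exists_AB E dg D x i1
  rw [← hB]
  exact hB2 u

section minors

variable {E} {D : A → (Fin (n + 1) →₀ ℕ) → Derivation ℤ K K} {x : Fin (n + 1) → K}
  {i1 : Fin (n + 1)} {Q : Fam K n A}

theorem DB_swap (a b c : Fin (n + 1)) : DB dg D E x i1 Q b a c = -DB dg D E x i1 Q a b c := by
  unfold DB
  rw [AB_swap E dg D x i1 (vq D x Q (Pi.single a 1)) (vq D x Q (Pi.single b 1))]
  ring

theorem DB_swap' (a b c : Fin (n + 1)) : DB dg D E x i1 Q a c b = -DB dg D E x i1 Q a b c := by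
  unfold DB
  rw [AB_swap E dg D x i1 (vq D x Q (Pi.single b 1)) (vq D x Q (Pi.single c 1))]
  ring

theorem DB_aac (a c : Fin (n + 1)) : DB dg D E x i1 Q a a c = 0 := by
  unfold DB
  rw [AB_self]
  ring

theorem DB_abb (a b : Fin (n + 1)) : DB dg D E x i1 Q a b b = 0 := by
  unfold DB
  rw [AB_self]
  ring

theorem DB_aba (a b : Fin (n + 1)) : DB dg D E x i1 Q a b a = 0 := by
  rw [DB_swap', DB_aac, neg_zero]

theorem DB_cramer (a b c d : Fin (n + 1)) : x d * DB dg D E x i1 Q a b c =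
    x a * DB dg D E x i1 Q d b c + x b * DB dg D E x i1 Q a d c +
      x c * DB dg D E x i1 Q a b d := by
  unfold DB
  rw [AB_swap E dg D x i1 (vq D x Q (Pi.single c 1)) (vq D x Q (Pi.single d 1)),
    AB_swap E dg D x i1 (vq D x Q (Pi.single b 1)) (vq D x Q (Pi.single d 1))]
  ring

omit [DecidableEq A] in
theorem vq_pm (a b : Fin (n + 1)) : vq D x Q (pm x a b) =
    x a • vq D x Q (Pi.single b 1) - x b • vq D x Q (Pi.single a 1) := by
  rw [← map_smul, ← map_smul, ← map_sub]
  congr 1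
  funext l
  simp only [pm, Pi.sub_apply, Pi.smul_apply, smul_eq_mul]
  congr 1
  · by_cases h : l = b
    · rw [if_pos h, h, Pi.single_eq_same, mul_one]
    · rw [if_neg h, Pi.single_eq_of_ne h, mul_zero]
  · by_cases h : l = a
    · rw [if_pos h, h, Pi.single_eq_same, mul_one]
    · rw [if_neg h, Pi.single_eq_of_ne h, mul_zero]

theorem DB_mul (a b c : Fin (n + 1)) :
    AB dg D E x i1 (vq D x Q (pm x a b)) (vq D x Q (pm x a c)) =
      x a * DB dg D E x i1 Q a b c := by
  obtain ⟨B, hB, hB2, -⟩ := exists_AB E dg D x i1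
  rw [vq_pm, vq_pm, ← hB]
  simp only [map_sub, LinearMap.sub_apply, LinearMap.smul_apply, map_smul, hB2, hB, smul_eq_mul]
  unfold DB
  rw [AB_swap E dg D x i1 (vq D x Q (Pi.single a 1)) (vq D x Q (Pi.single b 1))]
  ring

/-- F4 -/
theorem ech_DB {ι : Fin 3 → Fin (n + 1)}
    (h0 : DB dg D E x i1 Q (ι 0) (ι 1) (ι 2) ≠ 0) : Ech ι (pB dg D E x i1 Q ι) x := by
  have h01 : (0 : Fin 3) ≠ 1 := by decide
  have h02 : (0 : Fin 3) ≠ 2 := by decide
  have h12 : (1 : Fin 3) ≠ 2 := by decide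
  have e0 : ∀ l, pB dg D E x i1 Q ι 0 l =
      DB dg D E x i1 Q l (ι 1) (ι 2) / DB dg D E x i1 Q (ι 0) (ι 1) (ι 2) := by
    intro l
    unfold pB
    rw [Function.update_self, Function.update_of_ne h01.symm, Function.update_of_ne h02.symm]
  have e1 : ∀ l, pB dg D E x i1 Q ι 1 l =
      DB dg D E x i1 Q (ι 0) l (ι 2) / DB dg D E x i1 Q (ι 0) (ι 1) (ι 2) := by
    intro l
    unfold pB
    rw [Function.update_self, Function.update_of_ne h01, Function.update_of_ne h12.symm]
  have e2 : ∀ l, pB dg D E x i1 Q ι 2 l =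
      DB dg D E x i1 Q (ι 0) (ι 1) l / DB dg D E x i1 Q (ι 0) (ι 1) (ι 2) := by
    intro l
    unfold pB
    rw [Function.update_self, Function.update_of_ne h02, Function.update_of_ne h12]
  constructor
  · intro i j
    fin_cases i <;> fin_cases j
    · change pB dg D E x i1 Q ι 0 (ι 0) = _
      rw [e0, div_self h0]; rfl
    · change pB dg D E x i1 Q ι 0 (ι 1) = _
      rw [e0, DB_aac, zero_div]; rfl
    · change pB dg D E x i1 Q ι 0 (ι 2) = _
      rw [e0, DB_aba, zero_div]; rfl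
    · change pB dg D E x i1 Q ι 1 (ι 0) = _
      rw [e1, DB_aac, zero_div]; rfl
    · change pB dg D E x i1 Q ι 1 (ι 1) = _
      rw [e1, div_self h0]; rfl
    · change pB dg D E x i1 Q ι 1 (ι 2) = _
      rw [e1, DB_abb, zero_div]; rfl
    · change pB dg D E x i1 Q ι 2 (ι 0) = _
      rw [e2, DB_aba, zero_div]; rfl
    · change pB dg D E x i1 Q ι 2 (ι 1) = _
      rw [e2, DB_abb, zero_div]; rfl
    · change pB dg D E x i1 Q ι 2 (ι 2) = _
      rw [e2, div_self h0]; rfl
  · intro l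
    rw [Fin.sum_univ_three, e0, e1, e2]
    have h := DB_cramer (E := E) (dg := dg) (D := D) (x := x) (i1 := i1) (Q := Q) (ι 0) (ι 1)
      (ι 2) l
    field_simp
    exact h

end minors

section tangent

variable {E} {F : Fam K n A} {D : A → (Fin (n + 1) →₀ ℕ) → Derivation ℤ K K}
  {x : Fin (n + 1) → K}

/-- The rows of the area form. -/
theorem rwf_tri (hF : ∀ a, (F a).IsHomogeneous (dg a)) (hD : TH145.GC.Dual F dg D)
    (hxC : ∀ c ∈ C, eval x (F c) = 0) {i1 i2 : Fin (n + 1)} (h2 : x i2 ≠ 0)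
    {u v : Fin (n + 1) → K} (hT : TC F C x ≤ Submodule.span K (Set.range ![x, u, v])) :
    vol E (rwf (fun c : C => vA D x (Pi.single c.1 (X i1 ^ dg c.1))) x u v) =
      (∏ c ∈ C, (x i1 / x i2) ^ dg c) *
        vol E (rwf (fun c : C => vA D x (Pi.single c.1 (X i2 ^ dg c.1))) x u v) := by
  classical
  obtain ⟨R, hR⟩ : ∃ R, R = rwf (fun c : C => vA D x (Pi.single c.1 (X i1 ^ dg c.1))) x u v :=
    ⟨_, rfl⟩
  obtain ⟨co, hco⟩ : ∃ co : Ri C Empty Unit Empty Empty → K, co = fun κ => match κ with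
    | Sum.inl c => (x i1 / x i2) ^ dg c.1
    | Sum.inr _ => 1 := ⟨_, rfl⟩
  obtain ⟨ρ, hρ⟩ : ∃ ρ : Ri C Empty Unit Empty Empty → ℕ, ρ = fun κ => match κ with
    | Sum.inl _ => 1
    | Sum.inr _ => 0 := ⟨_, rfl⟩
  have h3 := alt_tri (vol E) R (rwf (fun c : C => vA D x (Pi.single c.1 (X i2 ^ dg c.1))) x u v)
    co ρ (fun κ => by
      rcases κ with c | κ
      · have hXh : ∀ i : Fin (n + 1), ∀ a, ((Pi.single c.1 (X i ^ dg c.1) : Fam K n A) a).IsHomogeneous
            (dg a) := fun i a => single_hom (isHomogeneous_X_pow i (dg c.1)) a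
        obtain ⟨G, hG⟩ : ∃ G : Fam K n A, G = (Pi.single c.1 (X i1 ^ dg c.1) : Fam K n A) -
            (x i1 / x i2) ^ dg c.1 • (Pi.single c.1 (X i2 ^ dg c.1) : Fam K n A) := ⟨_, rfl⟩
        have hGT : vA D x G ∈ TC F C x := by
          refine vA_mem_TC hF hD hxC (fun a => ?_) fun b _ => ?_
          · rw [hG, Pi.sub_apply, Pi.smul_apply]
            refine (hXh i1 a).sub ?_
            rw [smul_eq_C_mul]
            have := (isHomogeneous_C (Fin (n + 1)) ((x i1 / x i2) ^ dg c.1)).mul (hXh i2 a)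
            rwa [zero_add] at this
          · rw [hG, Pi.sub_apply, Pi.smul_apply, map_sub, smul_eval]
            by_cases hb : b = c.1
            · subst hb
              rw [Pi.single_eq_same, Pi.single_eq_same, map_pow, map_pow, eval_X, eval_X,
                div_pow, div_mul_cancel₀ _ (pow_ne_zero _ h2), sub_self]
            · rw [Pi.single_eq_of_ne hb, Pi.single_eq_of_ne hb, map_zero, mul_zero, sub_self]
        have h4 : R (Sum.inl c) - co (Sum.inl c) • rwf (fun c : C => vA D x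
            (Pi.single c.1 (X i2 ^ dg c.1))) x u v (Sum.inl c) = vA D x G := by
          rw [hG, map_sub, map_smul, hR, hco]
          rfl
        rw [h4]
        refine Submodule.span_mono ?_ (hT hGT)
        rintro _ ⟨i, rfl⟩
        fin_cases i
        · exact ⟨Sum.inr none, by rw [hρ]; exact Nat.zero_lt_one, by rw [hR]; rfl⟩
        · exact ⟨pu C, by rw [hρ]; exact Nat.zero_lt_one, by rw [hR]; rfl⟩
        · exact ⟨pv C, by rw [hρ]; exact Nat.zero_lt_one, by rw [hR]; rfl⟩
      · have h4 : R (Sum.inr κ) - co (Sum.inr κ) • rwf (fun c : C => vA D x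
            (Pi.single c.1 (X i2 ^ dg c.1))) x u v (Sum.inr κ) = 0 := by
          have h5 : co (Sum.inr κ) = 1 := by rw [hco]
          rw [h5, one_smul, hR]
          rcases κ with _ | a | (b | b) | a | a
          · exact sub_self _
          · exact a.elim
          · exact sub_self _
          · exact sub_self _
          · exact a.elim
          · exact a.elim
        rw [h4]
        exact zero_mem _)
  rw [← hR, h3]
  congr 1
  rw [Fintype.prod_sum_type, hco]
  simp only [Finset.prod_const_one, mul_one]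
  exact Finset.prod_coe_sort C (fun c => (x i1 / x i2) ^ dg c)

omit [Fintype A] [DecidableEq A] in
/-- Independent rows. -/
theorem li_rows {r : C → Fin (n + 1) → K} {u v : Fin (n + 1) → K}
    (h : vol E (rwf r x u v) ≠ 0) : LinearIndependent K (rwf r x u v) := by
  rw [vol_apply] at h
  have h4 := Matrix.linearIndependent_rows_iff_isUnit
    (A := Matrix.of fun i => rwf r x u v (E.symm i))
  rw [Matrix.isUnit_iff_isUnit_det, isUnit_iff_ne_zero] at h4
  exact (linearIndependent_equiv E.symm).1 (h4.2 h)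

omit [Fintype A] [DecidableEq A] in
theorem li_three {r : C → Fin (n + 1) → K} {u v : Fin (n + 1) → K}
    (h : vol E (rwf r x u v) ≠ 0) : LinearIndependent K ![x, u, v] := by
  have h1 := (li_rows h).comp (![Sum.inr none, pu C, pv C] : Fin 3 → Ri C Empty Unit Empty Empty)
    (by
      intro i j hij
      fin_cases i <;> fin_cases j <;> simp at hij ⊢)
  have h2 : (rwf r x u v ∘ (![Sum.inr none, pu C, pv C] : Fin 3 → Ri C Empty Unit Empty Empty)) =
      ![x, u, v] := by
    funext i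
    fin_cases i <;> rfl
  rwa [h2] at h1

theorem TC_le (hF : ∀ a, (F a).IsHomogeneous (dg a)) (hD : TH145.GC.Dual F dg D)
    (hC : C.card + 2 = n) (hxC : ∀ c ∈ C, eval x (F c) = 0) {u v : Fin (n + 1) → K}
    (hu : u ∈ TC F C x) (hv : v ∈ TC F C x) (h : LinearIndependent K ![x, u, v]) :
    TC F C x ≤ Submodule.span K (Set.range ![x, u, v]) := by
  have hx0 : x ≠ 0 := h.ne_zero (i := 0)
  have h1 := TC_finrank hF hD hxC hx0
  refine (Submodule.eq_of_le_of_finrank_eq (S₁ := Submodule.span K (Set.range ![x, u, v])) ?_ ?_).ge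
  · rw [Submodule.span_le]
    rintro _ ⟨i, rfl⟩
    fin_cases i
    · exact x_mem_TC hF hxC
    · exact hu
    · exact hv
  · rw [finrank_span_eq_card h, Fintype.card_fin]
    omega

/-- The area form does not depend on the variable. -/
theorem AB_indep (hF : ∀ a, (F a).IsHomogeneous (dg a)) (hD : TH145.GC.Dual F dg D)
    (hC : C.card + 2 = n) (hxC : ∀ c ∈ C, eval x (F c) = 0) {i1 i2 : Fin (n + 1)}
    (h1 : x i1 ≠ 0) (h2 : x i2 ≠ 0) {u v : Fin (n + 1) → K} (hu : u ∈ TC F C x)
    (hv : v ∈ TC F C x) : AB dg D E x i1 u v = AB dg D E x i2 u v := by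
  have key : ∀ {i1 i2 : Fin (n + 1)}, x i1 ≠ 0 → x i2 ≠ 0 → LinearIndependent K ![x, u, v] →
      AB dg D E x i1 u v = AB dg D E x i2 u v := by
    intro i1 i2 h1 h2 h
    unfold AB
    rw [rwf_tri hF hD hxC h2 (TC_le hF hD hC hxC hu hv h)]
    simp only [div_pow]
    rw [Finset.prod_div_distrib]
    have h3 : ∏ c ∈ C, x i1 ^ dg c ≠ 0 := Finset.prod_ne_zero_iff.2 fun c _ => pow_ne_zero _ h1
    have h4 : ∏ c ∈ C, x i2 ^ dg c ≠ 0 := Finset.prod_ne_zero_iff.2 fun c _ => pow_ne_zero _ h2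
    field_simp
  by_cases h : LinearIndependent K ![x, u, v]
  · exact key h1 h2 h
  · have h0 : ∀ i, AB dg D E x i u v = 0 := by
      intro i
      unfold AB
      by_contra hne
      exact h (li_three (div_ne_zero_iff.1 hne).1)
    rw [h0, h0]

theorem DB_indep (hpos : ∀ a, 0 < dg a) (hF : ∀ a, (F a).IsHomogeneous (dg a))
    (hD : TH145.GC.Dual F dg D)
    (hC : C.card + 2 = n) (hxC : ∀ c ∈ C, eval x (F c) = 0) {Q : Fam K n A}
    (hQ : ∀ a, (Q a).IsHomogeneous (dg a - 1)) {i1 i2 : Fin (n + 1)}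
    (h1 : x i1 ≠ 0) (h2 : x i2 ≠ 0) {a : Fin (n + 1)} (ha : x a ≠ 0) (b c : Fin (n + 1)) :
    DB dg D E x i1 Q a b c = DB dg D E x i2 Q a b c := by
  have hm : ∀ j, vq D x Q (pm x a j) ∈ TC F C x := fun j =>
    vq_mem_TC hpos hF hD hxC hQ (by rw [← Pool.Agent.Y735.eval_lf]; exact Pool.Agent.Y735.eval_pm x a j)
  have h3 := AB_indep (E := E) hF hD hC hxC h1 h2 (hm b) (hm c)
  rw [DB_mul, DB_mul] at h3
  exact mul_left_cancel₀ ha h3

/-- F3 -/
theorem exists_DB_ne (hpos : ∀ a, 0 < dg a) (hF : ∀ a, (F a).IsHomogeneous (dg a))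
    (hD : TH145.GC.Dual F dg D) (hC : C.card + 2 = n)
    (hxC : ∀ c ∈ C, eval x (F c) = 0) (hR : Rest5 dg D x) :
    ∃ Q ∈ CS K n dg, ∃ ι : Fin 3 → Fin (n + 1), x (ι 0) ≠ 0 ∧
      DB dg D E x (ι 0) Q (ι 0) (ι 1) (ι 2) ≠ 0 := by
  obtain ⟨Q, hQ, i0, j, l, hi0, hli⟩ := hR
  refine ⟨Q, hQ, ![i0, j, l], hi0, ?_⟩
  change DB dg D E x i0 Q i0 j l ≠ 0
  intro h0
  have hm : ∀ j, vq D x Q (pm x i0 j) ∈ TC F C x := fun j =>
    vq_mem_TC hpos hF hD hxC hQ.1 (by rw [← Pool.Agent.Y735.eval_lf]; exact Pool.Agent.Y735.eval_pm x i0 j)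
  have h1 := TC_le hF hD hC hxC (hm j) (hm l) hli
  have h2 : vol E (rwf (fun c : C => vA D x (Pi.single c.1 (X i0 ^ dg c.1))) x
      (vq D x Q (pm x i0 j)) (vq D x Q (pm x i0 l))) ≠ 0 := by
    obtain ⟨R, hR⟩ : ∃ R, R = rwf (fun c : C => vA D x (Pi.single c.1 (X i0 ^ dg c.1))) x
      (vq D x Q (pm x i0 j)) (vq D x Q (pm x i0 l)) := ⟨_, rfl⟩
    rw [← hR]
    have htop : Submodule.span K (Set.range R) = ⊤ := by
      rw [eq_top_iff]
      intro z _
      have h1' := exists_dec hF hD hxC hi0 z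
      have h3 : Submodule.span K (Set.range ![x, vq D x Q (pm x i0 j), vq D x Q (pm x i0 l)]) ≤
          Submodule.span K (Set.range R) := by
        rw [Submodule.span_le]
        rintro _ ⟨i, rfl⟩
        fin_cases i
        · exact Submodule.subset_span ⟨Sum.inr none, by rw [hR]; rfl⟩
        · exact Submodule.subset_span ⟨pu C, by rw [hR]; rfl⟩
        · exact Submodule.subset_span ⟨pv C, by rw [hR]; rfl⟩
      have h4 : ∑ c : C, (-(dF (F c) x z / x i0 ^ dg c.1)) •
          vA D x (Pi.single c.1 (X i0 ^ dg c.1)) ∈ Submodule.span K (Set.range R) :=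
        sum_mem fun c _ => Submodule.smul_mem _ _ (Submodule.subset_span ⟨Sum.inl c, by
          rw [hR]; rfl⟩)
      have h5 := add_mem (h3 (h1 h1')) h4
      rwa [sub_add_cancel] at h5
    have hind : LinearIndependent K R :=
      linearIndependent_of_top_le_span_of_card_eq_finrank htop.ge (by
        rw [Fintype.card_congr E, Fintype.card_fin, Module.finrank_fin_fun])
    rw [vol_apply]
    have h4 := Matrix.linearIndependent_rows_iff_isUnit
      (A := Matrix.of fun i => R (E.symm i))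
    rw [Matrix.isUnit_iff_isUnit_det, isUnit_iff_ne_zero] at h4
    exact h4.1 ((linearIndependent_equiv E.symm).2 hind)
  have h3 := DB_mul (E := E) (dg := dg) (D := D) (x := x) (i1 := i0) (Q := Q) i0 j l
  rw [h0, mul_zero] at h3
  unfold AB at h3
  exact div_ne_zero h2 (Finset.prod_ne_zero_iff.2 fun c _ => pow_ne_zero _ hi0) h3

end tangent

section places

variable {E} {k : Type} [Field k] [Algebra k K] {F : Fam K n A}
  {D : A → (Fin (n + 1) →₀ ℕ) → Derivation ℤ K K} {e g : Place k K → ℤ}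

/-- The local inequality for the minors. -/
theorem log_DB (hdat : DataL k F dg D e g) (hC : C.card + 2 = n) (hs : ∑ a, dg a = n + 2)
    {x : Fin (n + 1) → K} (hxC : ∀ c ∈ C, eval x (F c) = 0)
    (hxb : ∀ b, b ∉ C → eval x (F b) ≠ 0) (hP : PlOK dg D e F C x) (P : Place k K)
    {Q : Fam K n A} (hQ : Q ∈ CS K n dg) {a : Fin (n + 1)} (ha : x a ≠ 0) (b c : Fin (n + 1)) :
    Ge P (-((n + 1 + Fintype.card A) * (e P + g P)))
      (DB dg D E x a Q a b c / ∏ b ∈ Cᶜ, eval x (F b)) := by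
  classical
  by_cases h0 : DB dg D E x a Q a b c = 0
  · rw [h0, zero_div]
    exact Ge.zero
  have hG0 : ∏ b ∈ Cᶜ, eval x (F b) ≠ 0 :=
    Finset.prod_ne_zero_iff.2 fun b hb => hxb b (Finset.mem_compl.1 hb)
  have hp0 : ∏ c ∈ C, x a ^ dg c ≠ 0 := Finset.prod_ne_zero_iff.2 fun c _ => pow_ne_zero _ ha
  -- a second point
  obtain ⟨y, ik, hik⟩ : ∃ (y : Fin (n + 1) → K) (ik : Fin (n + 1) × Fin (n + 1)),
      pl x y ik ≠ 0 := by
    have hn : 2 ≤ n := by omega
    have : Nontrivial (Fin (n + 1)) := Fin.nontrivial_iff_two_le.2 (by omega)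
    obtain ⟨l, hl⟩ : ∃ l, l ≠ a := exists_ne a
    refine ⟨Pi.single l 1, (a, l), ?_⟩
    simp only [pl, Pi.single_eq_same, mul_one]
    rw [Pi.single_eq_of_ne hl.symm, mul_zero, sub_zero]
    exact ha
  obtain ⟨rd, hrd⟩ : ∃ rd : RD K n A Empty Unit Empty Empty,
      rd = ⟨fun e => e.elim, fun _ => Q, fun _ => b, fun _ => c, fun e => e.elim,
        fun e => e.elim, fun e => e.elim⟩ := ⟨_, rfl⟩
  have hrow : row F dg D C x y a ik rd = rwf (fun c : C => vA D x (Pi.single c.1 (X a ^ dg c.1))) x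
      (vq D x Q (pm x a b)) (vq D x Q (pm x a c)) := by
    rw [hrd]
    funext κ
    rcases κ with c | _ | a | (b | b) | u | t
    · rfl
    · rfl
    · exact a.elim
    · rfl
    · rfl
    · exact u.elim
    · exact t.elim
  have hmul := DB_mul (E := E) (dg := dg) (D := D) (x := x) (i1 := a) (Q := Q) a b c
  have hvl : vol E (row F dg D C x y a ik rd) =
      (x a * DB dg D E x a Q a b c) * ∏ c ∈ C, x a ^ dg c := by
    rw [← hmul, hrow]
    unfold AB
    rw [div_mul_cancel₀ _ hp0]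
  have hdet : vol E (row F dg D C x y a ik rd) ≠ 0 := by
    rw [hvl]
    exact mul_ne_zero (mul_ne_zero ha h0) hp0
  have hm : ∀ j, vq D x Q (pm x a j) ∈ TC F C x := fun j =>
    vq_mem_TC hdat.pos hdat.hom hdat.dual hxC hQ.1 (by
      rw [← Pool.Agent.Y735.eval_lf]; exact Pool.Agent.Y735.eval_pm x a j)
  have hli := li_three (by rw [← hrow]; exact hdet)
  have h1 := local_ineq hdat (C := C) hxC hxb ha hik rd (fun _ _ => by rw [hrd]; exact hQ.1 _)
    (fun b => b.elim) (fun b => b.elim) P (fun _ _ u => by rw [hrd]; exact (hQ.2 _).ge P u)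
    (fun b => b.elim) (fun b => b.elim) (hP P) (fun t => t.elim) (by
      refine (TC_le hdat.hom hdat.dual hC hxC (hm b) (hm c) hli).trans (Submodule.span_mono ?_)
      rw [hrow]
      rintro _ ⟨i, rfl⟩
      fin_cases i
      · exact ⟨Sum.inr none, by simp [rk], rfl⟩
      · exact ⟨pu C, by simp [rk], rfl⟩
      · exact ⟨pv C, by simp [rk], rfl⟩) (by
      simp only [Fintype.card_unit, Fintype.card_empty]
      omega) E hdet
  rw [hvl] at h1
  have h2 : x a * DB dg D E x a Q a b c * ∏ c ∈ C, x a ^ dg c =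
      (∏ c ∈ C, x a ^ dg c) * (x a * DB dg D E x a Q a b c) := by ring
  rw [h2, mul_div_mul_left _ _ hp0, mul_div_assoc, P.ord_mul ha (div_ne_zero h0 hG0), hs] at h1
  simp only [Fintype.card_unit, Fintype.card_empty] at h1
  right
  push_cast at h1 ⊢
  linarith

/-- The local inequality for all the minors. -/
theorem log_DB' (hdat : DataL k F dg D e g) (hC : C.card + 2 = n) (hs : ∑ a, dg a = n + 2)
    {x : Fin (n + 1) → K} (hxC : ∀ c ∈ C, eval x (F c) = 0)
    (hxb : ∀ b, b ∉ C → eval x (F b) ≠ 0) (hP : PlOK dg D e F C x) (P : Place k K)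
    {Q : Fam K n A} (hQ : Q ∈ CS K n dg) {i1 : Fin (n + 1)} (h1 : x i1 ≠ 0)
    (a b c : Fin (n + 1)) :
    Ge P (-((n + 1 + Fintype.card A) * (e P + g P)))
      (DB dg D E x i1 Q a b c / ∏ b ∈ Cᶜ, eval x (F b)) := by
  have key : ∀ {a : Fin (n + 1)}, x a ≠ 0 → ∀ b c, Ge P (-((n + 1 + Fintype.card A) * (e P + g P)))
      (DB dg D E x i1 Q a b c / ∏ b ∈ Cᶜ, eval x (F b)) := by
    intro a ha b c
    rw [DB_indep hdat.pos hdat.hom hdat.dual hC hxC hQ.1 h1 ha ha b c]
    exact log_DB hdat hC hs hxC hxb hP P hQ ha b c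
  by_cases ha : x a = 0
  · by_cases hb : x b = 0
    · by_cases hc : x c = 0
      · have h0 : DB dg D E x i1 Q a b c = 0 := by
          unfold DB
          rw [ha, hb, hc]
          ring
        rw [h0, zero_div]
        exact Ge.zero
      · have h2 := key hc a b
        rw [DB_swap, DB_swap', neg_neg] at h2
        exact h2
    · have h2 := key hb a c
      rw [DB_swap, neg_div] at h2
      have := h2.neg
      rwa [neg_neg] at this
  · exact key ha b c

variable [CharZero k] [IsFF k K] [IsAlgClosed k]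

/-- F5 -/
theorem ratio_DB (hdat : DataL k F dg D e g) (hC : C.card + 2 = n) (hs : ∑ a, dg a = n + 2)
    {x : Fin (n + 1) → K} (hxC : ∀ c ∈ C, eval x (F c) = 0)
    (hxb : ∀ b, b ∉ C → eval x (F b) ≠ 0) (hP : PlOK dg D e F C x) {i1 : Fin (n + 1)}
    (hi1 : x i1 ≠ 0) {Q Q' : Fam K n A} (hQ : Q ∈ CS K n dg) (hQ' : Q' ∈ CS K n dg)
    (a b c a' b' c' : Fin (n + 1)) (hne : DB dg D E x i1 Q' a' b' c' ≠ 0) :
    hgt k (DB dg D E x i1 Q a b c / DB dg D E x i1 Q' a' b' c') ≤ CL n A e g := by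
  have hG0 : ∏ b ∈ Cᶜ, eval x (F b) ≠ 0 :=
    Finset.prod_ne_zero_iff.2 fun b hb => hxb b (Finset.mem_compl.1 hb)
  have hfin : {P : Place k K | ((n : ℤ) + 1 + Fintype.card A) * (e P + g P) ≠ 0}.Finite := by
    refine hdat.fin.subset fun P hP => ?_
    by_contra hcon
    simp only [Set.mem_ofPred_eq, not_or, not_not] at hcon
    apply hP
    rw [hcon.1, hcon.2]
    ring
  have h1 := Pool.Agent.Y735.S.ratio_ht (k := k)
    (C := fun P => ((n : ℤ) + 1 + Fintype.card A) * (e P + g P))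
    (fun P => by
      have h1 := hdat.e_nonneg P
      have h2 := hdat.g_nonneg P
      positivity) hfin
    (fun P => log_DB' (E := E) hdat hC hs hxC hxb hP P hQ hi1 a b c)
    (fun P => log_DB' (E := E) hdat hC hs hxC hxb hP P hQ' hi1 a' b' c')
    (div_ne_zero hne hG0)
  rw [div_div_div_cancel_right₀ hG0] at h1
  exact h1

end places

section maps

theorem vol_map {L M : Type} [Field L] [Field M] (ψ : L →+* M) {ι : Type}
    (e : ι ≃ Fin (n + 1)) (R : ι → Fin (n + 1) → L) :
    vol e (fun i => fun j => ψ (R i j)) = ψ (vol e R) := by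
  rw [vol_apply, vol_apply, RingHom.map_det]
  rfl

/-- F2 -/
theorem DB_map {L M : Type} [Field L] [Field M] {ψ : L →+* M}
    {D : A → (Fin (n + 1) →₀ ℕ) → Derivation ℤ L L}
    {D' : A → (Fin (n + 1) →₀ ℕ) → Derivation ℤ M M} (hc : Cmp ψ D D') (x : Fin (n + 1) → L)
    (i1 : Fin (n + 1)) (Q : Fam L n A) (a b c : Fin (n + 1)) :
    DB dg D' E (fun j => ψ (x j)) i1 (mapF ψ Q) a b c = ψ (DB dg D E x i1 Q a b c) := by
  have hAB : ∀ u v : Fin (n + 1) → L, AB dg D' E (fun j => ψ (x j)) i1 (fun j => ψ (u j))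
      (fun j => ψ (v j)) = ψ (AB dg D E x i1 u v) := by
    intro u v
    unfold AB
    rw [map_div₀, map_prod]
    congr 1
    · rw [← vol_map]
      congr 1
      funext κ
      rcases κ with c | _ | a | (b | b) | u | t
      · have h1 := vA_map hc x (Pi.single c.1 (X i1 ^ dg c.1) : Fam L n A)
        have h2 : mapF ψ (Pi.single c.1 (X i1 ^ dg c.1) : Fam L n A) =
            (Pi.single c.1 (X i1 ^ dg c.1) : Fam M n A) := by
          funext a
          unfold mapF
          by_cases h : a = c.1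
          · subst h
            rw [Pi.single_eq_same, Pi.single_eq_same, map_pow, map_X]
          · rw [Pi.single_eq_of_ne h, Pi.single_eq_of_ne h, map_zero]
        rw [h2] at h1
        exact h1
      · rfl
      · exact a.elim
      · rfl
      · rfl
      · exact u.elim
      · exact t.elim
    · exact Finset.prod_congr rfl fun c _ => (map_pow ψ _ _).symm
  have hw : ∀ j, vq D' (fun j => ψ (x j)) (mapF ψ Q) (Pi.single j 1) =
      fun l => ψ (vq D x Q (Pi.single j 1) l) := by
    intro j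
    rw [← vq_map hc]
    congr 1
    funext l
    by_cases h : l = j
    · subst h
      rw [Pi.single_eq_same, Pi.single_eq_same, map_one]
    · rw [Pi.single_eq_of_ne h, Pi.single_eq_of_ne h, map_zero]
  unfold DB
  rw [hw, hw, hw, hAB, hAB, hAB]
  simp only [map_add, map_sub, map_mul]

end maps

end Pool.Agent.NH27.B
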