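import Pool.Agent.NH27.B.Defs
import Pool.Agent.NH27.Q.NoConic

/-!
No conic on a generic complete intersection meets a generic boundary in at most two points
(dimension count).
-/

set_option autoImplicit false

open MvPolynomial Pool.Agent.TH145.GH Pool.Agent.Y735 Pool.Agent.Y735.S
open Pool.Agent.TH145.GC (Cf finite_cf)
open Pool.Agent.NH27.Q (eval_pe)

namespace Pool.Agent.NH27.B

/-! ### Restrictions of one form -/

/-- The polynomial restriction has coefficients given by linear forms in the coefficients. -/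
theorem coeff_restr {k : Type} [Field k] {n d : ℕ} {F : MvPolynomial (Fin (n + 1)) k}
    (hF : F.IsHomogeneous d) [Fintype {I : Fin (n + 1) →₀ ℕ // I.degree = d}]
    {k0 : Type} [Field k0] [Algebra k0 k] {E : IntermediateField k0 k}
    {e : Fin (n + 1) → Fin 3 → k} {e' : Fin (n + 1) → Fin 3 → E}
    (he' : ∀ l i, (e' l i : k) = e l i) (m : ℕ) :
    ∑ I : {I : Fin (n + 1) →₀ ℕ // I.degree = d}, F.coeff I.1 *
      algebraMap E k ((∏ l, pe e' l ^ I.1 l).coeff m) = (aeval (pe e) F).coeff m := by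
  conv_rhs => rw [sum_all hF, map_sum, Polynomial.finsetSum_coeff]
  refine Finset.sum_congr rfl fun I _ => ?_
  rw [aeval_monomial, Polynomial.algebraMap_eq, Polynomial.coeff_C_mul,
    Finsupp.prod_fintype _ _ (fun i => pow_zero _)]
  have h4 : ∏ l, pe e l ^ I.1 l = (∏ l, pe e' l ^ I.1 l).map (algebraMap E k) := by
    rw [Polynomial.map_prod]
    refine Finset.prod_congr rfl fun l _ => ?_
    rw [Polynomial.map_pow]
    congr 1
    unfold pe
    rw [Polynomial.map_add, Polynomial.map_add, Polynomial.map_mul, Polynomial.map_mul,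
      Polynomial.map_pow, Polynomial.map_X, Polynomial.map_C, Polynomial.map_C,
      Polynomial.map_C, ← he', ← he', ← he']
    rfl
  rw [h4, Polynomial.coeff_map]

/-- The restriction vanishes: all coefficients of the form are determined by few of them. -/
theorem small_zero {k : Type} [Field k] [CharZero k] {n d : ℕ} {F : MvPolynomial (Fin (n + 1)) k}
    (hF : F.IsHomogeneous d) [Fintype {I : Fin (n + 1) →₀ ℕ // I.degree = d}]
    {k0 : Type} [Field k0] [Algebra k0 k] {E : IntermediateField k0 k}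
    {e : Fin (n + 1) → Fin 3 → k} {e' : Fin (n + 1) → Fin 3 → E}
    (he' : ∀ l i, (e' l i : k) = e l i) (he'i : ∀ c : Fin 3 → E, (∀ l, ∑ i, e' l i * c i = 0) → c = 0)
    (hz : ∀ v : k, eval (fun l => e l 0 * v ^ 2 + e l 1 * v + e l 2) F = 0) :
    ∃ T : Finset {I : Fin (n + 1) →₀ ℕ // I.degree = d},
      T.card + (2 * d + 1) = Fintype.card {I : Fin (n + 1) →₀ ℕ // I.degree = d} ∧
      ∀ L : Subfield k, (∀ a : E, algebraMap E k a ∈ L) → (∀ j ∈ T, F.coeff j.1 ∈ L) →
        ∀ j : {I : Fin (n + 1) →₀ ℕ // I.degree = d}, F.coeff j.1 ∈ L := by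
  classical
  refine exists_small _ (conic_span he'i d)
    (fun I : {I : Fin (n + 1) →₀ ℕ // I.degree = d} => F.coeff I.1) ?_
  intro m
  have h1 : aeval (pe e) F = 0 := by
    apply Polynomial.funext
    intro v
    rw [eval_pe, hz, Polynomial.eval_zero]
  have h2 := coeff_restr hF he' (m : ℕ)
  rw [h1, Polynomial.coeff_zero] at h2
  exact h2

/-- The restriction is a monomial: all coefficients of the form are determined by few of them. -/
theorem small_mono {k : Type} [Field k] [CharZero k] {n d : ℕ} {F : MvPolynomial (Fin (n + 1)) k}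
    (hF : F.IsHomogeneous d) [Fintype {I : Fin (n + 1) →₀ ℕ // I.degree = d}]
    {k0 : Type} [Field k0] [Algebra k0 k] {E : IntermediateField k0 k}
    {e : Fin (n + 1) → Fin 3 → k} {e' : Fin (n + 1) → Fin 3 → E}
    (he' : ∀ l i, (e' l i : k) = e l i) (he'i : ∀ c : Fin 3 → E, (∀ l, ∑ i, e' l i * c i = 0) → c = 0)
    (m0 : ℕ) (hm0 : m0 ≤ 2 * d) (c : k)
    (hz : ∀ v : k, eval (fun l => e l 0 * v ^ 2 + e l 1 * v + e l 2) F = c * v ^ m0) :
    ∃ T : Finset {I : Fin (n + 1) →₀ ℕ // I.degree = d},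
      T.card + 2 * d = Fintype.card {I : Fin (n + 1) →₀ ℕ // I.degree = d} ∧
      ∀ L : Subfield k, (∀ a : E, algebraMap E k a ∈ L) → (∀ j ∈ T, F.coeff j.1 ∈ L) →
        ∀ j : {I : Fin (n + 1) →₀ ℕ // I.degree = d}, F.coeff j.1 ∈ L := by
  classical
  obtain ⟨m1, hm1⟩ : ∃ m1 : Fin (2 * d + 1), (m1 : ℕ) = m0 := ⟨⟨m0, by omega⟩, rfl⟩
  have hspan : Submodule.span E (Set.range fun (I : {I : Fin (n + 1) →₀ ℕ // I.degree = d})
      (m : Fin (2 * d)) => (∏ l, pe e' l ^ I.1 l).coeff (m1.succAbove m : Fin (2 * d + 1))) = ⊤ := by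
    have h1 := conic_span he'i d
    have h2 : Set.range (fun (I : {I : Fin (n + 1) →₀ ℕ // I.degree = d})
        (m : Fin (2 * d)) => (∏ l, pe e' l ^ I.1 l).coeff (m1.succAbove m : Fin (2 * d + 1))) =
        (LinearMap.funLeft E E m1.succAbove) '' (Set.range fun
          (I : {I : Fin (n + 1) →₀ ℕ // I.degree = d})
          (j : Fin (2 * d + 1)) => (∏ l, pe e' l ^ I.1 l).coeff j) := by
      rw [← Set.range_comp]
      rfl
    rw [h2, Submodule.span_image, h1, Submodule.map_top, LinearMap.range_eq_top]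
    exact LinearMap.funLeft_surjective_of_injective _ _ _ Fin.succAbove_right_injective
  refine exists_small _ hspan
    (fun I : {I : Fin (n + 1) →₀ ℕ // I.degree = d} => F.coeff I.1) ?_
  intro m
  have h1 : aeval (pe e) F = Polynomial.C c * Polynomial.X ^ (m0 : ℕ) := by
    apply Polynomial.funext
    intro v
    rw [eval_pe, hz]
    simp
  have h2 := coeff_restr hF he' ((m1.succAbove m : Fin (2 * d + 1)) : ℕ)
  rw [h1, Polynomial.coeff_C_mul, Polynomial.coeff_X_pow, if_neg, mul_zero] at h2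
  · exact h2
  · intro h
    refine Fin.succAbove_ne m1 m (Fin.ext ?_)
    rw [h, hm1]

/-! ### The dimension count -/

theorem no_monoB {k0 k A : Type} [Field k0] [Field k] [Algebra k0 k] [CharZero k] [Fintype A]
    [DecidableEq A] {n : ℕ} {dg : A → ℕ} {F : A → MvPolynomial (Fin (n + 1)) k}
    (hF : ∀ a, (F a).IsHomogeneous (dg a))
    (hind : AlgebraicIndependent k0 fun p : Cf n dg => (F p.1).coeff p.2.1) (C : Finset A)
    (hd : 3 * n + 2 ≤ 2 * ∑ a, dg a + C.card) {e : Fin (n + 1) → Fin 3 → k}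
    (hei : ∀ c : Fin 3 → k, (∀ l, ∑ i, e l i * c i = 0) → c = 0)
    (a1 a2 : Fin (n + 1)) (hea1 : e a1 1 = 1) (hea2 : e a2 2 = 1)
    (hz : ∀ b ∈ C, ∀ v : k, eval (fun l => e l 0 * v ^ 2 + e l 1 * v + e l 2) (F b) = 0)
    (hm : ∀ b ∉ C, ∃ m ≤ 2 * dg b, ∃ c : k, ∀ v : k,
      eval (fun l => e l 0 * v ^ 2 + e l 1 * v + e l 2) (F b) = c * v ^ m) : False := by
  classical
  have hfd := fun a => finite_deg n (dg a)
  have : ∀ a, Fintype {I : Fin (n + 1) →₀ ℕ // I.degree = dg a} := fun a => Fintype.ofFinite _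
  -- the field of definition
  obtain ⟨Se, hSe⟩ : ∃ Se : Finset k, Se = (((Finset.univ : Finset (Fin (n + 1) × Fin 3)).erase
    (a1, 1)).erase (a2, 2)).image fun li => e li.1 li.2 := ⟨_, rfl⟩
  have hSecard : Se.card + 2 ≤ 3 * (n + 1) := by
    have h1 : (((Finset.univ : Finset (Fin (n + 1) × Fin 3)).erase (a1, 1)).erase (a2, 2)).card + 2 =
        3 * (n + 1) := by
      rw [Finset.card_erase_of_mem (Finset.mem_erase.2 ⟨by simp, Finset.mem_univ _⟩),
        Finset.card_erase_of_mem (Finset.mem_univ _), Finset.card_univ, Fintype.card_prod,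
        Fintype.card_fin, Fintype.card_fin]
      omega
    rw [← h1, hSe]
    exact add_le_add_left Finset.card_image_le 2
  have heS : ∀ (L : Subfield k), (∀ s ∈ Se, s ∈ L) → ∀ l i, e l i ∈ L := by
    intro L hL l i
    by_cases h1 : (l, i) = (a1, 1)
    · obtain ⟨rfl, rfl⟩ := Prod.mk_inj.1 h1
      rw [hea1]
      exact one_mem _
    · by_cases h2 : (l, i) = (a2, 2)
      · obtain ⟨rfl, rfl⟩ := Prod.mk_inj.1 h2
        rw [hea2]
        exact one_mem _
      · apply hL
        rw [hSe]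
        exact Finset.mem_image.2 ⟨(l, i), Finset.mem_erase.2 ⟨h2, Finset.mem_erase.2
          ⟨h1, Finset.mem_univ _⟩⟩, rfl⟩
  obtain ⟨E, hE⟩ : ∃ E, E = IntermediateField.adjoin k0 (Se : Set k) := ⟨_, rfl⟩
  have heE : ∀ l i, e l i ∈ E := heS E.toSubfield fun s hs => by
    rw [hE]
    exact IntermediateField.subset_adjoin _ _ hs
  obtain ⟨e', he'⟩ : ∃ e' : Fin (n + 1) → Fin 3 → E, ∀ l i, (e' l i : k) = e l i :=
    ⟨fun l i => ⟨e l i, heE l i⟩, fun _ _ => rfl⟩
  have he'i : ∀ c : Fin 3 → E, (∀ l, ∑ i, e' l i * c i = 0) → c = 0 := by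
    intro c hc
    have h1 := hei (fun i => (c i : k)) fun l => by
      have h2 := congrArg (fun z : E => (z : k)) (hc l)
      rw [Fin.sum_univ_three] at h2 ⊢
      rw [← he', ← he', ← he']
      exact h2
    funext i
    exact Subtype.ext (congrFun h1 i)
  -- few coefficients determine the others
  have hT : ∀ b : A, ∃ T : Finset {I : Fin (n + 1) →₀ ℕ // I.degree = dg b},
      T.card + (2 * dg b + if b ∈ C then 1 else 0) =
        Fintype.card {I : Fin (n + 1) →₀ ℕ // I.degree = dg b} ∧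
      ∀ L : Subfield k, (∀ a : E, algebraMap E k a ∈ L) → (∀ j ∈ T, (F b).coeff j.1 ∈ L) →
        ∀ j : {I : Fin (n + 1) →₀ ℕ // I.degree = dg b}, (F b).coeff j.1 ∈ L := by
    intro b
    by_cases hb : b ∈ C
    · rw [if_pos hb]
      exact small_zero (hF b) he' he'i (hz b hb)
    · rw [if_neg hb, add_zero]
      obtain ⟨m, hm0, c, hc⟩ := hm b hb
      exact small_mono (hF b) he' he'i m hm0 c hc
  choose T hT hTL using hT
  obtain ⟨S, hS⟩ : ∃ S : Finset k, S = Se ∪ ((Finset.univ : Finset A).sigma T).image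
    fun p : Cf n dg => (F p.1).coeff p.2.1 := ⟨_, rfl⟩
  have hfin := finite_cf n dg
  have hcard := card_le_adjoin hind S (by
    rintro ⟨b, j⟩
    refine hTL b (IntermediateField.adjoin k0 (S : Set k)).toSubfield (fun z => ?_)
      (fun j hj => ?_) j
    · have h1 : E ≤ IntermediateField.adjoin k0 (S : Set k) := by
        rw [hE]
        apply IntermediateField.adjoin.mono
        rw [hS]
        exact_mod_cast Finset.subset_union_left
      exact h1 z.2
    · refine IntermediateField.subset_adjoin _ _ ?_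
      rw [hS]
      exact_mod_cast Finset.mem_union_right _ (Finset.mem_image_of_mem
        (fun p : Cf n dg => (F p.1).coeff p.2.1)
        (Finset.mem_sigma.2 ⟨Finset.mem_univ b, hj⟩ : (⟨b, j⟩ : Cf n dg) ∈ _)))
  rw [Nat.card_eq_fintype_card, Fintype.card_sigma] at hcard
  have h1 : S.card ≤ Se.card + ∑ b, (T b).card := by
    rw [hS, ← Finset.card_sigma]
    exact (Finset.card_union_le _ _).trans (add_le_add_right Finset.card_image_le _)
  have h2 : ∑ b, (T b).card + (2 * ∑ b, dg b + C.card) =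
      ∑ b, Fintype.card {I : Fin (n + 1) →₀ ℕ // I.degree = dg b} := by
    rw [← Finset.sum_congr rfl fun b _ => hT b, Finset.sum_add_distrib, Finset.sum_add_distrib,
      Finset.mul_sum]
    congr 2
    rw [Finset.sum_ite_mem, Finset.univ_inter, Finset.sum_const, smul_eq_mul, mul_one]
  omega

/-- Scaling: monomial restrictions are impossible. -/
theorem no_monoB' {k0 k A : Type} [Field k0] [Field k] [Algebra k0 k] [CharZero k] [Fintype A]
    [DecidableEq A] {n : ℕ} {dg : A → ℕ} {F : A → MvPolynomial (Fin (n + 1)) k}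
    (hF : ∀ a, (F a).IsHomogeneous (dg a))
    (hind : AlgebraicIndependent k0 fun p : Cf n dg => (F p.1).coeff p.2.1) (C : Finset A)
    (hd : 3 * n + 2 ≤ 2 * ∑ a, dg a + C.card) {e : Fin (n + 1) → Fin 3 → k}
    (hei : ∀ c : Fin 3 → k, (∀ l, ∑ i, e l i * c i = 0) → c = 0)
    (hz : ∀ b ∈ C, ∀ v : k, eval (fun l => e l 0 * v ^ 2 + e l 1 * v + e l 2) (F b) = 0)
    (hm : ∀ b ∉ C, ∃ m ≤ 2 * dg b, ∃ c : k, ∀ v : k,
      eval (fun l => e l 0 * v ^ 2 + e l 1 * v + e l 2) (F b) = c * v ^ m) : False := by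
  obtain ⟨a1, ha1⟩ : ∃ a, e a 1 ≠ 0 := by
    by_contra hcon
    push Not at hcon
    have h1 := hei ![0, 1, 0] fun l => by
      rw [Fin.sum_univ_three]
      change e l 0 * 0 + e l 1 * 1 + e l 2 * 0 = 0
      rw [hcon]
      ring
    exact one_ne_zero (congrFun h1 1)
  obtain ⟨a2, ha2⟩ : ∃ a, e a 2 ≠ 0 := by
    by_contra hcon
    push Not at hcon
    have h1 := hei ![0, 0, 1] fun l => by
      rw [Fin.sum_univ_three]
      change e l 0 * 0 + e l 1 * 0 + e l 2 * 1 = 0
      rw [hcon]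
      ring
    exact one_ne_zero (congrFun h1 2)
  obtain ⟨κ, hκ⟩ : ∃ κ, κ = (e a2 2)⁻¹ := ⟨_, rfl⟩
  obtain ⟨μ, hμ⟩ : ∃ μ, μ = e a2 2 * (e a1 1)⁻¹ := ⟨_, rfl⟩
  have hκ0 : κ ≠ 0 := by rw [hκ]; exact inv_ne_zero ha2
  have hμ0 : μ ≠ 0 := by rw [hμ]; exact mul_ne_zero ha2 (inv_ne_zero ha1)
  obtain ⟨f, hf⟩ : ∃ f : Fin (n + 1) → Fin 3 → k, f = fun l => ![κ * μ ^ 2 * e l 0,
    κ * μ * e l 1, κ * e l 2] := ⟨_, rfl⟩
  have hf0 : ∀ l, f l 0 = κ * μ ^ 2 * e l 0 := fun l => by rw [hf]; rfl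
  have hf1 : ∀ l, f l 1 = κ * μ * e l 1 := fun l => by rw [hf]; rfl
  have hf2 : ∀ l, f l 2 = κ * e l 2 := fun l => by rw [hf]; rfl
  have hfe : ∀ v : k, (fun l => f l 0 * v ^ 2 + f l 1 * v + f l 2) =
      κ • fun l => e l 0 * (μ * v) ^ 2 + e l 1 * (μ * v) + e l 2 := by
    intro v
    funext l
    rw [hf0, hf1, hf2, Pi.smul_apply, smul_eq_mul]
    ring
  refine no_monoB (k0 := k0) hF hind C hd (e := f) ?_ a1 a2 ?_ ?_ ?_ ?_
  · intro c hc
    have h1 := hei ![μ ^ 2 * c 0, μ * c 1, c 2] fun l => by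
      rw [Fin.sum_univ_three]
      change e l 0 * (μ ^ 2 * c 0) + e l 1 * (μ * c 1) + e l 2 * c 2 = 0
      have h2 := hc l
      rw [Fin.sum_univ_three, hf0, hf1, hf2] at h2
      have h3 : κ * (e l 0 * (μ ^ 2 * c 0) + e l 1 * (μ * c 1) + e l 2 * c 2) = 0 := by
        rw [← h2]
        ring
      exact (mul_eq_zero.1 h3).resolve_left hκ0
    have e0 : μ ^ 2 * c 0 = 0 := congrFun h1 0
    have e1 : μ * c 1 = 0 := congrFun h1 1
    have e2 : c 2 = 0 := congrFun h1 2
    funext i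
    fin_cases i
    · exact (mul_eq_zero.1 e0).resolve_left (pow_ne_zero 2 hμ0)
    · exact (mul_eq_zero.1 e1).resolve_left hμ0
    · exact e2
  · rw [hf1, hκ, hμ]
    field_simp
  · rw [hf2, hκ]
    exact inv_mul_cancel₀ ha2
  · intro b hb v
    rw [hfe, eval_smul_hom (hF b), hz b hb, mul_zero]
  · intro b hb
    obtain ⟨m, hm0, c, hc⟩ := hm b hb
    refine ⟨m, hm0, κ ^ dg b * c * μ ^ m, fun v => ?_⟩
    rw [hfe, eval_smul_hom (hF b), hc, mul_pow]
    ring

/-! ### Divisors of products of two linear factors -/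

theorem prod_two {K : Type} [Field K] (a b : K) (s : Multiset K) (h : ∀ r ∈ s, r = a ∨ r = b) :
    ∃ i j : ℕ, i + j = s.card ∧ (s.map fun r => Polynomial.X - Polynomial.C r).prod =
      (Polynomial.X - Polynomial.C a) ^ i * (Polynomial.X - Polynomial.C b) ^ j := by
  induction s using Multiset.induction_on with
  | empty => exact ⟨0, 0, by simp, by simp⟩
  | cons r s ih =>
    obtain ⟨i, j, h1, h2⟩ := ih fun r' hr' => h r' (Multiset.mem_cons_of_mem hr')
    rw [Multiset.map_cons, Multiset.prod_cons, h2, Multiset.card_cons]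
    rcases h r (Multiset.mem_cons_self r s) with rfl | rfl
    · exact ⟨i + 1, j, by omega, by ring⟩
    · exact ⟨i, j + 1, by omega, by ring⟩

theorem dvd_two {K : Type} [Field K] [IsAlgClosed K] {a b c : K} (hc : c ≠ 0) {i j : ℕ}
    {P : Polynomial K} (h : P ∣ Polynomial.C c * (Polynomial.X - Polynomial.C a) ^ i *
      (Polynomial.X - Polynomial.C b) ^ j) :
    ∃ (i' j' : ℕ) (c' : K), i' + j' = P.natDegree ∧
      P = Polynomial.C c' * (Polynomial.X - Polynomial.C a) ^ i' *
        (Polynomial.X - Polynomial.C b) ^ j' := by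
  have hne : Polynomial.C c * (Polynomial.X - Polynomial.C a) ^ i *
      (Polynomial.X - Polynomial.C b) ^ j ≠ 0 :=
    mul_ne_zero (mul_ne_zero (Polynomial.C_ne_zero.2 hc) (pow_ne_zero _ (Polynomial.X_sub_C_ne_zero a)))
      (pow_ne_zero _ (Polynomial.X_sub_C_ne_zero b))
  have hs := IsAlgClosed.splits P
  obtain ⟨i', j', h1, h2⟩ := prod_two a b P.roots (by
    intro r hr
    have h3 : P.eval r = 0 := (Polynomial.mem_roots'.1 hr).2
    obtain ⟨Q, hQ⟩ := h
    have h4 := congrArg (Polynomial.eval r) hQ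
    rw [Polynomial.eval_mul (p := P), h3, zero_mul] at h4
    simp only [Polynomial.eval_mul, Polynomial.eval_C, Polynomial.eval_pow, Polynomial.eval_sub,
      Polynomial.eval_X] at h4
    rcases mul_eq_zero.1 h4 with h5 | h5
    · left
      rcases mul_eq_zero.1 h5 with h6 | h6
      · exact absurd h6 hc
      · exact sub_eq_zero.1 (eq_zero_of_pow_eq_zero h6)
    · right
      exact sub_eq_zero.1 (eq_zero_of_pow_eq_zero h5))
  refine ⟨i', j', P.leadingCoeff, ?_, ?_⟩
  · rw [h1]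
    exact hs.natDegree_eq_card_roots.symm
  · conv_lhs => rw [hs.eq_prod_roots]
    rw [h2, mul_assoc]

/-- The degree of the restriction. -/
theorem natDegree_restr {K : Type} [Field K] {n d : ℕ} {F : MvPolynomial (Fin (n + 1)) K}
    (hF : F.IsHomogeneous d) (ψ : Fin (n + 1) → Fin 3 → K) :
    (aeval (pe ψ) F).natDegree ≤ 2 * d := by
  classical
  have hfd := finite_deg n d
  have : Fintype {I : Fin (n + 1) →₀ ℕ // I.degree = d} := Fintype.ofFinite _
  rw [sum_all hF, map_sum]
  refine Polynomial.natDegree_sum_le_of_forall_le _ _ fun I _ => ?_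
  rw [aeval_monomial, Polynomial.algebraMap_eq, Finsupp.prod_fintype _ _ (fun i => pow_zero _)]
  refine (Polynomial.natDegree_C_mul_le _ _).trans ?_
  refine (Polynomial.natDegree_prod_le _ _).trans ?_
  have h1 : ∀ l ∈ (Finset.univ : Finset (Fin (n + 1))), (pe ψ l ^ I.1 l).natDegree ≤ 2 * I.1 l := by
    intro l _
    refine (Polynomial.natDegree_pow_le).trans ?_
    rw [mul_comm]
    refine Nat.mul_le_mul_right _ ?_
    unfold pe
    compute_degree
  refine (Finset.sum_le_sum h1).trans ?_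
  have h2 : ∑ l, I.1 l = d := by
    rw [← Finsupp.degree_eq_sum]
    exact I.2
  rw [← Finset.mul_sum, h2]

theorem noCG_of_generic {k0 K A : Type} [Field k0] [Field K] [Algebra k0 K] [IsAlgClosed K]
    [CharZero K] [Fintype A] [DecidableEq A] {n : ℕ} {dg : A → ℕ}
    {F : A → MvPolynomial (Fin (n + 1)) K} (hF : ∀ a, (F a).IsHomogeneous (dg a))
    (hind : AlgebraicIndependent k0 fun p : Cf n dg => (F p.1).coeff p.2.1) (C : Finset A)
    (hd : 3 * n + 2 ≤ 2 * ∑ a, dg a + C.card) :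
    NoCG F C (∏ b ∈ Cᶜ, F b) (∑ b ∈ Cᶜ, dg b) := by
  intro ψ hψ hψC c a b i j hc hij h
  -- the single factors
  have hb : ∀ l ∉ C, ∃ (i' j' : ℕ) (c' : K), i' + j' = 2 * dg l ∧
      aeval (pe ψ) (F l) = Polynomial.C c' * (Polynomial.X - Polynomial.C a) ^ i' *
        (Polynomial.X - Polynomial.C b) ^ j' := by
    have hprod : ∏ l ∈ Cᶜ, aeval (pe ψ) (F l) = Polynomial.C c *
        (Polynomial.X - Polynomial.C a) ^ i * (Polynomial.X - Polynomial.C b) ^ j := by
      rw [← h, map_prod]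
    have hne : Polynomial.C c * (Polynomial.X - Polynomial.C a) ^ i *
        (Polynomial.X - Polynomial.C b) ^ j ≠ 0 :=
      mul_ne_zero (mul_ne_zero (Polynomial.C_ne_zero.2 hc)
        (pow_ne_zero _ (Polynomial.X_sub_C_ne_zero a)))
        (pow_ne_zero _ (Polynomial.X_sub_C_ne_zero b))
    have hdegs : ∑ l ∈ Cᶜ, (aeval (pe ψ) (F l)).natDegree = ∑ l ∈ Cᶜ, 2 * dg l := by
      rw [← Polynomial.natDegree_prod, hprod, Polynomial.natDegree_mul, Polynomial.natDegree_C_mul hc,
        Polynomial.natDegree_pow, Polynomial.natDegree_pow, Polynomial.natDegree_X_sub_C,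
        Polynomial.natDegree_X_sub_C, ← Finset.mul_sum, ← hij]
      · ring
      · exact mul_ne_zero (Polynomial.C_ne_zero.2 hc)
          (pow_ne_zero _ (Polynomial.X_sub_C_ne_zero a))
      · exact pow_ne_zero _ (Polynomial.X_sub_C_ne_zero b)
      · intro l hl h0
        apply hne
        rw [← hprod]
        exact Finset.prod_eq_zero hl h0
    have hdeg : ∀ l ∈ Cᶜ, (aeval (pe ψ) (F l)).natDegree = 2 * dg l := by
      have h1 := (Finset.sum_eq_sum_iff_of_le (s := Cᶜ) fun l _ =>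
        natDegree_restr (hF l) ψ).1 hdegs
      exact h1
    intro l hl
    have hl' : l ∈ Cᶜ := Finset.mem_compl.2 hl
    obtain ⟨i', j', c', h1, h2⟩ := dvd_two (P := aeval (pe ψ) (F l)) (a := a) (b := b) hc
      (i := i) (j := j) (by rw [← hprod]; exact Finset.dvd_prod_of_mem _ hl')
    exact ⟨i', j', c', by rw [h1, hdeg l hl'], h2⟩
  have hev : ∀ l ∉ C, ∃ (i' j' : ℕ) (c' : K), i' + j' = 2 * dg l ∧
      ∀ v : K, eval (fun x => ψ x 0 * v ^ 2 + ψ x 1 * v + ψ x 2) (F l) =
      c' * (v - a) ^ i' * (v - b) ^ j' := by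
    intro l hl
    obtain ⟨i', j', c', h1, h2⟩ := hb l hl
    refine ⟨i', j', c', h1, fun v => ?_⟩
    rw [← eval_pe, h2]
    simp
  have hev0 : ∀ l ∈ C, ∀ v : K, eval (fun x => ψ x 0 * v ^ 2 + ψ x 1 * v + ψ x 2) (F l) = 0 := by
    intro l hl v
    rw [← eval_pe, hψC l hl, Polynomial.eval_zero]
  by_cases hab : a = b
  · subst hab
    obtain ⟨e, he⟩ : ∃ e : Fin (n + 1) → Fin 3 → K, e = fun l => ![ψ l 0,
      ψ l 1 + 2 * a * ψ l 0, ψ l 2 + a * ψ l 1 + a ^ 2 * ψ l 0] := ⟨_, rfl⟩
    have he0 : ∀ l, e l 0 = ψ l 0 := fun l => by rw [he]; rfl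
    have he1 : ∀ l, e l 1 = ψ l 1 + 2 * a * ψ l 0 := fun l => by rw [he]; rfl
    have he2 : ∀ l, e l 2 = ψ l 2 + a * ψ l 1 + a ^ 2 * ψ l 0 := fun l => by rw [he]; rfl
    have hee : ∀ v : K, (fun l => e l 0 * v ^ 2 + e l 1 * v + e l 2) =
        fun l => ψ l 0 * (v + a) ^ 2 + ψ l 1 * (v + a) + ψ l 2 := by
      intro v
      funext l
      rw [he0, he1, he2]
      ring
    refine no_monoB' (k0 := k0) hF hind C hd (e := e) ?_ ?_ ?_
    · intro c hc
      have h1 := hψ ![c 0 + 2 * a * c 1 + a ^ 2 * c 2, c 1 + a * c 2, c 2] fun l => by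
        rw [Fin.sum_univ_three]
        change ψ l 0 * (c 0 + 2 * a * c 1 + a ^ 2 * c 2) + ψ l 1 * (c 1 + a * c 2) + ψ l 2 * c 2 = 0
        have h2 := hc l
        rw [Fin.sum_univ_three, he0, he1, he2] at h2
        rw [← h2]
        ring
      have e0 : c 0 + 2 * a * c 1 + a ^ 2 * c 2 = 0 := congrFun h1 0
      have e1 : c 1 + a * c 2 = 0 := congrFun h1 1
      have e2 : c 2 = 0 := congrFun h1 2
      rw [e2, mul_zero, add_zero] at e1
      rw [e2, e1, mul_zero, mul_zero, add_zero, add_zero] at e0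
      funext i
      fin_cases i
      · exact e0
      · exact e1
      · exact e2
    · intro l hl v
      rw [hee, hev0 l hl]
    · intro l hl
      obtain ⟨i', j', c', h1, h2⟩ := hev l hl
      refine ⟨2 * dg l, le_rfl, c', fun v => ?_⟩
      rw [hee, h2, add_sub_cancel_right, mul_assoc, ← pow_add, h1]
  · have hba : b - a ≠ 0 := sub_ne_zero.2 (Ne.symm hab)
    -- `s = b s' + a t'`, `t = s' + t'`
    obtain ⟨e, he⟩ : ∃ e : Fin (n + 1) → Fin 3 → K, e = fun l => ![
      b ^ 2 * ψ l 0 + b * ψ l 1 + ψ l 2,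
      2 * a * b * ψ l 0 + (a + b) * ψ l 1 + 2 * ψ l 2,
      a ^ 2 * ψ l 0 + a * ψ l 1 + ψ l 2] := ⟨_, rfl⟩
    have he0 : ∀ l, e l 0 = b ^ 2 * ψ l 0 + b * ψ l 1 + ψ l 2 := fun l => by rw [he]; rfl
    have he1 : ∀ l, e l 1 = 2 * a * b * ψ l 0 + (a + b) * ψ l 1 + 2 * ψ l 2 := fun l => by
      rw [he]; rfl
    have he2 : ∀ l, e l 2 = a ^ 2 * ψ l 0 + a * ψ l 1 + ψ l 2 := fun l => by rw [he]; rfl
    have hee : ∀ v : K, v + 1 ≠ 0 → (fun l => e l 0 * v ^ 2 + e l 1 * v + e l 2) =
        ((v + 1) ^ 2) • fun l => ψ l 0 * ((b * v + a) / (v + 1)) ^ 2 +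
          ψ l 1 * ((b * v + a) / (v + 1)) + ψ l 2 := by
      intro v hv1
      funext l
      rw [he0, he1, he2, Pi.smul_apply, smul_eq_mul]
      field_simp
      ring
    have hinf : {v : K | v + 1 ≠ 0}.Infinite := by
      refine (Set.Finite.infinite_compl (Set.finite_singleton (-1 : K))).mono ?_
      intro v hv h0
      apply hv
      rw [Set.mem_singleton_iff]
      linear_combination h0
    refine no_monoB' (k0 := k0) hF hind C hd (e := e) ?_ ?_ ?_
    · intro c hc
      have h1 := hψ ![b ^ 2 * c 0 + 2 * a * b * c 1 + a ^ 2 * c 2,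
        b * c 0 + (a + b) * c 1 + a * c 2, c 0 + 2 * c 1 + c 2] fun l => by
        rw [Fin.sum_univ_three]
        change ψ l 0 * (b ^ 2 * c 0 + 2 * a * b * c 1 + a ^ 2 * c 2) +
          ψ l 1 * (b * c 0 + (a + b) * c 1 + a * c 2) + ψ l 2 * (c 0 + 2 * c 1 + c 2) = 0
        have h2 := hc l
        rw [Fin.sum_univ_three, he0, he1, he2] at h2
        rw [← h2]
        ring
      have e0 : b ^ 2 * c 0 + 2 * a * b * c 1 + a ^ 2 * c 2 = 0 := congrFun h1 0
      have e1 : b * c 0 + (a + b) * c 1 + a * c 2 = 0 := congrFun h1 1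
      have e2 : c 0 + 2 * c 1 + c 2 = 0 := congrFun h1 2
      have g0 : (b - a) ^ 2 * c 0 = 0 := by
        linear_combination e0 - 2 * a * e1 + a ^ 2 * e2
      have g2 : (b - a) ^ 2 * c 2 = 0 := by
        linear_combination e0 - 2 * b * e1 + b ^ 2 * e2
      have c0 : c 0 = 0 := (mul_eq_zero.1 g0).resolve_left (pow_ne_zero 2 hba)
      have c2 : c 2 = 0 := (mul_eq_zero.1 g2).resolve_left (pow_ne_zero 2 hba)
      have c1 : c 1 = 0 := by
        rw [c0, c2, zero_add, add_zero] at e2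
        exact (mul_eq_zero.1 e2).resolve_left two_ne_zero
      funext i
      fin_cases i
      · exact c0
      · exact c1
      · exact c2
    · intro l hl v
      have hpoly : aeval (pe e) (F l) = 0 := by
        apply Polynomial.eq_of_infinite_eval_eq
        refine hinf.mono fun v hv => ?_
        change (aeval (pe e) (F l)).eval v = _
        rw [eval_pe, hee v hv, eval_smul_hom (hF l), hev0 l hl, mul_zero, Polynomial.eval_zero]
      rw [← eval_pe, hpoly, Polynomial.eval_zero]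
    · intro l hl
      obtain ⟨i', j', c', h1, h2⟩ := hev l hl
      refine ⟨i', by omega, c' * (b - a) ^ i' * (a - b) ^ j', fun v => ?_⟩
      -- polynomial identity, proved away from `v = -1`
      have hpoly : aeval (pe e) (F l) = Polynomial.C (c' * (b - a) ^ i' * (a - b) ^ j') *
          Polynomial.X ^ i' := by
        apply Polynomial.eq_of_infinite_eval_eq
        refine hinf.mono fun v hv1 => ?_
        change (aeval (pe e) (F l)).eval v = _
        rw [eval_pe, hee v hv1, eval_smul_hom (hF l), h2]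
        have hv2 : v + 1 ≠ 0 := hv1
        have h3 : (b * v + a) / (v + 1) - a = (b - a) * v / (v + 1) := by
          field_simp
          ring
        have h4 : (b * v + a) / (v + 1) - b = (a - b) / (v + 1) := by
          field_simp
          ring
        rw [h3, h4, div_pow, div_pow]
        have h5 : (v + 1) ^ i' * (v + 1) ^ j' = ((v + 1) ^ 2) ^ dg l := by
          rw [← pow_add, h1, ← pow_mul]
        have h6 : (v + 1) ^ i' ≠ 0 := pow_ne_zero _ hv2
        have h7 : (v + 1) ^ j' ≠ 0 := pow_ne_zero _ hv2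
        rw [← h5]
        simp only [Polynomial.eval_mul, Polynomial.eval_C, Polynomial.eval_pow, Polynomial.eval_X]
        rw [mul_pow]
        field_simp
      rw [← eval_pe, hpoly]
      simp

end Pool.Agent.NH27.B
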