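import Pool.Agent.NH27.B.Quad
import Pool.Agent.NH27.B.Minors
import Pool.Agent.NH27.B.ConicMB
import Pool.Agent.NH27.B.NoConicB
import Pool.Agent.NH27.Q.Ultra4
import Pool.Agent.NH27.Q.FinQ

/-!
The heights of the remaining points are bounded.
-/

set_option autoImplicit false

open MvPolynomial FF Pool.Agent.W603.LV Pool.Agent.W603.PV Pool.Agent.W602.RG Pool.Agent.TH145.GH
  Pool.Agent.TH145.MF
open Pool.Agent.Y735 (lf pm pl vec fht fht_nonneg)
open Pool.Agent.Y735.S (OnLn pe)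
open Pool.Agent.NH27.Q (mo sum_mo exists_reps ev_ne ev_ge fht_le conic_pts exists_sym ff_quad
  sing_or_inv Inv3 mo_mk)
open Pool.Agent.Y741
open Pool.Agent.TH145.MW (hgt_neg hgt_mul_le hgt_add_le)

namespace Pool.Agent.NH27.B

/-- The points on a conic over a smaller field. -/
theorem conic_desc {E M : Type} [Field E] [Field M] [Algebra E M] [CharZero E]
    (hE : ∀ z : M, IsAlgebraic E z → ∃ e : E, algebraMap E M e = z)
    (hC1 : ∀ q : Fin 3 → Fin 3 → E, ∃ w : Fin 3 → E, w ≠ 0 ∧ ∑ i, ∑ j, q i j * w i * w j = 0)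
    {e : Fin 6 → E} (he : e ≠ 0) {z : Fin 3 → M} (hz : ∑ i, algebraMap E M (e i) * mo z i = 0) :
    OnLn E z ∨ ∃ (s t c : M) (ψ ψ' : Fin 3 → Fin 3 → E), Inv3 ψ' ψ ∧ ∀ l, z l =
      c * (algebraMap E M (ψ l 0) * s ^ 2 + algebraMap E M (ψ l 1) * (s * t) +
        algebraMap E M (ψ l 2) * t ^ 2) := by
  obtain ⟨q, hq1, hq2, hq3⟩ := exists_sym he
  obtain ⟨w, hw, hqw⟩ := hC1 q
  rcases conic_pts hE hq1 hq2 hw hqw (z := z) (by rw [hq3, hz]) with h4 | ⟨s, t, c, ψ, h4⟩
  · exact Or.inl h4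
  · rcases sing_or_inv ψ with ⟨ν, hν, h1⟩ | ⟨ψ', hψ, -⟩
    · left
      refine ⟨ν, hν, ?_⟩
      have h3 : ∀ i, ∑ l, algebraMap E M (ν l) * algebraMap E M (ψ l i) = 0 := by
        intro i
        rw [← map_zero (algebraMap E M), ← h1 i, map_sum]
        exact Finset.sum_congr rfl fun l _ => (map_mul _ _ _).symm
      have h5 : ∑ l, algebraMap E M (ν l) * z l = c * ((∑ l, algebraMap E M (ν l) *
          algebraMap E M (ψ l 0)) * s ^ 2 + (∑ l, algebraMap E M (ν l) *
          algebraMap E M (ψ l 1)) * (s * t) + (∑ l, algebraMap E M (ν l) *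
          algebraMap E M (ψ l 2)) * t ^ 2) := by
        rw [Finset.sum_mul, Finset.sum_mul, Finset.sum_mul, ← Finset.sum_add_distrib,
          ← Finset.sum_add_distrib, Finset.mul_sum]
        refine Finset.sum_congr rfl fun l _ => ?_
        rw [h4]
        ring
      rw [h5, h3, h3, h3]
      ring
    · exact Or.inr ⟨s, t, c, ψ, ψ', hψ, h4⟩

section line

variable {κ L : Type} [Field κ] [Field L] [Algebra κ L] [CharZero κ] [IsFF κ L] [IsAlgClosed κ]
  {n : ℕ}

/-- A line of bounded height through the point. -/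
theorem line_bd {v w x : Fin (n + 1) → L} {a b : L} (hx0 : x ≠ 0) (hx : x = a • v + b • w)
    {ik : Fin (n + 1) × Fin (n + 1)} (hvw : pl v w ik ≠ 0) {H : ℤ} (hv : ∀ l, hgt κ (v l) ≤ H)
    (hw : ∀ l, hgt κ (w l) ≤ H) :
    ∃ y : Fin (n + 1) → L, pl x y ik ≠ 0 ∧ fht κ (pl x y) ≤ ((n + 1) * (n + 1) : ℕ) * (8 * H) := by
  have hq : ∀ q, hgt κ (pl v w q) ≤ 4 * H := by
    intro q
    unfold pl
    rw [sub_eq_add_neg]
    refine (hgt_add_le (k := κ) _ _).trans ?_
    rw [hgt_neg]
    have h1 := (hgt_mul_le (k := κ) (v q.1) (w q.2)).trans (add_le_add (hv _) (hw _))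
    have h2 := (hgt_mul_le (k := κ) (v q.2) (w q.1)).trans (add_le_add (hv _) (hw _))
    linarith
  have hr : ∀ q, hgt κ (pl v w q / pl v w ik) ≤ 8 * H := by
    intro q
    rw [div_eq_mul_inv]
    refine (hgt_mul_le (k := κ) _ _).trans ?_
    rw [hgt_inv]
    have := hq q
    have := hq ik
    linarith
  have key : ∀ (y : Fin (n + 1) → L) (r : L), r ≠ 0 → (∀ q, pl x y q = r * pl v w q) →
      pl x y ik ≠ 0 ∧ fht κ (pl x y) ≤ ((n + 1) * (n + 1) : ℕ) * (8 * H) := by
    intro y r hr0 hy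
    have h0 : pl x y ik ≠ 0 := by
      rw [hy]
      exact mul_ne_zero hr0 hvw
    refine ⟨h0, (fht_le (κ := κ) (pl x y) h0).trans ?_⟩
    have h1 : ∀ q, hgt κ (pl x y q / pl x y ik) ≤ 8 * H := by
      intro q
      rw [hy, hy, mul_div_mul_left _ _ hr0]
      exact hr q
    refine (Finset.sum_le_sum fun q _ => h1 q).trans ?_
    rw [Finset.sum_const, Finset.card_univ, Fintype.card_prod, Fintype.card_fin, nsmul_eq_mul]
  by_cases ha : a = 0
  · by_cases hb : b = 0
    · exfalso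
      apply hx0
      rw [hx, ha, hb, zero_smul, zero_smul, add_zero]
    · refine ⟨v, key v (-b) (neg_ne_zero.2 hb) fun q => ?_⟩
      rw [hx]
      unfold pl
      simp only [Pi.add_apply, Pi.smul_apply, smul_eq_mul]
      ring
  · refine ⟨w, key w a ha fun q => ?_⟩
    rw [hx]
    unfold pl
    simp only [Pi.add_apply, Pi.smul_apply, smul_eq_mul]
    ring

/-- The integral points on a line of bounded height. -/
theorem line_all {A Ω : Type} [Field Ω] [Algebra L Ω] [IsAlgClosed Ω] [Fintype A] [DecidableEq A]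
    {dg : A → ℕ} {C : Finset A} {F : Fam L n A}
    {D : A → (Fin (n + 1) →₀ ℕ) → Derivation ℤ L L} {e g : Place κ L → ℤ}
    (hdat : DataL κ F dg D e g) {Sg : Set (Place κ L)} (hSg : Sg.Finite) (H : ℤ) :
    ∃ B : ℤ, ∀ (x y : Fin (n + 1) → L) (ik : Fin (n + 1) × Fin (n + 1)), pl x y ik ≠ 0 →
      fht κ (pl x y) ≤ H → (∀ c ∈ C, eval x (F c) = 0) → (∀ b, b ∉ C → eval x (F b) ≠ 0) →
      (∀ P, P ∉ Sg → ∀ b, b ∉ C → P.ord (eval x (F b)) ≤ dg b * pord P x) →
      (OnL F C x y → ¬ Pun 2 (mapF (algebraMap L Ω) F) C (fun j => algebraMap L Ω (x j))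
        (fun j => algebraMap L Ω (y j))) → pht κ x ≤ B := by
  obtain ⟨B1, hB1⟩ := lineM n A dg C κ L Ω F hdat.hom Sg hSg H
  refine ⟨max B1 ((∑ a, dg a : ℕ) * H + ∑ᶠ P, g P), fun x y ik hik hH hxC hxb hint hpun => ?_⟩
  by_cases hz : OnL F C x y
  · exact (hB1 x y ik hik hH hxb hint (hpun hz)).trans (le_max_left _ _)
  · unfold OnL at hz
    push Not at hz
    obtain ⟨c, hc, a, b, hab⟩ := hz
    have h8 := hdat.line_ht (hxC c hc) hik hab
    have hp0 : pl x y ≠ 0 := fun h0 => hik (by rw [h0]; rfl)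
    have h3 : 0 ≤ fht κ (pl x y) := fht_nonneg hp0
    have h9 : (dg c : ℤ) * fht κ (pl x y) ≤ dg c * H :=
      mul_le_mul_of_nonneg_left hH (by positivity)
    have h10 : (dg c : ℤ) ≤ ((∑ a, dg a : ℕ) : ℤ) := by
      exact_mod_cast Finset.single_le_sum (f := dg) (fun _ _ => Nat.zero_le _)
        (Finset.mem_univ c)
    have h11 : (dg c : ℤ) * H ≤ ((∑ a, dg a : ℕ) : ℤ) * H :=
      mul_le_mul_of_nonneg_right h10 (h3.trans hH)
    refine le_trans ?_ (le_max_right _ _)
    linarith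

end line

/-- G -/
theorem bounded5 {n : ℕ} {A : Type} [Fintype A] [DecidableEq A] {dg : A → ℕ} {C : Finset A}
    (h2 : Bd2 n dg C) : Bnd5 n A dg C := by
  intro κ L Ω _ _ _ _ _ _ _ _ _ F D e g hdat hgen Sg hSg
  classical
  by_contra hcon
  push Not at hcon
  choose x hxC hxb hPl hint hR hline hl using fun m : ℕ => hcon (m : ℤ)
  have hczL : CharZero L := charZero_of_injective_algebraMap (algebraMap κ L).injective
  have hczΩ : CharZero Ω := charZero_of_injective_algebraMap (algebraMap L Ω).injective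
  have hczOm : CharZero (Om L) :=
    charZero_of_injective_algebraMap (algebraMap L (Om L)).injective
  have hx0 : ∀ m, x m ≠ 0 := by
    intro m h0
    obtain ⟨b, hb⟩ := h2.bdry
    apply hxb m b hb
    have h1 := eval_smul_hom (hdat.hom b) (x m) (0 : L)
    rw [zero_smul, ← h0, zero_pow (hdat.pos b).ne', zero_mul] at h1
    exact h1
  have hs : ∑ a, dg a = n + 2 := h2.sum
  -- the planes
  obtain ⟨E⟩ := exists_E h2.card
  choose Q hQ ι hι hDB using fun m => exists_DB_ne (E := E) hdat.pos hdat.hom hdat.dual h2.card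
    (hxC m) (hR m)
  obtain ⟨p, hp⟩ : ∃ p : ℕ → Fin 3 → Fin (n + 1) → L, ∀ m, p m =
    pB dg D E (x m) (ι m 0) (Q m) (ι m) := ⟨_, fun _ => rfl⟩
  have he : ∀ m, Ech (ι m) (p m) (x m) := fun m => by
    rw [hp]
    exact ech_DB (hDB m)
  obtain ⟨H0, hH0⟩ : ∃ H0 : ℤ, H0 = CL n A e g := ⟨_, rfl⟩
  have hpH : ∀ m i l, hgt κ (p m i l) ≤ H0 := fun m i l => by
    rw [hp, hH0]
    exact ratio_DB (E := E) hdat h2.card hs (hxC m) (hxb m) (hPl m) (hι m) (hQ m) (hQ m) _ _ _
      _ _ _ (hDB m)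
  have hxp : ∀ m, x m = ∑ i, x m (ι m i) • p m i := fun m => by
    funext l
    rw [(he m).eq l, Finset.sum_apply]
    rfl
  -- the quadratic forms
  have hline' : ∀ m (y : Fin (n + 1) → L) (ik : Fin (n + 1) × Fin (n + 1)), pl (x m) y ik ≠ 0 →
      OnL F C (x m) y → ¬ Pun 2 F C (x m) y := fun m y ik hik h1 h3 =>
    hline m y ik hik h1 (pun_map _ h3)
  choose c hc hc2 hce using fun m => exists_quad h2 hdat.pos hdat.hom hgen (hxb m) (hx0 m) (he m)
    (hline' m)
  choose Be hBe using fun a => eB_ht (κ := κ) (F a) H0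
  obtain ⟨H3, hH3⟩ : ∃ H3 : ℤ, ∀ a, Be a ≤ H3 := by
    obtain ⟨B, hB⟩ := (Set.finite_range Be).bddAbove
    exact ⟨B, fun a => hB ⟨a, rfl⟩⟩
  have hrel : ∀ m, ∑ i, eB (F (c m)) (p m) i * mo (fun k => x m (ι m k)) i = 0 := fun m => by
    have hFc : (F (c m)).IsHomogeneous 2 := by
      have := hdat.hom (c m)
      rwa [hc2 m] at this
    rw [← eval_plane hFc, ← hxp m]
    exact hxC m _ (hc m)
  obtain ⟨ee, hee⟩ : ∃ ee : Fin 6 → EE κ L, ∀ i, ((ee i : EE κ L) : Om L) =
      Om.mk fun m => eB (F (c m)) (p m) i :=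
    ⟨fun i => ⟨Om.mk fun m => eB (F (c m)) (p m) i, Pool.Agent.TH145.MG.mem_of_bdd (k := κ)
      (B := H3) (Filter.Eventually.of_forall fun m => (hBe (c m) (p m) (hpH m) i).trans
        (hH3 _))⟩, fun _ => rfl⟩
  have hee0 : ee ≠ 0 := by
    intro h0
    have h1 : ∀ i, ∀ᶠ m in (Filter.hyperfilter ℕ : Filter ℕ), eB (F (c m)) (p m) i = 0 := by
      intro i
      have h3 : (Om.mk fun m => eB (F (c m)) (p m) i) = Om.mk fun _ => 0 := by
        rw [← hee, h0]
        rfl
      exact Om.mk_eq.1 h3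
    obtain ⟨m, hm⟩ := (Filter.eventually_all.2 h1).exists
    exact hce m (funext hm)
  obtain ⟨t, ht⟩ : ∃ t : Fin 3 → Om L, t = fun k => Om.mk fun m => x m (ι m k) := ⟨_, rfl⟩
  have hrel' : ∑ i, algebraMap (EE κ L) (Om L) (ee i) * mo t i = 0 := by
    have h4 : ∀ i, algebraMap (EE κ L) (Om L) (ee i) * mo t i =
        mkHom L (fun m => eB (F (c m)) (p m) i * mo (fun k => x m (ι m k)) i) := by
      intro i
      have h5 : algebraMap (EE κ L) (Om L) (ee i) = Om.mk fun m => eB (F (c m)) (p m) i := hee i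
      rw [h5, ht, mo_mk, Om.mk_mul, mkHom_apply]
    rw [Finset.sum_congr rfl fun i _ => h4 i, ← map_sum, mkHom_apply, ← Om.mk_zero]
    congr 1
    funext m
    rw [Finset.sum_apply]
    exact hrel m
  -- the fields
  have hBC : BC κ L (Om κ) (EE κ L) := Pool.Agent.W736.RG.main κ L
  have hAC : IsAlgClosed (Om κ) := Pool.Agent.W917.RG.GAC.main κ
  have hCZ : CharZero (Om κ) :=
    charZero_of_injective_algebraMap (algebraMap κ (Om κ)).injective
  have hcE : CharZero (EE κ L) := charZero_of_injective_algebraMap (algebraMap κ (EE κ L)).injective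
  have hFF' : IsFF (Om κ) (EE κ L) := Pool.Agent.W215.RG.ISF.main κ L _ _ hBC
  have hdesc := conic_desc (E := EE κ L) (M := Om L)
    (fun z hz => ⟨⟨z, Pool.Agent.TH145.MG.mem_of_isAlgebraic hz⟩, rfl⟩)
    (fun q => ff_quad (k := Om κ) q) hee0 hrel'
  rcases hdesc with ⟨ν, hν, hsum⟩ | ⟨s, t', c', ψ, ψ', hinv, hzz⟩
  · -- a line
    obtain ⟨u, H, hu, huH⟩ := exists_reps ν
    obtain ⟨l0, hl0⟩ := Function.ne_iff.1 hν
    have h1 : Om.mk (u l0) ≠ 0 := by
      rw [← hu]
      intro h0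
      exact hl0 (Subtype.ext h0)
    have h3 : ∀ᶠ m in (Filter.hyperfilter ℕ : Filter ℕ), ∑ l, u l m * x m (ι m l) = 0 := by
      have h3 : ∀ l, algebraMap (EE κ L) (Om L) (ν l) = Om.mk (u l) := hu
      rw [Fin.sum_univ_three, h3, h3, h3, ht, Om.mk_mul, Om.mk_mul, Om.mk_mul, Om.mk_add,
        Om.mk_add] at hsum
      filter_upwards [Om.mk_eq.1 (hsum.trans Om.mk_zero.symm)] with m hm
      rw [Fin.sum_univ_three]
      exact hm
    obtain ⟨B, hB⟩ := line_all (C := C) (Ω := Ω) hdat hSg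
      (((n + 1) * (n + 1) : ℕ) * (8 * (H0 + (2 * H + H0))))
    obtain ⟨m, hm1, hm2, hm3, hm4⟩ := (huH.and ((ev_ne h1).and (h3.and (ev_ge B)))).exists
    have hvec : ∀ l1, ∀ l, hgt κ ((p m l1 - (u l1 m / u l0 m) • p m l0) l) ≤
        H0 + (2 * H + H0) := by
      intro l1 l
      rw [Pi.sub_apply, Pi.smul_apply, smul_eq_mul, sub_eq_add_neg]
      refine (hgt_add_le (k := κ) _ _).trans (add_le_add (hpH m l1 l) ?_)
      rw [hgt_neg]
      refine (hgt_mul_le (k := κ) _ _).trans (add_le_add ?_ (hpH m l0 l))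
      rw [div_eq_mul_inv]
      refine (hgt_mul_le (k := κ) _ _).trans ?_
      rw [hgt_inv]
      have := hm1 l1
      have := hm1 l0
      linarith
    have key : ∀ l1 l2 : Fin 3, l1 ≠ l0 → l2 ≠ l0 → l1 ≠ l2 →
        (∑ l, u l m * x m (ι m l) = u l0 m * x m (ι m l0) + u l1 m * x m (ι m l1) +
          u l2 m * x m (ι m l2)) → (∑ i, x m (ι m i) • p m i = x m (ι m l0) • p m l0 +
          x m (ι m l1) • p m l1 + x m (ι m l2) • p m l2) → False := by
      intro l1 l2 h10 h20 h12 hs1 hs2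
      rw [hs1] at hm3
      have h4 : x m = x m (ι m l1) • (p m l1 - (u l1 m / u l0 m) • p m l0) +
          x m (ι m l2) • (p m l2 - (u l2 m / u l0 m) • p m l0) := by
        have h5 : x m (ι m l0) = -(x m (ι m l1) * (u l1 m / u l0 m)) -
            x m (ι m l2) * (u l2 m / u l0 m) := by
          field_simp
          linear_combination hm3
        conv_lhs => rw [hxp m, hs2, h5]
        rw [smul_sub, smul_sub, smul_smul, smul_smul, sub_smul, neg_smul]
        abel
      obtain ⟨y, hik, hy⟩ := line_bd (κ := κ) (hx0 m) h4 (ik := (ι m l1, ι m l2)) (by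
        change (p m l1 - (u l1 m / u l0 m) • p m l0) (ι m l1) *
          (p m l2 - (u l2 m / u l0 m) • p m l0) (ι m l2) -
          (p m l1 - (u l1 m / u l0 m) • p m l0) (ι m l2) *
          (p m l2 - (u l2 m / u l0 m) • p m l0) (ι m l1) ≠ 0
        simp only [Pi.sub_apply, Pi.smul_apply, (he m).ech, smul_eq_mul, if_true, if_neg h12,
          if_neg h12.symm, if_neg h10.symm, if_neg h20.symm]
        norm_num) (hvec l1) (hvec l2)
      have h5 := hB (x m) y _ hik hy (hxC m) (hxb m) (hint m) (hline m y _ hik)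
      have h6 := hl m
      linarith
    have h01 : (0 : Fin 3) ≠ 1 := by decide
    have h02 : (0 : Fin 3) ≠ 2 := by decide
    have h12 : (1 : Fin 3) ≠ 2 := by decide
    fin_cases l0
    · exact key 1 2 h01.symm h02.symm h12 (Fin.sum_univ_three _) (Fin.sum_univ_three _)
    · refine key 0 2 h01 h12.symm h02 ?_ ?_
      · rw [Fin.sum_univ_three]
        change _ = u 1 m * x m (ι m 1) + _ + _
        ring
      · rw [Fin.sum_univ_three]
        change _ = x m (ι m 1) • p m 1 + _ + _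
        abel
    · refine key 0 1 h02 h12 h01 ?_ ?_
      · rw [Fin.sum_univ_three]
        change _ = u 2 m * x m (ι m 2) + _ + _
        ring
      · rw [Fin.sum_univ_three]
        change _ = x m (ι m 2) • p m 2 + _ + _
        abel
  · -- a conic
    obtain ⟨u, H, hu, huH⟩ := exists_reps (fun p : Fin 3 × Fin 3 => ψ p.1 p.2)
    obtain ⟨u', H', hu', huH'⟩ := exists_reps (fun p : Fin 3 × Fin 3 => ψ' p.1 p.2)
    obtain ⟨s, rfl⟩ := Om.mk_surj s
    obtain ⟨t', rfl⟩ := Om.mk_surj t'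
    obtain ⟨c', rfl⟩ := Om.mk_surj c'
    obtain ⟨G, hG⟩ : ∃ G : MvPolynomial (Fin (n + 1)) L, G = ∏ b ∈ Cᶜ, F b := ⟨_, rfl⟩
    have hGh : G.IsHomogeneous (∑ b ∈ Cᶜ, dg b) := by
      rw [hG]
      exact IsHomogeneous.prod _ _ _ fun b _ => hdat.hom b
    have hNoC : NoCG (fun a => map (algebraMap L Ω) (F a)) C (map (algebraMap L Ω) G)
        (∑ b ∈ Cᶜ, dg b) := by
      rw [hG, map_prod]
      refine noCG_of_generic (k0 := ℚ) (fun a => (hdat.hom a).map _) ?_ C ?_
      · exact (hgen.map (algebraMap L Ω)).rat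
      · have := h2.card
        rw [hs]
        omega
    have hGx : ∀ m, eval (x m) G = ∏ b ∈ Cᶜ, eval (x m) (F b) := fun m => by
      rw [hG, map_prod]
    obtain ⟨HH, hHH⟩ : ∃ HH : ℤ, HH = max (3 * (H0 + H)) (3 * max H' 0) := ⟨_, rfl⟩
    obtain ⟨B, hB⟩ := conicMB (κ := κ) (Ω := Ω) hdat.hom hGh hNoC hSg HH
    have h1 : ∀ i j, ∀ᶠ m in (Filter.hyperfilter ℕ : Filter ℕ),
        ∑ l, u' (i, l) m * u (l, j) m = if i = j then 1 else 0 := by
      intro i j
      have h2 := congrArg (EE κ L).subtype (hinv i j)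
      rw [Fin.sum_univ_three, map_add, map_add, map_mul, map_mul, map_mul] at h2
      simp only [Subfield.subtype_apply] at h2
      rw [hu (0, j), hu (1, j), hu (2, j), hu' (i, 0), hu' (i, 1), hu' (i, 2), Om.mk_mul,
        Om.mk_mul, Om.mk_mul, Om.mk_add, Om.mk_add] at h2
      have h3 : (((if i = j then (1 : EE κ L) else 0) : EE κ L) : Om L) =
          Om.mk fun _ => if i = j then 1 else 0 := by
        split_ifs <;> rfl
      rw [h3] at h2
      filter_upwards [Om.mk_eq.1 h2] with m hm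
      rw [Fin.sum_univ_three]
      exact hm
    have h3 : ∀ k, ∀ᶠ m in (Filter.hyperfilter ℕ : Filter ℕ), x m (ι m k) =
        c' m * (u (k, 0) m * s m ^ 2 + u (k, 1) m * (s m * t' m) + u (k, 2) m * t' m ^ 2) := by
      intro l
      have h3 := hzz l
      have h4 : ∀ j, algebraMap (EE κ L) (Om L) (ψ l j) = Om.mk (u (l, j)) := fun j => hu (l, j)
      rw [h4, h4, h4, ht, pow_two, pow_two] at h3
      simp only [Om.mk_mul, Om.mk_add] at h3
      filter_upwards [Om.mk_eq.1 h3] with m hm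
      rw [hm]
      ring
    obtain ⟨m, hm1, hm2, hm3, hm4, hm5⟩ := (huH.and (huH'.and ((Filter.eventually_all.2 fun i =>
      Filter.eventually_all.2 fun j => h1 i j).and
        ((Filter.eventually_all.2 h3).and (ev_ge B))))).exists
    obtain ⟨Ψ, hΨ⟩ : ∃ Ψ : Fin (n + 1) → Fin 3 → L, ∀ l j, Ψ l j = ∑ k, p m k l * u (k, j) m :=
      ⟨_, fun _ _ => rfl⟩
    obtain ⟨Ψ', hΨ'⟩ : ∃ Ψ' : Fin 3 → Fin (n + 1) → L, ∀ i l, Ψ' i l =
      ∑ k, if ι m k = l then u' (i, k) m else 0 := ⟨_, fun _ _ => rfl⟩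
    have hH0' : 0 ≤ H0 := by rw [hH0]; exact hdat.CL_nonneg
    have h5 := hB Ψ Ψ' (fun l j => by
        rw [hΨ, Fin.sum_univ_three, hHH]
        refine le_trans ?_ (le_max_left _ _)
        have h6 : ∀ k, hgt κ (p m k l * u (k, j) m) ≤ H0 + H := fun k =>
          (hgt_mul_le (k := κ) _ _).trans (add_le_add (hpH m k l) (hm1 (k, j)))
        refine (hgt_add_le (k := κ) _ _).trans ?_
        have h7 := hgt_add_le (k := κ) (p m 0 l * u (0, j) m) (p m 1 l * u (1, j) m)
        have := h6 0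
        have := h6 1
        have := h6 2
        linarith)
      (fun i l => by
        rw [hΨ', Fin.sum_univ_three, hHH]
        refine le_trans ?_ (le_max_right _ _)
        have h6 : ∀ k, hgt κ (if ι m k = l then u' (i, k) m else 0) ≤ max H' 0 := by
          intro k
          split_ifs
          · exact (hm2 (i, k)).trans (le_max_left _ _)
          · rw [hgt_zero]
            exact le_max_right _ _
        refine (hgt_add_le (k := κ) _ _).trans ?_
        have h7 := hgt_add_le (k := κ) (if ι m 0 = l then u' (i, 0) m else 0)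
          (if ι m 1 = l then u' (i, 1) m else 0)
        have := h6 0
        have := h6 1
        have := h6 2
        linarith)
      (fun i j => by
        have h6 : ∀ l, Ψ' i l * Ψ l j = ∑ k, if ι m k = l then u' (i, k) m * Ψ l j else 0 := by
          intro l
          rw [hΨ', Finset.sum_mul]
          exact Finset.sum_congr rfl fun k _ => by rw [ite_mul, zero_mul]
        rw [Finset.sum_congr rfl fun l _ => h6 l, Finset.sum_comm]
        have h7 : ∀ k, ∑ l, (if ι m k = l then u' (i, k) m * Ψ l j else 0) =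
            u' (i, k) m * u (k, j) m := by
          intro k
          rw [Finset.sum_ite_eq, if_pos (Finset.mem_univ _), hΨ]
          congr 1
          rw [Finset.sum_eq_single k]
          · rw [(he m).ech, if_pos rfl, one_mul]
          · intro k' _ hk'
            rw [(he m).ech, if_neg hk', zero_mul]
          · intro h; exact absurd (Finset.mem_univ k) h
        rw [Finset.sum_congr rfl fun k _ => h7 k]
        exact hm3 i j)
      (c' m) (s m) (t' m) (x m) (fun l => by
        rw [(he m).eq l, Fin.sum_univ_three, hm4 0, hm4 1, hm4 2, hΨ, hΨ, hΨ, Fin.sum_univ_three,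
          Fin.sum_univ_three, Fin.sum_univ_three]
        ring) (hxC m) (by
        rw [hGx]
        exact Finset.prod_ne_zero_iff.2 fun b hb => hxb m b (Finset.mem_compl.1 hb))
      (fun P hP => by
        rw [hGx, TH145.GC.ord_prod P Cᶜ _ (fun b hb => hxb m b (Finset.mem_compl.1 hb)),
          Nat.cast_sum, Finset.sum_mul]
        exact Finset.sum_le_sum fun b hb => hint m P hP b (Finset.mem_compl.1 hb))
    have h6 := hl m
    linarith

end Pool.Agent.NH27.B
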