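import Pool.Agent.NH27.Q.DescQ
import Pool.Agent.Y735.S.GenF
import Pool.Agent.Y741.LineH
import Pool.Agent.Y741.SetupV
import Pool.Agent.Y741.UnitLine

/-!
Generic surfaces with a boundary of the smallest possible degree, and with a quadric among the
equations: definitions.
-/

set_option autoImplicit false

open MvPolynomial Pool.Agent.TH145.GH
open Pool.Agent.TH145.GC (Cf)
open Pool.Agent.Y735.S (pe)

namespace Pool.Agent.NH27.B

/-- The point of the parametrised conic. -/
def cvn {K : Type} [Field K] {n : ℕ} (ψ : Fin (n + 1) → Fin 3 → K) (s t : K) : Fin (n + 1) → K :=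
  fun l => ψ l 0 * s ^ 2 + ψ l 1 * (s * t) + ψ l 2 * t ^ 2

/-- The parametrised curve is a smooth conic. -/
def Inj {K : Type} [Field K] {n : ℕ} (ψ : Fin (n + 1) → Fin 3 → K) : Prop :=
  ∀ c : Fin 3 → K, (∀ l, ∑ i, ψ l i * c i = 0) → c = 0

/-- No smooth conic contained in `F c = 0` for `c ∈ C` (and not in `G = 0`) meets the hypersurface
`G = 0` of degree `β` in at most two points. -/
def NoCG {K A : Type} [Field K] {n : ℕ} (F : A → MvPolynomial (Fin (n + 1)) K) (C : Finset A)
    (G : MvPolynomial (Fin (n + 1)) K) (β : ℕ) : Prop :=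
  ∀ ψ : Fin (n + 1) → Fin 3 → K, Inj ψ → (∀ c ∈ C, aeval (pe ψ) (F c) = 0) →
    ∀ (c a b : K) (i j : ℕ), c ≠ 0 → i + j = 2 * β →
      aeval (pe ψ) G ≠ Polynomial.C c * (Polynomial.X - Polynomial.C a) ^ i *
        (Polynomial.X - Polynomial.C b) ^ j

/-- Surfaces with a boundary, of the smallest possible degrees, with a quadric among the
equations. -/
structure Bd2 {A : Type} [Fintype A] (n : ℕ) (dg : A → ℕ) (C : Finset A) : Prop where
  card : C.card + 2 = n
  sum : ∑ a, dg a = n + 2
  two : ∀ c ∈ C, 2 ≤ dg c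
  quad : ∃ c ∈ C, dg c = 2
  bdry : ∃ b, b ∉ C

/-- The coefficients of all the forms together are algebraically independent. -/
def GenA {L A : Type} [Field L] {n : ℕ} (dg : A → ℕ) (F : A → MvPolynomial (Fin (n + 1)) L) :
    Prop :=
  AlgebraicIndependent ℤ fun p : Cf n dg => (F p.1).coeff p.2.1

theorem GenA.map {L M A : Type} [Field L] [Field M] (φ : L →+* M) {n : ℕ} {dg : A → ℕ}
    {F : A → MvPolynomial (Fin (n + 1)) L} (h : GenA dg F) :
    GenA dg fun a => MvPolynomial.map φ (F a) := by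
  have h1 := AlgebraicIndependent.map' h (f := φ.toIntAlgHom) φ.injective
  have h2 : (φ.toIntAlgHom ∘ fun p : Cf n dg => (F p.1).coeff p.2.1) =
      fun p : Cf n dg => (MvPolynomial.map φ (F p.1)).coeff p.2.1 := by
    funext p
    rw [coeff_map]
    rfl
  rw [h2] at h1
  exact h1

theorem GenA.of_map {L M A : Type} [Field L] [Field M] (φ : L →+* M) {n : ℕ} {dg : A → ℕ}
    {F : A → MvPolynomial (Fin (n + 1)) L}
    (h : GenA dg fun a => MvPolynomial.map φ (F a)) : GenA dg F := by
  refine AlgebraicIndependent.of_comp φ.toIntAlgHom ?_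
  have h2 : (φ.toIntAlgHom ∘ fun p : Cf n dg => (F p.1).coeff p.2.1) =
      fun p : Cf n dg => (MvPolynomial.map φ (F p.1)).coeff p.2.1 := by
    funext p
    rw [coeff_map]
    rfl
  rw [h2]
  exact h

theorem GenA.of_base {k0 L A : Type} [Field k0] [Field L] [Algebra k0 L] [CharZero L] {n : ℕ}
    {dg : A → ℕ} {F : A → MvPolynomial (Fin (n + 1)) L}
    (h : AlgebraicIndependent k0 fun p : Cf n dg => (F p.1).coeff p.2.1) : GenA dg F := by
  have hcz : CharZero k0 := by
    constructor
    intro a b hab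
    have h1 := congrArg (algebraMap k0 L) hab
    rw [map_natCast, map_natCast] at h1
    exact_mod_cast h1
  exact AlgebraicIndependent.restrictScalars (K := k0)
    (by
      intro a b hab
      rw [eq_intCast, eq_intCast] at hab
      exact_mod_cast hab) h

theorem GenA.rat {L A : Type} [Field L] [CharZero L] {n : ℕ} {dg : A → ℕ}
    {F : A → MvPolynomial (Fin (n + 1)) L} (h : GenA dg F) :
    AlgebraicIndependent ℚ fun p : Cf n dg => (F p.1).coeff p.2.1 := by
  have : Algebra.IsAlgebraic ℤ ℚ := IsLocalization.isAlgebraic ℚ (nonZeroDivisors ℤ)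
  exact AlgebraicIndependent.extendScalars (R := ℤ) (A := L) ℚ h

/-- The points lie on finitely many planes (subspaces of dimension at most three). -/
def FewP {K : Type} [Field K] {N : ℕ} (S : Set (Fin N → K)) : Prop :=
  ∃ 𝓦 : Set (Submodule K (Fin N → K)), 𝓦.Finite ∧ (∀ W ∈ 𝓦, Module.finrank K W ≤ 3) ∧
    ∀ x ∈ S, ∃ W ∈ 𝓦, x ∈ W

/-- The point `x` is the combination, with the coefficients `x (ι i)`, of three vectors `p i` with
`p i (ι j) = 1` for `i = j` and `0` otherwise: a plane in echelon form. -/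
structure Ech {K : Type} [Field K] {n : ℕ} (ι : Fin 3 → Fin (n + 1)) (p : Fin 3 → Fin (n + 1) → K)
    (x : Fin (n + 1) → K) : Prop where
  ech : ∀ i j, p i (ι j) = if i = j then 1 else 0
  eq : ∀ l, x l = ∑ i, x (ι i) * p i l

/-- The remaining case: two vectors given by the same family of forms of degree `d - 1` are
independent modulo the point. -/
def Rest5 {K A : Type} [Field K] [Fintype A] {n : ℕ} (dg : A → ℕ)
    (D : A → (Fin (n + 1) →₀ ℕ) → Derivation ℤ K K) (x : Fin (n + 1) → K) : Prop :=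
  ∃ Q ∈ Pool.Agent.Y741.CS K n dg, ∃ i0 j l : Fin (n + 1), x i0 ≠ 0 ∧
    LinearIndependent K ![x, Pool.Agent.Y741.vq D x Q (Pool.Agent.Y735.pm x i0 j),
      Pool.Agent.Y741.vq D x Q (Pool.Agent.Y735.pm x i0 l)]

end Pool.Agent.NH27.B
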