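import Pool.Agent.Y741.ExcG
import Pool.Agent.Y741.NoExc
import Pool.Agent.Y741.MainV
import Pool.Agent.Y741.SetupV

/-!
Finitely many exceptional lines (helper2): the generic pairs with `2 n ≤ ∑ d + card C`.

For any three coordinates `l, i, j` there is a form `H ≠ 0` in three variables which vanishes on the
projections of all the exceptional lines (`exists_H_type`); so for a line in echelon form with respect
to `i`, `j` the linear form `u_l S + w_l T` is a root of `H`, and there are finitely many of them.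
-/

set_option autoImplicit false

open MvPolynomial FF Pool.Agent.W603.LV Pool.Agent.W603.PV Pool.Agent.W602.RG Pool.Agent.TH145.GH
open Pool.Agent.TH145.GC (Gen Rt Cf finite_cf exists_big indep_scale)
open Pool.Agent.Y735 (rho eval_rho rho_X pl fht rho_deg Two card_le_adjoin coeff_rho_mem H_descend)
open Pool.Agent.Y741
open LinearAlgebra.Projectivization

namespace Pool.Agent.NH27.B

/-- The points on the lines of one type, for any coordinates (copy of
`Pool.Agent.Y741.exists_H_type`, which is the case of the first coordinates). -/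
theorem exists_H_type_v {k K : Type} [Field k] [Field K] [Algebra k K] [Infinite K] {n N : ℕ}
    {A : Type} [Fintype A] [DecidableEq A] {dg : A → ℕ}
    {F : Fam K n A} (hF : ∀ a, (F a).IsHomogeneous (dg a)) {C : Finset A}
    (v : Fin N → Fin (n + 1)) (hd : 2 * n + 3 ≤ N + (∑ a, dg a + C.card))
    (hind : AlgebraicIndependent k fun p : Cf n dg => (F p.1).coeff p.2.1)
    (i j : Fin (n + 1)) (m0 m1 : A → ℕ) :
    ∃ H : MvPolynomial (Fin N) K, H ≠ 0 ∧ ∀ (x y : Fin (n + 1) → K) (e : A → K) (t0 t1 : K),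
      pl x y (i, j) ≠ 0 → ExcD F C x y e m0 m1 t0 t1 →
      eval (fun l => x (v l)) H = 0 := by
  classical
  by_contra hcon
  push Not at hcon
  obtain ⟨V, hV⟩ : ∃ V : Type, V = ((Fin (n + 1) ⊕ Fin (n + 1)) ⊕ (A ⊕ Bool)) := ⟨_, rfl⟩
  obtain ⟨vx, vy, ve, vt, hvev, hvxi⟩ : ∃ (vx vy : Fin (n + 1) → V) (ve : A → V) (vt : Bool → V),
      (∀ (Z : Type) (x y : Fin (n + 1) → Z) (e : A → Z) (t : Bool → Z), ∃ g : V → Z,
        (∀ l, g (vx l) = x l) ∧ (∀ l, g (vy l) = y l) ∧ (∀ b, g (ve b) = e b) ∧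
          ∀ b, g (vt b) = t b) ∧ Function.Injective vx := by
    subst hV
    refine ⟨fun l => Sum.inl (Sum.inl l), fun l => Sum.inl (Sum.inr l),
      fun b => Sum.inr (Sum.inl b), fun b => Sum.inr (Sum.inr b), fun Z x y e t =>
        ⟨Sum.elim (Sum.elim x y) (Sum.elim e t), fun _ => rfl, fun _ => rfl, fun _ => rfl,
          fun _ => rfl⟩, fun a b hab => ?_⟩
    exact Sum.inl_injective (Sum.inl_injective hab)
  -- the ideal
  obtain ⟨f, hf⟩ : ∃ f : K → K → A → MvPolynomial V K, ∀ s t a, f s t a =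
      aeval (fun l => MvPolynomial.C s * X (vx l) + MvPolynomial.C t * X (vy l)) (F a) :=
    ⟨_, fun _ _ _ => rfl⟩
  obtain ⟨g, hg⟩ : ∃ g : K → K → A → MvPolynomial V K, ∀ s t a, g s t a =
      X (ve a) * ((MvPolynomial.C s - X (vt false) * MvPolynomial.C t) ^ m0 a *
        (MvPolynomial.C s - X (vt true) * MvPolynomial.C t) ^ m1 a) :=
    ⟨_, fun _ _ _ => rfl⟩
  obtain ⟨p, hp⟩ : ∃ p : MvPolynomial V K, p =
    X (vx i) * X (vy j) - X (vx j) * X (vy i) := ⟨_, rfl⟩
  obtain ⟨ι, hι⟩ : ∃ ι : MvPolynomial (Fin N) K →ₐ[K] MvPolynomial V K,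
      ∀ H, ι H = rename (fun l : Fin N => vx (v l)) H := ⟨rename _, fun _ => rfl⟩
  obtain ⟨I, hI⟩ : ∃ I : Ideal (MvPolynomial V K), I = Ideal.span
    ({q | ∃ s t : K, ∃ c ∈ C, q = f s t c} ∪ {q | ∃ s t : K, ∃ b, b ∉ C ∧
      q = f s t b - g s t b}) := ⟨_, rfl⟩
  obtain ⟨M, hM⟩ : ∃ M : Submonoid (MvPolynomial V K),
    ∀ a, a ∈ M ↔ ∃ (H : MvPolynomial (Fin N) K) (m : ℕ), H ≠ 0 ∧ a = ι H * p ^ m := by
    refine ⟨{ carrier := {a | ∃ (H : MvPolynomial (Fin N) K) (m : ℕ), H ≠ 0 ∧ a = ι H * p ^ m}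
              one_mem' := ⟨1, 0, one_ne_zero, by rw [map_one, pow_zero, mul_one]⟩
              mul_mem' := ?_ }, fun a => Iff.rfl⟩
    rintro a b ⟨H, m, hH, rfl⟩ ⟨H', m', hH', rfl⟩
    refine ⟨H * H', m + m', mul_ne_zero hH hH', ?_⟩
    rw [map_mul, pow_add]
    ring
  have hdis : Disjoint (I : Set (MvPolynomial V K)) M := by
    rw [Set.disjoint_left]
    rintro a haI haM
    obtain ⟨H, m, hH, rfl⟩ := (hM a).1 haM
    obtain ⟨x, y, e, t0, t1, hxy, hD, hxH⟩ := hcon H hH
    obtain ⟨gg, hg1, hg2, hg3, hg4⟩ := hvev K x y e (fun b => if b then t1 else t0)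
    obtain ⟨ev, hev⟩ : ∃ ev : MvPolynomial V K →+* K, ev = eval gg := ⟨_, rfl⟩
    have hevf : ∀ s t a, ev (f s t a) = eval (s • x + t • y) (F a) := by
      intro s t a
      rw [hf, hev, ← coe_aeval_eq_eval, RingHom.coe_coe, ← coe_aeval_eq_eval,
        RingHom.coe_coe, ← AlgHom.comp_apply]
      congr 1
      apply MvPolynomial.algHom_ext
      intro l
      rw [AlgHom.comp_apply, aeval_X, aeval_X, map_add, map_mul, map_mul, aeval_X, aeval_X,
        hg1, hg2]
      simp
    have hevg : ∀ s t a, ev (g s t a) = e a * ((s - t0 * t) ^ m0 a * (s - t1 * t) ^ m1 a) := by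
      intro s t a
      rw [hg, hev]
      simp only [map_mul, map_pow, map_sub, eval_X, eval_C, hg3, hg4, Bool.false_eq_true, if_true,
        if_false]
    have h1 : I ≤ RingHom.ker ev := by
      rw [hI, Ideal.span_le]
      rintro _ (⟨s, t, c, hc, rfl⟩ | ⟨s, t, b, hb, rfl⟩)
      · rw [SetLike.mem_coe, RingHom.mem_ker, hevf]
        exact hD.1 c hc s t
      · rw [SetLike.mem_coe, RingHom.mem_ker, map_sub, hevf, hevg, hD.2 b hb, sub_self]
    have h2 := h1 haI
    rw [RingHom.mem_ker, map_mul, map_pow] at h2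
    rcases mul_eq_zero.1 h2 with h3 | h3
    · apply hxH
      rw [hι, hev, eval_rename] at h3
      have h4 : (gg ∘ fun l : Fin N => vx (v l)) = fun l => x (v l) :=
        funext fun l => hg1 _
      rw [h4] at h3
      exact h3
    · have h5 : ev p = 0 := by
        by_contra hne
        exact pow_ne_zero m hne h3
      rw [hp, hev, map_sub, map_mul, map_mul, eval_X, eval_X, eval_X, eval_X, hg1, hg1, hg2,
        hg2] at h5
      exact hxy h5
  obtain ⟨P, hP, hIP, hPM⟩ := Ideal.exists_le_prime_disjoint I M hdis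
  -- the field
  have hdom : IsDomain (MvPolynomial V K ⧸ P) :=
    (Ideal.Quotient.isDomain_iff_prime P).2 hP
  obtain ⟨Ω, hΩ, hΩA, q, hq0⟩ : ∃ (Ω : Type) (_ : Field Ω) (_ : Algebra K Ω)
      (q : MvPolynomial V K →ₐ[K] Ω), ∀ a, q a = 0 ↔ a ∈ P := by
    have hV' : V = ((Fin (n + 1) ⊕ Fin (n + 1)) ⊕ (A ⊕ Bool)) := hV
    refine ⟨FractionRing (MvPolynomial V K ⧸ P), inferInstance,
      inferInstance, (IsScalarTower.toAlgHom K (MvPolynomial V K ⧸ P)
      (FractionRing (MvPolynomial V K ⧸ P))).comp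
      (Ideal.Quotient.mkₐ K P), fun a => ?_⟩
    change algebraMap (MvPolynomial V K ⧸ P)
      (FractionRing (MvPolynomial V K ⧸ P))
      (Ideal.Quotient.mk P a) = 0 ↔ a ∈ P
    rw [← Ideal.Quotient.eq_zero_iff_mem]
    constructor
    · intro h
      exact (IsFractionRing.injective (MvPolynomial V K ⧸ P)
        (FractionRing (MvPolynomial V K ⧸ P))) (by rw [h, map_zero])
    · intro h
      rw [h, map_zero]
  let _ : Algebra k Ω := ((algebraMap K Ω).comp (algebraMap k K)).toAlgebra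
  have hst : IsScalarTower k K Ω := IsScalarTower.of_algebraMap_eq fun _ => rfl
  have hinjΩ : Function.Injective (algebraMap K Ω) := (algebraMap K Ω).injective
  have hinf : Infinite Ω := Infinite.of_injective _ hinjΩ
  obtain ⟨x, hx⟩ : ∃ x : Fin (n + 1) → Ω, ∀ l, x l = q (X (vx l)) := ⟨_, fun _ => rfl⟩
  obtain ⟨y, hy⟩ : ∃ y : Fin (n + 1) → Ω, ∀ l, y l = q (X (vy l)) := ⟨_, fun _ => rfl⟩
  obtain ⟨e, he⟩ : ∃ e : A → Ω, ∀ l, e l = q (X (ve l)) := ⟨_, fun _ => rfl⟩
  obtain ⟨t, ht⟩ : ∃ t : Bool → Ω, ∀ l, t l = q (X (vt l)) := ⟨_, fun _ => rfl⟩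
  obtain ⟨F', hF'⟩ : ∃ F' : Fam Ω n A, ∀ a, F' a = map (algebraMap K Ω) (F a) :=
    ⟨_, fun _ => rfl⟩
  have hqf : ∀ (s s' : K) (a : A), q (f s s' a) = eval (algebraMap K Ω s • x +
      algebraMap K Ω s' • y) (F' a) := by
    intro s s' a
    rw [hf, hF', eval_map, ← aeval_def, ← AlgHom.comp_apply]
    congr 1
    apply MvPolynomial.algHom_ext
    intro l
    rw [AlgHom.comp_apply, aeval_X, aeval_X, map_add, map_mul, map_mul, ← hx, ← hy,
      Pi.add_apply, Pi.smul_apply, Pi.smul_apply, smul_eq_mul, smul_eq_mul]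
    congr 2
    · exact q.commutes s
    · exact q.commutes s'
  have hqC : ∀ s : K, q (MvPolynomial.C s) = algebraMap K Ω s := fun s => q.commutes s
  have hqg : ∀ (s s' : K) (a : A), q (g s s' a) = e a *
      ((algebraMap K Ω s - t false * algebraMap K Ω s') ^ m0 a *
        (algebraMap K Ω s - t true * algebraMap K Ω s') ^ m1 a) := by
    intro s s' a
    rw [hg]
    simp only [map_mul, map_pow, map_sub, hqC, ← he, ← ht]
  have hFh : ∀ a, (F' a).IsHomogeneous (dg a) := fun a => by rw [hF']; exact (hF a).map _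
  have hevC : ∀ (s s' : K), ∀ c ∈ C, eval (algebraMap K Ω s • x + algebraMap K Ω s' • y)
      (F' c) = 0 := by
    intro s s' c hc
    rw [← hqf]
    refine (hq0 _).2 (hIP ?_)
    rw [hI]
    exact Ideal.subset_span (Or.inl ⟨s, s', c, hc, rfl⟩)
  have hevB : ∀ (s s' : K), ∀ b, b ∉ C → eval (algebraMap K Ω s • x + algebraMap K Ω s' • y)
      (F' b) = e b * ((algebraMap K Ω s - t false * algebraMap K Ω s') ^ m0 b *
        (algebraMap K Ω s - t true * algebraMap K Ω s') ^ m1 b) := by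
    intro s s' b hb
    rw [← hqf, ← hqg]
    have h1 : q (f s s' b - g s s' b) = 0 := by
      refine (hq0 _).2 (hIP ?_)
      rw [hI]
      exact Ideal.subset_span (Or.inr ⟨s, s', b, hb, rfl⟩)
    rw [map_sub] at h1
    exact sub_eq_zero.1 h1
  -- two polynomials in two variables that agree over the small field are equal
  have hext : ∀ (Q1 Q2 : MvPolynomial (Fin 2) Ω), (∀ s s' : K, eval ![algebraMap K Ω s,
      algebraMap K Ω s'] Q1 = eval ![algebraMap K Ω s, algebraMap K Ω s'] Q2) → Q1 = Q2 := by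
    intro Q1 Q2 h
    refine MvPolynomial.funext_set (fun _ => Set.range (algebraMap K Ω))
      (fun _ => Set.infinite_range_of_injective hinjΩ) ?_
    intro z hz
    obtain ⟨s, hs⟩ := hz 0 (Set.mem_univ _)
    obtain ⟨s', hs'⟩ := hz 1 (Set.mem_univ _)
    have h1 : z = ![algebraMap K Ω s, algebraMap K Ω s'] := by
      funext l
      fin_cases l
      · exact hs.symm
      · exact hs'.symm
    rw [h1]
    exact h s s'
  obtain ⟨Q, hQ⟩ : ∃ Q : A → MvPolynomial (Fin 2) Ω, ∀ a s s', eval ![s, s'] (Q a) =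
      eval (s • x + s' • y) (F' a) := by
    refine ⟨fun a => aeval (fun l => X 0 * MvPolynomial.C (x l) + X 1 * MvPolynomial.C (y l))
      (F' a), fun a s s' => ?_⟩
    rw [← coe_aeval_eq_eval, RingHom.coe_coe, ← coe_aeval_eq_eval, RingHom.coe_coe,
      ← AlgHom.comp_apply]
    congr 1
    apply MvPolynomial.algHom_ext
    intro l
    rw [AlgHom.comp_apply, aeval_X, aeval_X, map_add, map_mul, map_mul, aeval_X, aeval_X]
    simp
  have hD : ExcD F' C x y e m0 m1 (t false) (t true) := by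
    refine ⟨fun c hc a b => ?_, fun b hb a a' => ?_⟩
    · have h1 : Q c = 0 := hext _ _ fun s s' => by
        rw [hQ, hevC s s' c hc, map_zero]
      rw [← hQ, h1, map_zero]
    · have h1 : Q b = MvPolynomial.C (e b) * ((X 0 - MvPolynomial.C (t false) * X 1) ^ m0 b *
          (X 0 - MvPolynomial.C (t true) * X 1) ^ m1 b) := hext _ _ fun s s' => by
        rw [hQ, hevB s s' b hb]
        simp
      rw [← hQ, h1]
      simp
  have hpl : pl x y (i, j) ≠ 0 := by
    have h1 : pl x y (i, j) = q p := by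
      rw [hp, map_sub, map_mul, map_mul, ← hx, ← hx, ← hy, ← hy]
      rfl
    rw [h1]
    intro h2
    refine Set.disjoint_left.1 hPM ((hq0 _).1 h2) ((hM _).2 ⟨1, 1, one_ne_zero, ?_⟩)
    rw [map_one, pow_one, one_mul]
  have hxind : AlgebraicIndependent K fun l : Fin N => x (v l) := by
    rw [algebraicIndependent_iff_injective_aeval, injective_iff_map_eq_zero]
    intro H hH
    by_contra hne
    have h1 : aeval (fun l : Fin N => x (v l)) H = q (ι H) := by
      rw [hι, ← AlgHom.comp_apply]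
      congr 1
      apply MvPolynomial.algHom_ext
      intro l
      rw [aeval_X, AlgHom.comp_apply, rename_X, hx]
    rw [h1] at hH
    refine Set.disjoint_left.1 hPM ((hq0 _).1 hH) ((hM _).2 ⟨H, 0, hne, ?_⟩)
    rw [pow_zero, mul_one]
  have h1 := line_count' (k := k) hFh hpl e m0 m1 (t false) (t true) hD.1 hD.2
    (fun l : Fin N => v l) (by
    have h2 := hind.sumElim_comp hxind
    convert h2 using 2
    funext I
    rw [hF', coeff_map]
    rfl)
  have h2 := h1.1
  rw [Nat.card_eq_fintype_card, Fintype.card_fin] at h2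
  omega


section fin

variable {k K : Type} [Field k] [Field K] [IsAlgClosed K] [CharZero K] [Algebra k K]
  {n : ℕ} {A : Type} [Fintype A] [DecidableEq A] {d : A → ℕ}

/-- The projections of the exceptional lines to three coordinates lie on a curve. -/
theorem exists_H_excv (C : Finset A) (hd : 2 * n ≤ ∑ a, d a + C.card)
    (F : A → MvPolynomial (Fin (n + 1)) K) (hF : ∀ a, (F a).IsHomogeneous (d a))
    (I0 : A → Fin (n + 1) →₀ ℕ) (h0 : ∀ a, (F a).coeff (I0 a) ≠ 0)
    (hind : AlgebraicIndependent k fun p : Rt d I0 =>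
      (F p.1).coeff p.2.1 / (F p.1).coeff (I0 p.1)) (v : Fin 3 → Fin (n + 1)) :
    ∃ H : MvPolynomial (Fin 3) K, H ≠ 0 ∧
      ∀ W, IsLine F C W → (Pts W ∩ Bd F C).encard ≤ 2 → ∀ x ∈ W, x ≠ 0 →
        (∀ b, b ∉ C → eval x (F b) ≠ 0) → eval (fun l => x (v l)) H = 0 := by
  classical
  have hinf : Infinite K := IsAlgClosed.instInfinite
  obtain ⟨K', _, _, _, _, u, G, hG, hGh, hGi⟩ := exists_scaled F hF I0 h0 hind
  choose H hH hHx using fun (ij : Fin (n + 1) × Fin (n + 1))
    (m : (A → Fin (∑ a, d a + 1)) × (A → Fin (∑ a, d a + 1))) =>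
    exists_H_type_v (k := k) (N := 3) hGh (C := C) v (by omega) hGi
      ij.1 ij.2 (fun a => m.1 a) (fun a => m.2 a)
  obtain ⟨H1, hH1⟩ : ∃ H1, H1 = ∏ ij, ∏ m, H ij m := ⟨_, rfl⟩
  have hH10 : H1 ≠ 0 := by
    rw [hH1]
    exact Finset.prod_ne_zero_iff.2 fun ij _ => Finset.prod_ne_zero_iff.2 fun m _ => hH ij m
  obtain ⟨H2, hH20, hH2⟩ := H_descend' (K := K) hH10
  refine ⟨H2, hH20, fun W hW hB x hx hx0 hxb => ?_⟩
  apply hH2
  obtain ⟨y, i, j, e, m0, m1, t0, t1, hij, hR⟩ := exists_rhoD hF hW hB hx hx0 hxb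
  have h1 := (hR.map (algebraMap K K') hG).excD hGh
  rw [hH1, map_prod]
  refine Finset.prod_eq_zero (Finset.mem_univ (i, j)) ?_
  rw [map_prod]
  refine Finset.prod_eq_zero (Finset.mem_univ (m0, m1)) ?_
  refine hHx (i, j) (m0, m1) (fun l => algebraMap K K' (x l)) (fun l => algebraMap K K' (y l))
    _ _ _ ?_ h1
  rw [pl_map]
  dsimp only
  rwa [Ne, map_eq_zero]

end fin

/-- A curve contains finitely many lines. -/
theorem finite_roots {K : Type} [Field K] [Infinite K] {H : MvPolynomial (Fin 3) K} (hH : H ≠ 0) :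
    {ab : K × K | ∀ s t : K, eval ![ab.1 * s + ab.2 * t, s, t] H = 0}.Finite := by
  classical
  obtain ⟨P, hP⟩ : ∃ P, P = finSuccEquiv K 2 H := ⟨_, rfl⟩
  have hP0 : P ≠ 0 := by
    rw [hP]
    intro h0
    exact hH ((finSuccEquiv K 2).injective (by rw [h0, map_zero]))
  have h1 : {q : MvPolynomial (Fin 2) K | P.IsRoot q}.Finite := Polynomial.finite_setOfPred_isRoot hP0
  refine Set.Finite.subset (h1.preimage (f := fun ab : K × K =>
    (MvPolynomial.C ab.1 * X 0 + MvPolynomial.C ab.2 * X 1 : MvPolynomial (Fin 2) K)) ?_) ?_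
  · rintro ⟨a, b⟩ _ ⟨a', b'⟩ _ h
    have e1 := congrArg (fun q => eval ![(1 : K), 0] q) h
    have e2 := congrArg (fun q => eval ![(0 : K), 1] q) h
    simp only [map_add, map_mul, eval_C, eval_X, Matrix.cons_val_zero, Matrix.cons_val_one,
      mul_one, mul_zero, add_zero, zero_add] at e1 e2
    rw [e1, e2]
  · rintro ⟨a, b⟩ hab
    have hab' : ∀ s t : K, eval ![a * s + b * t, s, t] H = 0 := hab
    show P.IsRoot (MvPolynomial.C a * X 0 + MvPolynomial.C b * X 1)
    rw [Polynomial.IsRoot.def]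
    refine MvPolynomial.funext fun z => ?_
    rw [map_zero]
    have h2 := hab' (z 0) (z 1)
    have h3 : (![a * z 0 + b * z 1, z 0, z 1] : Fin 3 → K) =
        Fin.cons (a * z 0 + b * z 1) z := by
      funext l
      refine Fin.cases rfl (fun l => ?_) l
      rw [Fin.cons_succ]
      fin_cases l <;> rfl
    rw [h3, eval_eq_eval_mv_eval', ← hP] at h2
    rw [← h2, Polynomial.eval_map]
    have h4 : eval z (Polynomial.eval (MvPolynomial.C a * X 0 + MvPolynomial.C b * X 1) P) =
        Polynomial.eval₂ (eval z) (eval z (MvPolynomial.C a * X 0 + MvPolynomial.C b * X 1)) P := by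
      rw [Polynomial.eval₂_hom]
    rw [h4]
    simp only [map_add, map_mul, eval_C, eval_X]

/-- The echelon form of a line. -/
theorem exists_ech {K : Type} [Field K] {n : ℕ} {W : Submodule K (Fin (n + 1) → K)}
    (hW : Module.finrank K W = 2) :
    ∃ (i j : Fin (n + 1)) (u w : Fin (n + 1) → K), i ≠ j ∧ u ∈ W ∧ w ∈ W ∧ u i = 1 ∧ u j = 0 ∧
      w i = 0 ∧ w j = 1 ∧ W = Submodule.span K {u, w} := by
  obtain ⟨x, hx, hx0⟩ : ∃ x ∈ W, x ≠ 0 := by
    by_contra hcon
    push Not at hcon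
    have : W = ⊥ := (Submodule.eq_bot_iff _).2 hcon
    rw [this, finrank_bot] at hW
    omega
  obtain ⟨y, hy, hli⟩ := exists_pair_of_mem hW hx0
  obtain ⟨i, j, hij⟩ := pl_of_li hli
  have hpp : pl x y (i, j) = x i * y j - x j * y i := rfl
  have hne : i ≠ j := by
    rintro rfl
    rw [hpp, sub_self] at hij
    exact hij rfl
  obtain ⟨D, hD⟩ : ∃ D, D = x i * y j - x j * y i := ⟨_, rfl⟩
  rw [hpp, ← hD] at hij
  obtain ⟨u, hu⟩ : ∃ u : Fin (n + 1) → K, u = (y j / D) • x + (-(x j) / D) • y := ⟨_, rfl⟩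
  obtain ⟨w, hw⟩ : ∃ w : Fin (n + 1) → K, w = (-(y i) / D) • x + (x i / D) • y := ⟨_, rfl⟩
  have huW : u ∈ W := by
    rw [hu]; exact W.add_mem (W.smul_mem _ hx) (W.smul_mem _ hy)
  have hwW : w ∈ W := by
    rw [hw]; exact W.add_mem (W.smul_mem _ hx) (W.smul_mem _ hy)
  have hui : u i = 1 := by
    rw [hu]
    simp only [Pi.add_apply, Pi.smul_apply, smul_eq_mul]
    field_simp
    rw [hD]; ring
  have huj : u j = 0 := by
    rw [hu]
    simp only [Pi.add_apply, Pi.smul_apply, smul_eq_mul]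
    field_simp
    ring
  have hwi : w i = 0 := by
    rw [hw]
    simp only [Pi.add_apply, Pi.smul_apply, smul_eq_mul]
    field_simp
    ring
  have hwj : w j = 1 := by
    rw [hw]
    simp only [Pi.add_apply, Pi.smul_apply, smul_eq_mul]
    field_simp
    rw [hD]; ring
  refine ⟨i, j, u, w, hne, huW, hwW, hui, huj, hwi, hwj, ?_⟩
  have hli' : LinearIndependent K ![u, w] := by
    rw [LinearIndependent.pair_iff]
    intro a b hab
    have e1 := congrFun hab i
    have e2 := congrFun hab j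
    simp only [Pi.add_apply, Pi.smul_apply, smul_eq_mul, Pi.zero_apply, hui, hwi, huj, hwj,
      mul_one, mul_zero, add_zero, zero_add] at e1 e2
    exact ⟨e1, e2⟩
  symm
  refine Submodule.eq_of_le_of_finrank_eq ?_ ?_
  · rw [Submodule.span_le]
    rintro z (rfl | rfl)
    · exact huW
    · exact hwW
  · rw [hW]
    have h1 := finrank_span_eq_card hli'
    rw [Fintype.card_fin] at h1
    have h2 : Set.range ![u, w] = {u, w} := by
      rw [Matrix.range_cons, Matrix.range_cons, Matrix.range_empty, Set.union_empty,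
        Set.singleton_union]
    rw [h2] at h1
    exact h1

theorem exc_finiteB {k K : Type} [Field k] [Field K] [IsAlgClosed K] [CharZero K] [Algebra k K]
    {n : ℕ} {A : Type} [Fintype A] [DecidableEq A] {d : A → ℕ} (hpos : ∀ a, 0 < d a)
    (C : Finset A) (hC : ∃ b, b ∉ C) (hd : 2 * n ≤ ∑ a, d a + C.card)
    (F : A → MvPolynomial (Fin (n + 1)) K) (hF : ∀ a, (F a).IsHomogeneous (d a))
    (I0 : A → Fin (n + 1) →₀ ℕ) (h0 : ∀ a, (F a).coeff (I0 a) ≠ 0)
    (hind : AlgebraicIndependent k fun p : Rt d I0 =>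
      (F p.1).coeff p.2.1 / (F p.1).coeff (I0 p.1)) :
    {W | Pool.Agent.Y741.IsLine F C W ∧
      (Pool.Agent.Y741.Pts W ∩ Pool.Agent.Y741.Bd F C).encard ≤ 2}.Finite := by
  classical
  have hinf : Infinite K := IsAlgClosed.instInfinite
  choose H hH0 hH using exists_H_excv (k := k) C hd F hF I0 h0 hind
  -- the candidates for the coordinates
  obtain ⟨R, hR⟩ : ∃ R : Fin (n + 1) → Fin (n + 1) → Fin (n + 1) → Set (K × K),
      ∀ i j l, R i j l = {(1, 0)} ∪ {(0, 1)} ∪
        {ab : K × K | ∀ s t : K, eval ![ab.1 * s + ab.2 * t, s, t] (H ![l, i, j]) = 0} :=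
    ⟨_, fun _ _ _ => rfl⟩
  have hRf : ∀ i j l, (R i j l).Finite := by
    intro i j l
    rw [hR]
    exact ((Set.finite_singleton _).union (Set.finite_singleton _)).union (finite_roots (hH0 _))
  obtain ⟨Z, hZ⟩ : ∃ Z : Fin (n + 1) → Fin (n + 1) → Set (Fin (n + 1) → K × K),
      ∀ i j, Z i j = Set.pi Set.univ fun l => R i j l := ⟨_, fun _ _ => rfl⟩
  have hZf : ∀ i j, (Z i j).Finite := by
    intro i j
    rw [hZ]
    exact Set.Finite.pi fun l => hRf i j l
  have hfin : (⋃ i, ⋃ j, (fun z : Fin (n + 1) → K × K =>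
      Submodule.span K {(fun l => (z l).1), (fun l => (z l).2)}) '' Z i j).Finite :=
    Set.finite_iUnion fun i => Set.finite_iUnion fun j => (hZf i j).image _
  refine hfin.subset ?_
  rintro W ⟨hW, hB⟩
  obtain ⟨i, j, u, w, hij, huW, hwW, hui, huj, hwi, hwj, hWs⟩ := exists_ech hW.1
  rw [Set.mem_iUnion]
  refine ⟨i, ?_⟩
  rw [Set.mem_iUnion]
  refine ⟨j, fun l => (u l, w l), ?_, hWs.symm⟩
  rw [hZ]
  intro l _
  show (u l, w l) ∈ R i j l
  rw [hR]
  by_cases hli : l = i
  · left; left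
    rw [hli, hui, hwi]
    rfl
  by_cases hlj : l = j
  · left; right
    rw [hlj, huj, hwj]
    rfl
  right
  -- the polynomials in two variables
  obtain ⟨x0, hx0, hx00, hx0b⟩ := exists_off hW hB
  obtain ⟨g, hg⟩ : ∃ g : Fin (n + 1) → MvPolynomial (Fin 2) K,
      g = fun l => MvPolynomial.C (u l) * X 0 + MvPolynomial.C (w l) * X 1 := ⟨_, rfl⟩
  have hgev : ∀ (s t : K) (l : Fin (n + 1)), eval ![s, t] (g l) = (s • u + t • w) l := by
    intro s t l
    rw [hg]
    simp only [map_add, map_mul, eval_C, eval_X, Matrix.cons_val_zero, Matrix.cons_val_one,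
      Pi.add_apply, Pi.smul_apply, smul_eq_mul]
    ring
  obtain ⟨B, hBd⟩ : ∃ B : MvPolynomial (Fin 2) K, B = ∏ b ∈ Cᶜ, bind₁ g (F b) := ⟨_, rfl⟩
  obtain ⟨P, hP⟩ : ∃ P : MvPolynomial (Fin 2) K, P = bind₁ ![g l, X 0, X 1] (H ![l, i, j]) :=
    ⟨_, rfl⟩
  have hFe : ∀ (s t : K) (b : A), eval ![s, t] (bind₁ g (F b)) = eval (s • u + t • w) (F b) := by
    intro s t b
    have h1 : eval ![s, t] (bind₁ g (F b)) = eval (fun l => eval ![s, t] (g l)) (F b) := by
      exact eval₂Hom_bind₁ _ _ _ _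
    rw [h1]
    congr 1
    congr 1
    funext l
    exact hgev s t l
  have hPe : ∀ s t : K, eval ![s, t] P = eval ![(u l) * s + (w l) * t, s, t] (H ![l, i, j]) := by
    intro s t
    rw [hP]
    have h1 : eval ![s, t] (bind₁ ![g l, X 0, X 1] (H ![l, i, j])) =
        eval (fun m => eval ![s, t] ((![g l, X 0, X 1] : Fin 3 → MvPolynomial (Fin 2) K) m))
          (H ![l, i, j]) := by
      exact eval₂Hom_bind₁ _ _ _ _
    rw [h1]
    congr 1
    congr 1
    funext m
    fin_cases m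
    · show eval ![s, t] (g l) = u l * s + w l * t
      rw [hgev]
      simp only [Pi.add_apply, Pi.smul_apply, smul_eq_mul]
      ring
    · show eval ![s, t] (X 0) = s
      rw [eval_X]; rfl
    · show eval ![s, t] (X 1) = t
      rw [eval_X]; rfl
  have hB0 : B ≠ 0 := by
    obtain ⟨s, t, hst⟩ : ∃ s t : K, s • u + t • w = x0 := by
      rw [hWs, Submodule.mem_span_pair] at hx0
      exact hx0
    intro hB0
    have h1 : eval ![s, t] B = 0 := by rw [hB0, map_zero]
    rw [hBd, map_prod] at h1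
    obtain ⟨b, hb, hb0⟩ := Finset.prod_eq_zero_iff.1 h1
    rw [hFe, hst] at hb0
    exact hx0b b (Finset.mem_compl.1 hb) hb0
  have hBP : B * P = 0 := by
    refine MvPolynomial.funext fun z => ?_
    have hz : z = ![z 0, z 1] := by
      funext m
      fin_cases m <;> rfl
    rw [map_zero, map_mul, hz]
    by_cases hb : ∃ b, b ∉ C ∧ eval (z 0 • u + z 1 • w) (F b) = 0
    · obtain ⟨b, hb, hb0⟩ := hb
      have h1 : eval ![z 0, z 1] B = 0 := by
        rw [hBd, map_prod]
        refine Finset.prod_eq_zero (Finset.mem_compl.2 hb) ?_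
        rw [hFe, hb0]
      rw [h1, zero_mul]
    · push Not at hb
      have hxW : z 0 • u + z 1 • w ∈ W := W.add_mem (W.smul_mem _ huW) (W.smul_mem _ hwW)
      have hxne : z 0 • u + z 1 • w ≠ 0 := by
        intro hzero
        obtain ⟨b, hbC⟩ := hC
        apply hb b hbC
        rw [hzero]
        have h2 := eval_smul_hom (hF b) (0 : Fin (n + 1) → K) 0
        rw [zero_smul, zero_pow (hpos b).ne', zero_mul] at h2
        exact h2
      have h1 := hH ![l, i, j] W hW hB _ hxW hxne hb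
      have h2 : eval ![z 0, z 1] P = 0 := by
        rw [hPe, ← h1]
        congr 1
        congr 1
        funext m
        fin_cases m
        · show u l * z 0 + w l * z 1 = (z 0 • u + z 1 • w) l
          simp only [Pi.add_apply, Pi.smul_apply, smul_eq_mul]
          ring
        · show z 0 = (z 0 • u + z 1 • w) i
          simp only [Pi.add_apply, Pi.smul_apply, smul_eq_mul, hui, hwi]
          ring
        · show z 1 = (z 0 • u + z 1 • w) j
          simp only [Pi.add_apply, Pi.smul_apply, smul_eq_mul, huj, hwj]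
          ring
      rw [h2, mul_zero]
  have hP0 : P = 0 := (mul_eq_zero.1 hBP).resolve_left hB0
  intro s t
  show eval ![u l * s + w l * t, s, t] (H ![l, i, j]) = 0
  rw [← hPe, hP0, map_zero]

end Pool.Agent.NH27.B
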