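import Pool.Agent.NH27.B.Defs
import Pool.Agent.Y741.MainV

/-!
Sequences with finitely many points on each plane, and sets of points on finitely many planes.
-/

set_option autoImplicit false

open MvPolynomial FF Pool.Agent.W603.LV Pool.Agent.W603.PV Pool.Agent.W602.RG Pool.Agent.TH145.GH
open Pool.Agent.TH145.GC (Cf)
open Pool.Agent.Y735.S (pe)
open Pool.Agent.Y741
open LinearAlgebra.Projectivization

namespace Pool.Agent.NH27.B

theorem finrank_triple {K : Type} [Field K] {N : ℕ} (x y z : Fin N → K) :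
    Module.finrank K (Submodule.span K {x, y, z}) ≤ 3 := by
  classical
  have h1 := finrank_span_le_card (R := K) ({x, y, z} : Set (Fin N → K))
  refine h1.trans ?_
  rw [Set.toFinset_insert, Set.toFinset_insert, Set.toFinset_singleton]
  exact Finset.card_le_three

/-- Job D1 -/
theorem exists_seqP {K : Type} [Field K] {N : ℕ} {S : Set (Fin N → K)} (hS : ¬ FewP S) :
    ∃ x : ℕ → Fin N → K, (∀ m, x m ∈ S) ∧
      ∀ W : Submodule K (Fin N → K), Module.finrank K W ≤ 3 → {m | x m ∈ W}.Finite := by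
  classical
  have key : ∀ s : Finset (Fin N → K), ∃ y ∈ S, ∀ a ∈ s, ∀ b ∈ s, ∀ c ∈ s,
      y ∉ Submodule.span K {a, b, c} := by
    intro s
    by_contra hcon
    push Not at hcon
    apply hS
    refine ⟨(fun p : (Fin N → K) × (Fin N → K) × (Fin N → K) =>
      Submodule.span K {p.1, p.2.1, p.2.2}) ''
      ((s ×ˢ (s ×ˢ s) : Finset _) : Set ((Fin N → K) × (Fin N → K) × (Fin N → K))), ?_, ?_, ?_⟩
    · exact (Finset.finite_toSet _).image _
    · rintro _ ⟨p, -, rfl⟩
      exact finrank_triple _ _ _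
    · intro x hx
      obtain ⟨a, ha, b, hb, c, hc, h⟩ := hcon x hx
      exact ⟨_, ⟨(a, b, c), Finset.mem_coe.2 (Finset.mem_product.2 ⟨ha,
        Finset.mem_product.2 ⟨hb, hc⟩⟩), rfl⟩, h⟩
  obtain ⟨f, hf1, hf2⟩ := exists_seq_of_forall_finset_exists
    (fun p : Finset (Fin N → K) × (Fin N → K) => p.2 ∈ S ∧ ∀ a ∈ p.1, ∀ b ∈ p.1, ∀ c ∈ p.1,
      p.2 ∉ Submodule.span K {a, b, c}) (fun p q => insert p.2 p.1 ⊆ q.1) (by
    intro s _
    obtain ⟨y, hy, h⟩ := key (s.biUnion fun p => insert p.2 p.1)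
    exact ⟨(s.biUnion fun p => insert p.2 p.1, y), ⟨hy, h⟩, fun p hp =>
      Finset.subset_biUnion_of_mem (fun p : Finset (Fin N → K) × (Fin N → K) =>
        insert p.2 p.1) hp⟩)
  have hx : ∀ a b c e, a < e → b < e → c < e →
      (f e).2 ∉ Submodule.span K {(f a).2, (f b).2, (f c).2} := by
    intro a b c e hae hbe hce
    exact (hf1 e).2 _ (hf2 a e hae (Finset.mem_insert_self _ _)) _
      (hf2 b e hbe (Finset.mem_insert_self _ _)) _ (hf2 c e hce (Finset.mem_insert_self _ _))
  refine ⟨fun m => (f m).2, fun m => (hf1 m).1, fun W hW => ?_⟩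
  by_contra hcon
  have hinf : {m | (f m).2 ∈ W}.Infinite := hcon
  obtain ⟨a, ha, h0a⟩ := hinf.exists_gt 0
  obtain ⟨b, hb, hab⟩ := hinf.exists_gt a
  obtain ⟨c, hc, hbc⟩ := hinf.exists_gt b
  obtain ⟨e, he, hce⟩ := hinf.exists_gt c
  have l1 : LinearIndependent K ![(f a).2] := by
    refine LinearIndependent.of_subsingleton 0 ?_
    intro h
    have h' : (f a).2 = 0 := h
    exact hx 0 0 0 a h0a h0a h0a (by rw [h']; exact Submodule.zero_mem _)
  have l2 : LinearIndependent K ![(f b).2, (f a).2] := by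
    refine linearIndependent_finCons.2 ⟨l1, fun h => ?_⟩
    refine hx a a a b hab hab hab (Submodule.span_mono ?_ h)
    rintro _ ⟨i, rfl⟩
    fin_cases i
    exact Set.mem_insert _ _
  have l3 : LinearIndependent K ![(f c).2, (f b).2, (f a).2] := by
    refine linearIndependent_finCons.2 ⟨l2, fun h => ?_⟩
    refine hx a b b c (hab.trans hbc) hbc hbc (Submodule.span_mono ?_ h)
    rintro _ ⟨i, rfl⟩
    fin_cases i
    · exact Set.mem_insert_of_mem _ (Set.mem_insert _ _)
    · exact Set.mem_insert _ _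
  have h1 : LinearIndependent K ![(f e).2, (f c).2, (f b).2, (f a).2] := by
    refine linearIndependent_finCons.2 ⟨l3, fun h => ?_⟩
    refine hx a b c e (hab.trans (hbc.trans hce)) (hbc.trans hce) hce (Submodule.span_mono ?_ h)
    rintro _ ⟨i, rfl⟩
    fin_cases i
    · exact Set.mem_insert_of_mem _ (Set.mem_insert_of_mem _ (Set.mem_singleton _))
    · exact Set.mem_insert_of_mem _ (Set.mem_insert _ _)
    · exact Set.mem_insert _ _
  have h2 : LinearIndependent K (fun i : Fin 4 => (⟨![(f e).2, (f c).2, (f b).2, (f a).2] i, by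
      fin_cases i
      · exact he
      · exact hc
      · exact hb
      · exact ha⟩ : W)) := by
    refine LinearIndependent.of_comp W.subtype ?_
    exact h1
  have h3 := h2.fintype_card_le_finrank
  rw [Fintype.card_fin] at h3
  omega

theorem fewP_mono {K : Type} [Field K] {N : ℕ} {S S' : Set (Fin N → K)} (h : FewP S)
    (hs : S' ⊆ S) : FewP S' := by
  obtain ⟨𝓦, h1, h2, h3⟩ := h
  exact ⟨𝓦, h1, h2, fun x hx => h3 x (hs hx)⟩

theorem fewP_union {K : Type} [Field K] {N : ℕ} {S S' : Set (Fin N → K)} (h : FewP S)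
    (h' : FewP S') : FewP (S ∪ S') := by
  obtain ⟨𝓦, h1, h2, h3⟩ := h
  obtain ⟨𝓦', h1', h2', h3'⟩ := h'
  refine ⟨𝓦 ∪ 𝓦', h1.union h1', ?_, ?_⟩
  · rintro W (hW | hW)
    · exact h2 W hW
    · exact h2' W hW
  · rintro x (hx | hx)
    · obtain ⟨W, hW, hxW⟩ := h3 x hx
      exact ⟨W, Or.inl hW, hxW⟩
    · obtain ⟨W, hW, hxW⟩ := h3' x hx
      exact ⟨W, Or.inr hW, hxW⟩

theorem few_to_fewP {K : Type} [Field K] {N : ℕ} {S : Set (Fin N → K)} (h : Few S) :
    FewP S := by
  obtain ⟨𝓦, h1, h2, h3⟩ := h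
  exact ⟨𝓦, h1, fun W hW => (h2 W hW).trans (by norm_num), h3⟩

theorem fewP_map {K K' : Type} [Field K] [Field K'] (f : K →+* K') {N : ℕ} {S : Set (Fin N → K)}
    (h : FewP S) : FewP ((fun x => fun j => f (x j)) '' S) := by
  obtain ⟨𝓦, h1, h2, h3⟩ := h
  have h4 : ∀ W ∈ 𝓦, Module.finrank K' (Submodule.span K'
      ((fun (x : Fin N → K) j => f (x j)) '' (W : Set (Fin N → K)))) ≤ 3 := by
    intro W hW
    obtain ⟨b⟩ : Nonempty (Module.Basis (Fin (Module.finrank K W)) K W) :=
      ⟨Module.finBasis K W⟩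
    have h5 : Submodule.span K' ((fun (x : Fin N → K) j => f (x j)) '' (W : Set (Fin N → K))) ≤
        Submodule.span K' (Set.range fun i j => f ((b i : Fin N → K) j)) := by
      rw [Submodule.span_le]
      rintro _ ⟨x, hx, rfl⟩
      have h6 : x ∈ Submodule.span K (Set.range fun i => (b i : Fin N → K)) := by
        have h7 := b.span_eq
        have h8 : (⟨x, hx⟩ : W) ∈ Submodule.span K (Set.range b) := by rw [h7]; trivial
        have h9 := Submodule.mem_map_of_mem (f := W.subtype) h8
        rw [Submodule.map_span, ← Set.range_comp] at h9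
        exact h9
      have h7 := span_asc f h6
      rw [← Set.range_comp] at h7
      exact h7
    refine (Submodule.finrank_mono h5).trans ((finrank_range_le_card _).trans ?_)
    rw [Fintype.card_fin]
    exact h2 W hW
  refine ⟨(fun W : Submodule K (Fin N → K) => Submodule.span K'
    ((fun (x : Fin N → K) j => f (x j)) '' (W : Set (Fin N → K)))) '' 𝓦, h1.image _, ?_, ?_⟩
  · rintro _ ⟨W, hW, rfl⟩
    exact h4 W hW
  · rintro _ ⟨x, hx, rfl⟩
    obtain ⟨W, hW, hxW⟩ := h3 x hx
    exact ⟨_, ⟨W, hW, rfl⟩, Submodule.subset_span ⟨x, hxW, rfl⟩⟩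

theorem fewP_comap {K K' : Type} [Field K] [Field K'] (f : K →+* K') {N : ℕ}
    {S : Set (Fin N → K)} (h : FewP ((fun x => fun j => f (x j)) '' S)) : FewP S := by
  obtain ⟨𝓦, h1, h2, h3⟩ := h
  obtain ⟨g, hg⟩ : ∃ g : Submodule K' (Fin N → K') → Submodule K (Fin N → K),
      ∀ W x, x ∈ g W ↔ (fun j => f (x j)) ∈ W := by
    refine ⟨fun W =>
      { carrier := {x | (fun j => f (x j)) ∈ W}
        add_mem' := fun {x y} hx hy => by
          have h4 : (fun j => f ((x + y) j)) = (fun j => f (x j)) + fun j => f (y j) := by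
            funext j
            rw [Pi.add_apply, map_add, Pi.add_apply]
          rw [Set.mem_ofPred_eq, h4]
          exact add_mem hx hy
        zero_mem' := by
          have h4 : (fun j => f ((0 : Fin N → K) j)) = 0 := by
            funext j
            rw [Pi.zero_apply, map_zero, Pi.zero_apply]
          rw [Set.mem_ofPred_eq, h4]
          exact zero_mem _
        smul_mem' := fun r x hx => by
          have h4 : (fun j => f ((r • x) j)) = f r • fun j => f (x j) := by
            funext j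
            rw [Pi.smul_apply, Pi.smul_apply, smul_eq_mul, smul_eq_mul, map_mul]
          rw [Set.mem_ofPred_eq, h4]
          exact Submodule.smul_mem _ _ hx }, fun W x => Iff.rfl⟩
  refine ⟨g '' 𝓦, h1.image _, ?_, fun x hx => ?_⟩
  · rintro _ ⟨W, hW, rfl⟩
    have b := Module.finBasis K (g W)
    have h4 : LinearIndependent K fun i => ((b i : g W) : Fin N → K) := by
      have := b.linearIndependent.map' (g W).subtype (Submodule.ker_subtype _)
      exact this
    have h5 := li_asc f h4
    have h6 : LinearIndependent K' (fun i => (⟨fun j => f ((b i : Fin N → K) j),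
        (hg W _).1 (b i).2⟩ : W)) := by
      refine LinearIndependent.of_comp W.subtype ?_
      exact h5
    have h7 := h6.fintype_card_le_finrank
    rw [Fintype.card_fin] at h7
    exact h7.trans (h2 W hW)
  · obtain ⟨W, hW, hxW⟩ := h3 _ ⟨x, hx, rfl⟩
    exact ⟨g W, ⟨W, hW, rfl⟩, (hg W x).2 hxW⟩

end Pool.Agent.NH27.B
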