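import Pool.Agent.NH27.B.Tricho5
import Pool.Agent.Y741.FinV
import Pool.Agent.Y741.LineH

/-!
Heights of integral points, for generic surfaces with a boundary of the smallest degree (helper2;
from `Y741/FinV.lean`).
-/

set_option autoImplicit false

open MvPolynomial FF Pool.Agent.W603.LV Pool.Agent.W603.PV Pool.Agent.W602.RG Pool.Agent.TH145.GH
open Pool.Agent.TH145.GC (Cf Gen Rt finite_cf)
open Pool.Agent.Y735 (pl pm vol fht rho eval_rho rho_X rho_deg fht_nonneg)
open Pool.Agent.Y741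
open LinearAlgebra.Projectivization

namespace Pool.Agent.NH27.B

section heights

variable {k0 K ι : Type} [Field k0] [Field K] [Algebra k0 K] [IsAlgClosed K] [CharZero K]
  {y : ι → K} (E : IntermediateField (IntermediateField.adjoin k0 (Set.range y)) K)

/-- H -/
theorem heights_B {n : ℕ} {A : Type} [Fintype A] [DecidableEq A] {dg : A → ℕ}
    (hpos : ∀ a, 0 < dg a) (hy : AlgebraicIndependent k0 y)
    [FiniteDimensional (IntermediateField.adjoin k0 (Set.range y)) E]
    {F : A → MvPolynomial (Fin (n + 1)) E.toSubfield}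
    {DE : A → (Fin (n + 1) →₀ ℕ) → E.toSubfield → E.toSubfield}
    (hG : Gen F dg DE) (hgen : GenA dg F)
    (D : A → (Fin (n + 1) →₀ ℕ) → Derivation ℤ K K)
    (hDE : ∀ a I (x : E.toSubfield), D a I x = (DE a I x : K))
    (hDk : ∀ a I (r : k0), D a I (algebraMap k0 K r) = 0)
    (hDy : ∀ a I j, ∃ r : k0, D a I (y j) = algebraMap k0 K r) (hcm : Comm D) {C : Finset A}
    (h2 : Bd2 n dg C) (hB5 : Bnd5 n A dg C)
    (l0 : Fin (n + 1)) (T : Finset K) (hT : ∀ t ∈ T, t ∈ E) (i : ι) :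
    ∃ B : ℤ, ∀ (x : Fin (n + 1) → E) (s : A → Fin (n + 1) → E), x l0 = 1 →
      (∀ a ∈ C, eval (fun j => (x j : K)) (map E.toSubfield.subtype (F a)) = 0) →
      (∀ a, a ∉ C → eval (fun j => (x j : K)) (map E.toSubfield.subtype (F a)) ≠ 0) →
      (∀ a, a ∉ C → ∀ j, (s a j : K) =
        (x j : K) ^ dg a / eval (fun j => (x j : K)) (map E.toSubfield.subtype (F a))) →
      (∀ a, a ∉ C → ∀ j,
        (s a j : K) ∈ Subring.closure (Set.range (algebraMap k0 K) ∪ (T : Set K))) →
      ¬ Exc 2 (fun a => map E.toSubfield.subtype (F a)) C (fun j => (x j : K)) →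
      ∀ j, hgt (kap k0 y i) (⟨(x j : K), subset_LL y _ i (x j).2⟩ :
        LL k0 y (E : Set K) i) ≤ B ∧ ∀ a, a ∉ C →
        hgt (kap k0 y i) (⟨(s a j : K), subset_LL y _ i (s a j).2⟩ :
        LL k0 y (E : Set K) i) ≤ B := by
  classical
  have hFF : IsFF (kap k0 y i) (LL k0 y (E : Set K) i) := LL_ff E hy i
  have hac : IsAlgClosed (kap k0 y i) := acl_isAlgClosed _
  have hcz : CharZero (kap k0 y i) := charZero_of_injective_algebraMap
    (algebraMap ℚ (kap k0 y i)).injective
  have hczL : CharZero (LL k0 y (E : Set K) i) := charZero_of_injective_algebraMap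
    (algebraMap ℚ (LL k0 y (E : Set K) i)).injective
  obtain ⟨φ, D', e, g, hφ, hcm', hdat, hgT, hge⟩ :=
    exists_data_V E hpos hy hG D hDE hDk hDy hcm T hT i
  obtain ⟨H0, hH0⟩ : ∃ H0 : ℤ, H0 = CL n A e g := ⟨_, rfl⟩
  have hH00 : 0 ≤ H0 := by rw [hH0]; exact hdat.CL_nonneg
  have hgf : {P | g P ≠ 0}.Finite := hdat.fin.subset fun P hP => Or.inr hP
  have hg0 : 0 ≤ ∑ᶠ P, g P := finsum_nonneg fun P => hdat.g_nonneg P
  obtain ⟨BM, hBM⟩ := lineM n A dg C (kap k0 y i) (LL k0 y (E : Set K) i) K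
    (fun a => map φ (F a)) hdat.hom {P | g P ≠ 0} hgf H0
  obtain ⟨BQ, hBQ⟩ := hB5 (kap k0 y i) (LL k0 y (E : Set K) i) K (fun a => map φ (F a)) D' e g
    hdat (hgen.map φ) {P | g P ≠ 0} hgf
  obtain ⟨H, hH⟩ : ∃ H : ℤ, H = max (max (((∑ a, dg a : ℕ) : ℤ) * H0 + H0 + ∑ᶠ P, g P) BM) BQ :=
    ⟨_, rfl⟩
  have hH1 : ((∑ a, dg a : ℕ) : ℤ) * H0 + H0 + ∑ᶠ P, g P ≤ H := by
    rw [hH]; exact (le_max_left _ _).trans (le_max_left _ _)
  have hH2 : BM ≤ H := by rw [hH]; exact (le_max_right _ _).trans (le_max_left _ _)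
  have hH2' : BQ ≤ H := by rw [hH]; exact le_max_right _ _
  have hSH : 0 ≤ ((∑ a, dg a : ℕ) : ℤ) * H0 := mul_nonneg (by positivity) hH00
  have hH3 : 0 ≤ H := by omega
  choose B1 hB1 using fun a => hgt_eval_le (κ := kap k0 y i) H (map φ (F a))
  obtain ⟨B2, hB2⟩ : ∃ B2 : ℤ, ∀ a, dg a * H + B1 a ≤ B2 := by
    obtain ⟨B, hB⟩ := (Set.finite_range fun a => dg a * H + B1 a).bddAbove
    exact ⟨B, fun a => hB ⟨a, rfl⟩⟩
  refine ⟨max H B2, fun x s hx hxC hxF hs hsT hxE j => ?_⟩
  obtain ⟨x', hx'⟩ : ∃ x' : Fin (n + 1) → LL k0 y (E : Set K) i,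
    ∀ j, x' j = ⟨(x j : K), subset_LL y _ i (x j).2⟩ := ⟨_, fun _ => rfl⟩
  have hxl0 : x' l0 = 1 := by
    rw [hx']
    apply Subtype.ext
    change (x l0 : K) = 1
    rw [hx]; rfl
  have hx0 : x' ≠ 0 := by
    intro h0
    rw [h0] at hxl0
    exact zero_ne_one hxl0
  have hxx : (fun j => algebraMap (LL k0 y (E : Set K) i) K (x' j)) = fun j => (x j : K) := by
    funext j
    rw [hx']
    rfl
  have hev : ∀ a, algebraMap (LL k0 y (E : Set K) i) K (eval x' (map φ (F a))) =
      eval (fun j => (x j : K)) (map E.toSubfield.subtype (F a)) := by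
    intro a
    rw [eval_incl φ hφ (F a) x', hxx]
  have hxC' : ∀ a ∈ C, eval x' (map φ (F a)) = 0 := by
    intro a ha
    apply (algebraMap (LL k0 y (E : Set K) i) K).injective
    rw [map_zero, hev, hxC a ha]
  have hxF' : ∀ a, a ∉ C → eval x' (map φ (F a)) ≠ 0 := by
    intro a ha h0
    have h1 := hev a
    rw [h0, map_zero] at h1
    exact hxF a ha h1.symm
  have hsx : ∀ a, a ∉ C → ∀ j, (⟨(s a j : K), subset_LL y _ i (s a j).2⟩ :
      LL k0 y (E : Set K) i) = x' j ^ dg a / eval x' (map φ (F a)) := by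
    intro a ha j
    apply (algebraMap (LL k0 y (E : Set K) i) K).injective
    rw [map_div₀, hev, map_pow, hx']
    exact hs a ha j
  have hmF : mapF (algebraMap (LL k0 y (E : Set K) i) K) (fun a => map φ (F a)) =
      fun a => map E.toSubfield.subtype (F a) := by
    funext a
    unfold mapF
    rw [map_map]
    have h3 : (algebraMap (LL k0 y (E : Set K) i) K).comp φ = E.toSubfield.subtype := by
      ext a
      exact hφ a
    exact congrArg (fun f => map f (F a)) h3
  -- the places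
  have hint : ∀ P, g P = 0 → ∀ a, a ∉ C →
      P.ord (eval x' (map φ (F a))) ≤ dg a * pord P x' := by
    intro P hP1 a ha
    refine (ord_of_int P (hdat.hom a) (fun u => ?_) hx0 (hxF' a ha) fun j => ?_).le
    · have := hdat.coef P a u
      rwa [hP1, neg_zero] at this
    · rw [← hsx a ha]
      obtain ⟨b, hb, hbP⟩ := ge_of_closure E i P hT (hgT P hP1) (hsT a ha j)
      have : b = ⟨(s a j : K), subset_LL y _ i (s a j).2⟩ := Subtype.ext hb
      rw [← this]
      exact hbP
  have hP : PlOK dg D' e (fun a => map φ (F a)) C x' := by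
    intro P
    by_cases hP : g P = 0
    · exact Or.inl (hint P hP)
    · exact Or.inr (hge P hP)
  have hexc : ∀ (y' : Fin (n + 1) → LL k0 y (E : Set K) i) (ik : Fin (n + 1) × Fin (n + 1)),
      pl x' y' ik ≠ 0 → OnL (fun a => map φ (F a)) C x' y' →
      ¬ Pun 2 (mapF (algebraMap (LL k0 y (E : Set K) i) K) (fun a => map φ (F a))) C
        (fun j => algebraMap (LL k0 y (E : Set K) i) K (x' j))
        (fun j => algebraMap (LL k0 y (E : Set K) i) K (y' j)) := by
    intro y' ik hik h1 h2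
    apply hxE
    rw [← hxx, ← hmF]
    refine ⟨_, ik, ?_, (onL_mapF _ hdat.hom hxC').2 h1, h2⟩
    rw [pl_map]
    dsimp only
    rwa [Ne, map_eq_zero]
  have h1 : pht (kap k0 y i) x' ≤ H := by
    rcases tricho5 hpos hdat.hom hdat.dual hcm' h2 hxC' hxF' hx0 with h | h | h
    · obtain ⟨y', ik, hik, h1, h2⟩ := h
      exact absurd (pun_of_one (by norm_num) (one_mapF _ h2)) (hexc y' ik hik h1)
    · obtain ⟨w, b, u, t, rn, y', i0, ik, hi0, hik, hV, hcase⟩ := h
      have h1 := VRD.ineq hdat hxC' hxF' hi0 hik hV hP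
      rw [Fintype.card_fin, Fintype.card_fin, Fintype.card_fin, ← hH0] at h1
      have h2 := pht_nonneg (k := kap k0 y i) hx0
      have hp0 : pl x' y' ≠ 0 := fun h0 => hik (by rw [h0]; rfl)
      have h3 : 0 ≤ fht (kap k0 y i) (pl x' y') := fht_nonneg hp0
      rcases hcase with ⟨hu, ht, hS⟩ | ⟨hS, hut⟩
      · rw [hu, ht, Nat.cast_zero, sub_zero, zero_mul, add_zero] at h1
        have h4 : (1 : ℤ) ≤ ((∑ a, dg a : ℕ) : ℤ) - ((n + 1 + b + 0 : ℕ) : ℤ) := by omega
        nlinarith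
      · have h4 : (0 : ℤ) ≤ ((∑ a, dg a : ℕ) : ℤ) - ((n + 1 + b + t : ℕ) : ℤ) := by omega
        have h5 : (1 : ℤ) ≤ (t : ℤ) - u := by omega
        have h6 := mul_nonneg h4 h2
        have h7 : fht (kap k0 y i) (pl x' y') ≤ H0 := by nlinarith
        by_cases hz : OnL (fun a => map φ (F a)) C x' y'
        · exact (hBM x' y' ik hik h7 hxF' (fun P hP b hb => hint P (by
            by_contra h; exact hP h) b hb) (hexc y' ik hik hz)).trans hH2
        · unfold OnL at hz
          push Not at hz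
          obtain ⟨c, hc, a, b, hab⟩ := hz
          have h8 := hdat.line_ht (hxC' c hc) hik hab
          have h9 : (dg c : ℤ) * fht (kap k0 y i) (pl x' y') ≤ dg c * H0 :=
            mul_le_mul_of_nonneg_left h7 (by positivity)
          have h10 : (dg c : ℤ) ≤ ((∑ a, dg a : ℕ) : ℤ) := by
            exact_mod_cast Finset.single_le_sum (f := dg) (fun _ _ => Nat.zero_le _)
              (Finset.mem_univ c)
          have h11 : (dg c : ℤ) * H0 ≤ ((∑ a, dg a : ℕ) : ℤ) * H0 :=
            mul_le_mul_of_nonneg_right h10 hH00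
          linarith
    · exact (hBQ x' hxC' hxF' hP (fun P hP b hb => hint P (by
        by_contra h
        exact hP h) b hb) h hexc).trans hH2'
  have h2 : ∀ j, hgt (kap k0 y i) (x' j) ≤ H := by
    intro j
    by_cases hj : x' j = 0
    · rw [hj]
      have := Pool.Agent.TH145.MG.hgt_const (k := kap k0 y i) (L := LL k0 y (E : Set K) i) 0
      rw [map_zero] at this
      rw [this]
      exact hH3
    · have h2 := Pool.Agent.W603.CX.hgt_le_pht (k := kap k0 y i) x' hj (l := l0)
        (by rw [hxl0]; exact one_ne_zero)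
      rw [hxl0, div_one] at h2
      exact h2.trans h1
  refine ⟨?_, fun a ha => ?_⟩
  · rw [← hx']
    exact (h2 j).trans (le_max_left _ _)
  · rw [hsx a ha, div_eq_mul_inv]
    refine (Pool.Agent.TH145.MW.hgt_mul_le (k := kap k0 y i) _ _).trans ?_
    rw [hgt_inv]
    refine (add_le_add ((Pool.Agent.TH145.MW.hgt_pow_le (k := kap k0 y i) _ _).trans
      (mul_le_mul_of_nonneg_left (h2 j) (by positivity))) (hB1 a x' h2)).trans ?_
    exact (hB2 a).trans (le_max_right _ _)

end heights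

end Pool.Agent.NH27.B
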