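import Pool.Agent.NH27.B.Area
import Pool.Agent.Y741.Tri

/-!
The cases for the generic surfaces with a boundary of the smallest degree (helper2; from
`Y741/Tri.lean` and `NH27/Q/Tetra.lean`).
-/

set_option autoImplicit false

open MvPolynomial FF Pool.Agent.W603.LV Pool.Agent.W603.PV Pool.Agent.W602.RG Pool.Agent.TH145.GH
open Pool.Agent.TH145.GC (Cf Gen Rt)
open Pool.Agent.Y735 (pl pm vol fht Good exists_pairs pmx span_pmx exists_pl mem_Mx)
open Pool.Agent.Y741
open LinearAlgebra.Projectivization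

namespace Pool.Agent.NH27.B

section alg

variable {K A : Type} [Field K] [CharZero K] [Fintype A] [DecidableEq A] {n : ℕ} {dg : A → ℕ}
  {C : Finset A}

/-- E: the cases -/
theorem tricho5 {F : Fam K n A} {D : A → (Fin (n + 1) →₀ ℕ) → Derivation ℤ K K}
    (hpos : ∀ a, 0 < dg a) (hF : ∀ a, (F a).IsHomogeneous (dg a))
    (hD : TH145.GC.Dual F dg D) (hcm : Comm D) (h2 : Bd2 n dg C)
    {x : Fin (n + 1) → K} (hxC : ∀ c ∈ C, eval x (F c) = 0)
    (hxb : ∀ b, b ∉ C → eval x (F b) ≠ 0) (hx0 : x ≠ 0) :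
    (∃ (y : Fin (n + 1) → K) (ik : Fin (n + 1) × Fin (n + 1)), pl x y ik ≠ 0 ∧
      OnL F C x y ∧ One F dg C x y) ∨
    (∃ (w b u t : ℕ) (rn : RN n A (Fin w) (Fin b) (Fin u) (Fin t)) (y : Fin (n + 1) → K)
      (i0 : Fin (n + 1)) (ik : Fin (n + 1) × Fin (n + 1)), x i0 ≠ 0 ∧ pl x y ik ≠ 0 ∧
      VRD F dg D C x y i0 ik rn ∧
      ((u = 0 ∧ t = 0 ∧ n + 1 + b + 1 ≤ ∑ a, dg a) ∨ (n + 1 + b + t ≤ ∑ a, dg a ∧ u < t))) ∨
    Rest5 dg D x := by
  classical
  have hcard := h2.card
  have hsum := h2.sum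
  have hC : ∃ b, b ∉ C := h2.bdry
  have hker := TC_finrank hF hD hxC hx0
  have hWle := Wsp_le hpos hF hD hxC
  have hwn := Submodule.finrank_mono hWle
  have hw1 : 1 ≤ Module.finrank K (Wsp F D x) :=
    (finrank_span_singleton (K := K) hx0).symm.le.trans (Submodule.finrank_mono le_sup_left)
  obtain ⟨N, hN⟩ : ∃ N, N = Module.finrank K (TC F C x) := ⟨_, rfl⟩
  obtain ⟨w, hw⟩ : ∃ w, w = Module.finrank K (Wsp F D x) := ⟨_, rfl⟩
  rw [← hN] at hker
  rw [← hw, ← hN] at hwn
  rw [← hw] at hw1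
  have hN3 : N = 3 := by omega
  by_cases hG : Good (Bset D x dg) (TC F C x) (Wsp F D x)
  · have hw3 : w = 1 ∨ w = 2 ∨ w = 3 := by omega
    rcases hw3 with hw3 | hw3 | hw3
    · -- the remaining case
      right
      right
      have hWx : Wsp F D x = Submodule.span K {x} := by
        symm
        refine Submodule.eq_of_le_of_finrank_eq le_sup_left ?_
        rw [← hw, hw3, finrank_span_singleton hx0]
      obtain ⟨i0, hi0⟩ := Function.ne_iff.1 hx0
      have hi0' : x i0 ≠ 0 := hi0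
      obtain ⟨b, i, j, hb, hfin⟩ := exists_pairs (pmx x i0) (span_pmx hi0')
        (Bset D x dg) (TC F C x) 1 (Wsp F D x)
        (im_top hpos hF hD hxC hxb hx0) hG (by rw [← hN, ← hw]; omega)
      obtain ⟨Q, hQ, hbQ⟩ := mem_Bset.1 (hb 0)
      have hbi : ∀ l, b 0 (pmx x i0 l) = vq D x Q (pm x i0 l) := by
        intro l
        rw [hbQ, bmap_apply]
        rfl
      obtain ⟨u, hu⟩ : ∃ u, u = vq D x Q (pm x i0 (i 0)) := ⟨_, rfl⟩
      obtain ⟨v, hv⟩ : ∃ v, v = vq D x Q (pm x i0 (j 0)) := ⟨_, rfl⟩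
      refine ⟨Q, hQ, i0, i 0, j 0, hi0', ?_⟩
      rw [← hu, ← hv]
      have h1 : Wsp F D x ⊔ Submodule.span K
          (Set.range (fun a => b a (pmx x i0 (i a))) ∪
            Set.range (fun a => b a (pmx x i0 (j a)))) = Submodule.span K
              (Set.range ![x, u, v]) := by
        rw [hWx]
        refine le_antisymm (sup_le ?_ ?_) ?_
        · rw [Submodule.span_le, Set.singleton_subset_iff]
          exact Submodule.subset_span ⟨0, rfl⟩
        · rw [Submodule.span_le]
          rintro _ (⟨a, rfl⟩ | ⟨a, rfl⟩)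
          · dsimp only
            have ha : a = 0 := Subsingleton.elim _ _
            rw [ha, hbi]
            exact Submodule.subset_span ⟨1, hu⟩
          · dsimp only
            have ha : a = 0 := Subsingleton.elim _ _
            rw [ha, hbi]
            exact Submodule.subset_span ⟨2, hv⟩
        · rw [Submodule.span_le]
          rintro _ ⟨κ, rfl⟩
          fin_cases κ
          · exact Submodule.mem_sup_left (Submodule.mem_span_singleton_self x)
          · refine Submodule.mem_sup_right (Submodule.subset_span (Or.inl ⟨0, ?_⟩))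
            dsimp only
            rw [hbi]
            exact hu.symm
          · refine Submodule.mem_sup_right (Submodule.subset_span (Or.inr ⟨0, ?_⟩))
            dsimp only
            rw [hbi]
            exact hv.symm
      rw [linearIndependent_iff_card_eq_finrank_span, Set.finrank, ← h1, hfin, ← hw, hw3,
        Fintype.card_fin]
    · right
      left
      obtain ⟨a, rn, y, i0, ik, hi0, hik, h⟩ := vrd_odd hpos hF hD hxC hxb hx0 hG (p := 0)
        (by rw [← hw]; omega)
      exact ⟨a, 0, 0, 1, rn, y, i0, ik, hi0, hik, h, Or.inr ⟨by omega, by omega⟩⟩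
    · right
      left
      obtain ⟨a, rn, y, i0, ik, hi0, hik, h⟩ := vrd_even hpos hF hD (by omega) hxC hxb hx0 hG
        (p := 0) (by rw [← hw]; omega)
      exact ⟨a, 0, 0, 0, rn, y, i0, ik, hi0, hik, h, Or.inl ⟨rfl, rfl, by omega⟩⟩
  · left
    unfold Good at hG
    push Not at hG
    obtain ⟨φ, hφ0, hφ⟩ := hG
    obtain ⟨y, hy, ik, hik⟩ := exists_pl hx0 hφ0
    rw [← Vl_eq F dg D hy, ← hN, ← hw] at hφ
    have hWV : w ≤ Module.finrank K (Vl F dg D x y) := by
      rw [hw]
      exact Submodule.finrank_mono le_sup_left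
    have hL := fun h1 h2 => on_line' hpos hF hD hcm hxC hxb hC hik h1 h2
    obtain ⟨v, hv⟩ : ∃ v, v = Module.finrank K (Vl F dg D x y) := ⟨_, rfl⟩
    rw [← hv] at hφ hWV
    rw [← hv, ← hw] at hL
    exact ⟨y, ik, hik, hL (by omega) (by omega)⟩

end alg

end Pool.Agent.NH27.B
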