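import Pool.Agent.NH27.B.Minors
import Pool.Agent.NH27.B.Tricho5
import Pool.Agent.Y741.LimX

/-!
The limits of the integral points, for the surfaces with a boundary of the smallest degree
(helper91, adapting Y741/LimX.lean and NH27/Q/LimQ.lean).
-/

set_option autoImplicit false

open MvPolynomial FF Pool.Agent.W603.LV Pool.Agent.W603.PV Pool.Agent.W602.RG Pool.Agent.TH145.GH
open Pool.Agent.TH145.GC (Gen)
open Pool.Agent.Y735 (pl fht hat_comm)
open Pool.Agent.Y741

namespace Pool.Agent.NH27.B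

/-- The echelon form over an extension. -/
theorem Ech.map {L M : Type} [Field L] [Field M] (ψ : L →+* M) {n : ℕ}
    {ι : Fin 3 → Fin (n + 1)} {p : Fin 3 → Fin (n + 1) → L} {x : Fin (n + 1) → L}
    (h : Ech ι p x) : Ech ι (fun i l => ψ (p i l)) (fun l => ψ (x l)) := by
  refine ⟨fun i j => ?_, fun l => ?_⟩
  · rw [h.ech i j]
    split_ifs
    · exact map_one ψ
    · exact map_zero ψ
  · conv_lhs => rw [h.eq l]
    rw [map_sum]
    exact Finset.sum_congr rfl fun i _ => map_mul ψ _ _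

variable {k0 K : Type} [Field k0] [Field K] [Algebra k0 K] [IsAlgClosed k0] [IsAlgClosed K]
  [CharZero K]

/-- The ratios of the minors of a limit point are algebraic. -/
theorem ratio_acl {n : ℕ} {A : Type} [Fintype A] [DecidableEq A] {dg : A → ℕ}
    (E : Subfield K) (hE : ∀ r : k0, algebraMap k0 K r ∈ E)
    {F : A → MvPolynomial (Fin (n + 1)) E} {DE : A → (Fin (n + 1) →₀ ℕ) → E → E}
    (hG : Gen F dg DE) (hpos : ∀ a, 0 < dg a)
    (D : A → (Fin (n + 1) →₀ ℕ) → Derivation ℤ K K)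
    (hDE : ∀ a I (x : E), D a I x = (DE a I x : K))
    (hDk : ∀ a I (r : k0), D a I (algebraMap k0 K r) = 0) {C : Finset A} (h2 : Bd2 n dg C)
    (e : Ri C Empty Unit Empty Empty ≃ Fin (n + 1))
    (z : Fin (n + 1) → Om K) (hz : ∀ j, z j ∈ OE k0 (E : Set K)) {i0 : Fin (n + 1)}
    (hi0 : z i0 ≠ 0)
    (hzC : ∀ a ∈ C, eval z (FOm F a) = 0) (hzn : ∀ a, a ∉ C → eval z (FOm F a) ≠ 0)
    (hint : ∀ a, a ∉ C → ∀ j, z j ^ dg a / eval z (FOm F a) ∈
      Subring.closure (Set.range (mapOm k0 K) ∪ cst K '' (E : Set K)))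
    {Q Q' : A → MvPolynomial (Fin (n + 1)) ℕ} (hQ : ∀ a, (Q a).IsHomogeneous (dg a - 1))
    (hQ' : ∀ a, (Q' a).IsHomogeneous (dg a - 1)) (a b c a' b' c' : Fin (n + 1)) {v : Om K}
    (hv : v ∈ OE k0 (E : Set K))
    (hne : DB dg (fun a I => hat (D a I)) e z i0 (nf (Om K) Q') a' b' c' ≠ 0)
    (hvd : v = DB dg (fun a I => hat (D a I)) e z i0 (nf (Om K) Q) a b c /
      DB dg (fun a I => hat (D a I)) e z i0 (nf (Om K) Q') a' b' c') :
    v ∈ acl (cst K '' (E : Set K)) := by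
  classical
  by_contra hv1
  have h0 : ∀ (a : A) (j : Fin (n + 1)), ∃ c : Finset (Om K),
      (c : Set (Om K)) ⊆ Set.range (mapOm k0 K) ∧ (a ∉ C →
      z j ^ dg a / eval z (FOm F a) ∈
        Subring.closure ((c : Set (Om K)) ∪ cst K '' (E : Set K))) := fun a j => by
    by_cases ha : a ∈ C
    · exact ⟨∅, by simp, fun h => absurd ha h⟩
    · obtain ⟨c, hc, h⟩ := fin_closure_ring (hint a ha j)
      exact ⟨c, hc, fun _ => h⟩
  choose c2 hc hcz' using h0
  obtain ⟨X, hX⟩ : ∃ X : Finset (Om K), X = Finset.univ.biUnion fun p : A × Fin (n + 1) =>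
    c2 p.1 p.2 := ⟨_, rfl⟩
  obtain ⟨zz, hzz⟩ : ∃ zz : Option (Fin (n + 1)) → Om K, zz = fun o => o.elim v z := ⟨_, rfl⟩
  have hzzOE : ∀ j, zz j ∈ OE k0 (E : Set K) := by
    rw [hzz]
    rintro (_ | j)
    · exact hv
    · exact hz j
  obtain ⟨κ, Λ, M, φ, D', hac, hFF, hzΛ, hzκ, hXM, hEκ, hφ, hD', hdat, hdich⟩ :=
    exists_rig_V E hE hG hpos D hDE hDk zz hzzOE X (by
      intro w hw
      rw [hX, Finset.mem_coe, Finset.mem_biUnion] at hw
      obtain ⟨p, -, hw⟩ := hw
      obtain ⟨u, hu⟩ := hc _ _ hw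
      exact ⟨u, hu⟩) none (by rw [hzz]; exact hv1)
  have hczOm : CharZero (Om K) :=
    charZero_of_injective_algebraMap (algebraMap K (Om K)).injective
  have hcz : CharZero κ := charZero_of_injective_algebraMap (algebraMap ℚ κ).injective
  have hzl : ∀ j, z j ∈ Λ := fun j => by
    have := hzΛ (some j)
    rwa [hzz] at this
  have hvκ : v ∉ κ := by rwa [hzz] at hzκ
  obtain ⟨x, hx⟩ : ∃ x : Fin (n + 1) → Λ, ∀ j, x j = ⟨z j, hzl j⟩ := ⟨_, fun _ => rfl⟩
  have hxz : (fun j => ((x j : Λ) : Om K)) = z := by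
    funext j
    rw [hx]
  have hi0' : x i0 ≠ 0 := by
    intro h0
    apply hi0
    rw [← congrFun hxz i0, h0]
    rfl
  have hx0 : x ≠ 0 := by
    intro h0
    apply hi0'
    rw [h0]
    rfl
  have hev : ∀ a, ((eval x (map φ (F a)) : Λ) : Om K) = eval z (FOm F a) := fun a => by
    rw [eval_lift φ hφ (F a) x, hxz]
    rfl
  have hxC : ∀ a ∈ C, eval x (map φ (F a)) = 0 := fun a ha => by
    apply Subtype.ext
    rw [hev, hzC a ha]
    rfl
  have hxF : ∀ a, a ∉ C → eval x (map φ (F a)) ≠ 0 := by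
    intro a ha h0
    have h1 := hev a
    rw [h0] at h1
    exact hzn a ha h1.symm
  have hP := rig_PlOK (dg := dg) (F := F) (C := C) (z := z) X (fun a ha j => by
      refine Subring.closure_mono (Set.union_subset_union_left _ ?_) (hcz' a j ha)
      intro w hw
      rw [hX, Finset.mem_coe, Finset.mem_biUnion]
      exact ⟨(a, j), Finset.mem_univ _, hw⟩) hac hFF hXM hEκ hφ hdich hxz hx0 hxF
  let ψ : Λ →+* Om K := algebraMap Λ (Om K)
  have hcmp : Cmp ψ D' (fun a I => hat (D a I)) := fun a I z => (hD' a I z).symm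
  have hψx : (fun j => ψ (x j)) = z := hxz
  have hDB : ∀ (Q : A → MvPolynomial (Fin (n + 1)) ℕ) (a b c : Fin (n + 1)),
      DB dg (fun a I => hat (D a I)) e z i0 (nf (Om K) Q) a b c =
      ψ (DB dg D' e x i0 (nf Λ Q) a b c) := by
    intro Q a b c
    rw [← hψx, ← mapF_nf ψ Q]
    exact DB_map e hcmp x i0 (nf Λ Q) a b c
  have hne' : DB dg D' e x i0 (nf Λ Q') a' b' c' ≠ 0 := by
    intro h0
    apply hne
    rw [hDB, h0, map_zero]
  have h1 := ratio_DB hdat h2.card h2.sum hxC hxF hP hi0'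
    (Q := nf Λ Q) (Q' := nf Λ Q') ⟨fun a => nf_hom hQ a, fun a => nf_nc Q a⟩
    ⟨fun a => nf_hom hQ' a, fun a => nf_nc Q' a⟩ a b c a' b' c' hne'
  have h2 : CL (k := κ) (K := Λ) n A (fun _ => 0) (fun _ => 0) = 0 := by
    unfold CL
    simp only [add_zero, mul_zero, finsum_zero]
  rw [h2] at h1
  obtain ⟨c0, hc0⟩ := const_of_hgt h1
  apply hvκ
  rw [hvd, hDB, hDB, ← map_div₀, hc0]
  exact c0.2

/-- I -/
theorem limit_B {n : ℕ} {A : Type} [Fintype A] [DecidableEq A] {dg : A → ℕ}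
    (E : Subfield K) (hE : ∀ r : k0, algebraMap k0 K r ∈ E)
    {F : A → MvPolynomial (Fin (n + 1)) E} {DE : A → (Fin (n + 1) →₀ ℕ) → E → E}
    (hG : Gen F dg DE) (hpos : ∀ a, 0 < dg a)
    (D : A → (Fin (n + 1) →₀ ℕ) → Derivation ℤ K K)
    (hDE : ∀ a I (x : E), D a I x = (DE a I x : K))
    (hDk : ∀ a I (r : k0), D a I (algebraMap k0 K r) = 0) (hcm : Comm D)
    {C : Finset A} (h2 : Bd2 n dg C)
    (z : Fin (n + 1) → Om K) (hz : ∀ j, z j ∈ OE k0 (E : Set K)) {l0 : Fin (n + 1)}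
    (hl0 : z l0 = 1)
    (hzC : ∀ a ∈ C, eval z (FOm F a) = 0) (hzn : ∀ a, a ∉ C → eval z (FOm F a) ≠ 0)
    (hint : ∀ a, a ∉ C → ∀ j, z j ^ dg a / eval z (FOm F a) ∈
      Subring.closure (Set.range (mapOm k0 K) ∪ cst K '' (E : Set K))) :
    (∃ (y : Fin (n + 1) → Om K) (ik : Fin (n + 1) × Fin (n + 1)), pl z y ik ≠ 0 ∧
      OnL (FOm F) C z y ∧ One (FOm F) dg C z y) ∨
    (∀ j, z j ∈ acl (cst K '' (E : Set K))) ∨
    (∃ (y : Fin (n + 1) → Om K) (ik : Fin (n + 1) × Fin (n + 1)), pl z y ik ≠ 0 ∧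
      ∀ q, pl z y q / pl z y ik ∈ acl (cst K '' (E : Set K))) ∨
    ∃ (ι : Fin 3 → Fin (n + 1)) (p : Fin 3 → Fin (n + 1) → Om K), Ech ι p z ∧
      ∀ i l, p i l ∈ acl (cst K '' (E : Set K)) := by
  classical
  have hczOm : CharZero (Om K) :=
    charZero_of_injective_algebraMap (algebraMap K (Om K)).injective
  obtain ⟨O, hO⟩ : ∃ O : Subfield (Om K), O = OE k0 (E : Set K) := ⟨_, rfl⟩
  have hczO : CharZero O := charZero_of_injective_algebraMap (algebraMap ℚ O).injective
  have hEO : ∀ x ∈ E, cst K x ∈ O := fun x hx => by rw [hO]; exact cst_mem_OE hx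
  let φ : E →+* O :=
    { toFun := fun x => ⟨cst K x, hEO x x.2⟩
      map_one' := Subtype.ext (map_one (cst K))
      map_mul' := fun a b => Subtype.ext (map_mul (cst K) (a : K) b)
      map_zero' := Subtype.ext (map_zero (cst K))
      map_add' := fun a b => Subtype.ext (map_add (cst K) (a : K) b) }
  have hDO : ∀ a I, ∀ w ∈ O, hat (D a I) w ∈ O := fun a I => by
    rw [hO]
    exact hat_OE (fun x hx => by rw [hDE a I ⟨x, hx⟩]; exact (DE a I ⟨x, hx⟩).2) (hDk a I)
  let D' : A → (Fin (n + 1) →₀ ℕ) → Derivation ℤ O O := fun a I =>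
    resS O (hat (D a I)) (hDO a I)
  let ψ : O →+* Om K := O.subtype
  have hcmp : Cmp ψ D' (fun a I => hat (D a I)) := fun a I z => rfl
  have hψF : mapF ψ (fun a => map φ (F a)) = FOm F := by
    funext a
    unfold mapF FOm
    rw [map_map]
    rfl
  have hF' : ∀ a, (map φ (F a)).IsHomogeneous (dg a) := fun a => (hG.hom a).map φ
  have hD1 : ∀ a I x, D' a I (φ x) = φ (DE a I x) := fun a I x => by
    apply Subtype.ext
    change hat (D a I) (cst K x) = cst K (DE a I x)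
    rw [hat_cst, hDE]
  have hdual : TH145.GC.Dual (fun a => map φ (F a)) dg D' := fun a b I J hI hJ => by
    rw [coeff_map, hD1]
    exact ⟨fun hab hIJ => by rw [(hG.dual a b I J hI hJ).1 hab hIJ, map_one],
      fun hIJ => by rw [(hG.dual a b I J hI hJ).2 hIJ, map_zero]⟩
  have hdual' : TH145.GC.Dual (FOm F) dg (fun a I => hat (D a I)) := fun a b I J hI hJ => by
    have h1 : (FOm F b).coeff J = cst K ((F b).coeff J : E) := by
      unfold FOm
      rw [coeff_map]
      rfl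
    rw [h1, hat_cst, hDE]
    exact ⟨fun hab hIJ => by rw [(hG.dual a b I J hI hJ).1 hab hIJ]; exact map_one _,
      fun hIJ => by rw [(hG.dual a b I J hI hJ).2 hIJ]; exact map_zero _⟩
  have hcm' : Comm D' := fun a I b J f => by
    apply Subtype.ext
    exact hat_comm (hcm a I b J) _
  obtain ⟨x, hx⟩ : ∃ x : Fin (n + 1) → O, ∀ j, x j = ⟨z j, by rw [hO]; exact hz j⟩ :=
    ⟨_, fun _ => rfl⟩
  have hxz : (fun j => ψ (x j)) = z := by
    funext j
    rw [hx]
    rfl
  have hx0 : x ≠ 0 := by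
    intro h0
    have h1 := congrFun hxz l0
    rw [h0, hl0] at h1
    have h2 : ψ ((0 : Fin (n + 1) → O) l0) = 0 := map_zero ψ
    rw [h2] at h1
    exact zero_ne_one h1
  have hev : ∀ a, ψ (eval x (map φ (F a))) = eval z (FOm F a) := fun a => by
    rw [← hψF, ← hxz]
    exact (eval_mapF ψ _ x).symm
  have hxC : ∀ a ∈ C, eval x (map φ (F a)) = 0 := fun a ha => by
    apply ψ.injective
    rw [hev, hzC a ha, map_zero]
  have hxF : ∀ a, a ∉ C → eval x (map φ (F a)) ≠ 0 := by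
    intro a ha h0
    have h1 := hev a
    rw [h0, map_zero] at h1
    exact hzn a ha h1.symm
  rcases tricho5 hpos hF' hdual hcm' h2 hxC hxF hx0 with h | h | h
  · obtain ⟨y, ik, hik, h1, h2⟩ := h
    left
    refine ⟨fun j => ψ (y j), ik, ?_, ?_, ?_⟩
    · rw [← hxz, pl_map]
      dsimp only
      rw [Ne, map_eq_zero]
      exact hik
    · have h3 := (onL_mapF ψ hF' hxC).2 h1
      rwa [hψF, hxz] at h3
    · have h3 := one_mapF ψ h2
      rwa [hψF, hxz] at h3
  · right
    obtain ⟨w, b, u, t, rn, y, i0, ik, hi0, hik, hV, hcase⟩ := h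
    obtain ⟨y', hy'⟩ : ∃ y' : Fin (n + 1) → Om K, y' = fun j => ψ (y j) := ⟨_, rfl⟩
    have hV' := VRD.up hcmp hF' hdual (by rw [hψF]; exact hdual') hxC hx0 hik hV
    rw [hψF, hxz, ← hy'] at hV'
    have hi0' : z i0 ≠ 0 := by
      rw [← hxz]
      dsimp only
      rw [Ne, map_eq_zero]
      exact hi0
    have hik' : pl z y' ik ≠ 0 := by
      rw [← hxz, hy', pl_map]
      dsimp only
      rw [Ne, map_eq_zero]
      exact hik
    have hyO : ∀ j, y' j ∈ OE k0 (E : Set K) := fun j => by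
      rw [hy', ← hO]
      exact (y j).2
    have key := fun (v : Om K) hv hv1 => rig_use E hE hG hpos D hDE hDk z y' hz hyO hzC hzn hint
      hi0' hik' hV' (v := v) hv hv1
    rcases hcase with ⟨hu, ht, hS⟩ | ⟨hS, hut⟩
    · left
      intro j
      by_contra hj
      obtain ⟨κ, Λ, x1, y1, hac, hFF, hx1, hy1, hvκ, h1⟩ := key (z j) (hz j) hj
      have hcz : CharZero κ := charZero_of_injective_algebraMap (algebraMap ℚ κ).injective
      rw [hu, ht, Nat.cast_zero, sub_zero, zero_mul, add_zero] at h1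
      have h2 : pht κ x1 ≤ 0 := by
        have h3 : (1 : ℤ) ≤ ((∑ a, dg a : ℕ) : ℤ) - ((n + 1 + b + 0 : ℕ) : ℤ) := by omega
        by_contra hcon
        push Not at hcon
        nlinarith
      have hxl0 : x1 l0 = 1 := by
        apply Subtype.ext
        rw [hx1, hl0]
        rfl
      obtain ⟨c, hc⟩ := const_of_pht h2 hxl0 j
      apply hvκ
      rw [← hx1 j, hc]
      exact c.2
    · right
      left
      refine ⟨y', ik, hik', fun q => ?_⟩
      by_contra hq
      have hqO : pl z y' q / pl z y' ik ∈ OE k0 (E : Set K) := by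
        unfold pl
        exact div_mem (sub_mem (mul_mem (hz _) (hyO _)) (mul_mem (hz _) (hyO _)))
          (sub_mem (mul_mem (hz _) (hyO _)) (mul_mem (hz _) (hyO _)))
      obtain ⟨κ, Λ, x1, y1, hac, hFF, hx1, hy1, hvκ, h1⟩ := key _ hqO hq
      have hcz : CharZero κ := charZero_of_injective_algebraMap (algebraMap ℚ κ).injective
      have hpl : ∀ q, ((pl x1 y1 q : Λ) : Om K) = pl z y' q := fun q => by
        unfold pl
        rw [← hx1, ← hx1, ← hy1, ← hy1]
        rfl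
      have hik1 : pl x1 y1 ik ≠ 0 := by
        intro h0
        apply hik'
        rw [← hpl, h0]
        rfl
      have hx10 : x1 ≠ 0 := by
        intro h0
        have h2 := hx1 l0
        rw [h0, hl0] at h2
        exact zero_ne_one h2
      have h2 := pht_nonneg (k := κ) hx10
      have h3 : fht κ (pl x1 y1) ≤ 0 := by
        have h4 : (0 : ℤ) ≤ ((∑ a, dg a : ℕ) : ℤ) - ((n + 1 + b + t : ℕ) : ℤ) := by omega
        have h5 : (1 : ℤ) ≤ (t : ℤ) - u := by omega
        by_contra hcon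
        push Not at hcon
        have h6 := mul_nonneg h4 h2
        nlinarith
      obtain ⟨c, hc⟩ := const_of_fht hik1 h3 q
      apply hvκ
      rw [← hpl, ← hpl]
      have h4 := congrArg (fun w : Λ => (w : Om K)) hc
      change ((pl x1 y1 q : Λ) : Om K) / ((pl x1 y1 ik : Λ) : Om K) = (c : Om K) at h4
      rw [h4]
      exact c.2
  · -- the remaining case
    right
    right
    right
    obtain ⟨e⟩ := exists_E h2.card
    obtain ⟨Q, hQ, ι, hι, hne⟩ := exists_DB_ne (E := e) hpos hF' hdual h2.card hxC h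
    obtain ⟨Q0, hQ0, hQ1⟩ := exists_nf hQ
    have hech := (ech_DB (E := e) hne).map ψ
    rw [hxz] at hech
    refine ⟨ι, fun i l => ψ (pB dg D' e x (ι 0) Q ι i l), hech, fun i l => ?_⟩
    have hDB : ∀ a b c : Fin (n + 1), DB dg (fun a I => hat (D a I)) e z (ι 0) (nf (Om K) Q0) a b c =
        ψ (DB dg D' e x (ι 0) Q a b c) := by
      intro a b c
      rw [← hxz, ← mapF_nf ψ Q0, hQ1]
      exact DB_map e hcmp x (ι 0) Q a b c
    refine ratio_acl (i0 := ι 0) E hE hG hpos D hDE hDk h2 e z hz ?_ hzC hzn hint hQ0 hQ0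
      (Function.update ι i l 0) (Function.update ι i l 1) (Function.update ι i l 2)
      (ι 0) (ι 1) (ι 2) ?_ ?_ ?_
    · rw [← hxz]
      dsimp only
      rw [Ne, map_eq_zero]
      exact hι
    · rw [← hO]
      exact (pB dg D' e x (ι 0) Q ι i l).2
    · rw [hDB, Ne, map_eq_zero]
      exact hne
    · rw [hDB, hDB, ← map_div₀]
      rfl

end Pool.Agent.NH27.B
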