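import Pool.Agent.NH27.B.Defs
import Pool.Agent.NH27.Q.FinConic
import Pool.Agent.Y741.MainV

/-!
Finiteness of points over finitely generated rings on a plane that is not contained in one of the
quadrics.
-/

set_option autoImplicit false

open MvPolynomial FF Pool.Agent.W603.LV Pool.Agent.W603.PV Pool.Agent.W602.RG Pool.Agent.TH145.GH
open Pool.Agent.TH145.GC (Cf)
open Pool.Agent.Y735.S (pe)
open Pool.Agent.Y741
open LinearAlgebra.Projectivization

namespace Pool.Agent.NH27.B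

/-- The parametrisation does not vanish. -/
theorem cvn_ne {K : Type} [Field K] {n : ℕ} {ψ : Fin (n + 1) → Fin 3 → K}
    (hψ : Inj ψ) {s t : K} (h : ¬ (s = 0 ∧ t = 0)) : cvn ψ s t ≠ 0 := by
  intro h0
  have h1 := hψ ![s ^ 2, s * t, t ^ 2] (fun l => by
    have h2 := congrFun h0 l
    simp only [cvn, Pi.zero_apply] at h2
    simp only [Fin.sum_univ_three, Matrix.cons_val_zero, Matrix.cons_val_one, Matrix.cons_val]
    exact h2)
  have h2 := congrFun h1 0
  have h3 := congrFun h1 2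
  simp only [Matrix.cons_val_zero, Matrix.cons_val, Pi.zero_apply] at h2 h3
  exact h ⟨pow_eq_zero_iff (two_ne_zero) |>.1 h2, pow_eq_zero_iff (two_ne_zero) |>.1 h3⟩

/-- Evaluation of the form on the conic. -/
theorem eval_cvn {K : Type} [Field K] {n d : ℕ} {F : MvPolynomial (Fin (n + 1)) K}
    (hF : F.IsHomogeneous d) (ψ : Fin (n + 1) → Fin 3 → K) (z t : K) :
    eval (cvn ψ (z * t) t) F = t ^ (2 * d) * (aeval (pe ψ) F).eval z := by
  have h1 : cvn ψ (z * t) t = fun l => t ^ 2 * ((pe ψ l).eval z) := by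
    funext l
    simp only [cvn, pe, Polynomial.eval_add, Polynomial.eval_mul,
      Polynomial.eval_C, Polynomial.eval_pow, Polynomial.eval_X]
    ring
  have h2 : (aeval (pe ψ) F).eval z = eval (fun l => (pe ψ l).eval z) F := by
    rw [← Polynomial.coe_evalRingHom, MvPolynomial.aeval_def, MvPolynomial.hom_eval₂,
      MvPolynomial.eval, MvPolynomial.coe_eval₂Hom]
    congr 1
    ext x
    simp
  rw [h2, h1]
  have h3 : (fun l => t ^ 2 * ((pe ψ l).eval z)) =
      (t ^ 2) • (fun l => (pe ψ l).eval z) := rfl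
  rw [h3, eval_smul_hom hF, ← pow_mul]

/-- The quotients `z ^ i / φ z`. -/
theorem pow_div_mem {K : Type} [Field K] {n β : ℕ} {F : MvPolynomial (Fin (n + 1)) K}
    (hF : F.IsHomogeneous β) {ψ : Fin (n + 1) → Fin 3 → K} {θ : Fin 3 → Fin (n + 1) → K}
    (hθ : ∀ (v : Fin 3 → K) (i : Fin 3), ∑ l, θ i l * ∑ j, ψ l j * v j = v i)
    {R : Subring K} (hθR : ∀ i l, θ i l ∈ R) {c z t : K} {x : Fin (n + 1) → K}
    (hx : x = c • cvn ψ (z * t) t) (hc : c ≠ 0) (ht : t ≠ 0) (hxF : eval x F ≠ 0)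
    (hint : ∀ I : Fin (n + 1) →₀ ℕ, I.degree = β → (∏ i, x i ^ I i) / eval x F ∈ R)
    {i : ℕ} (hi : i ≤ 2 * β) :
    z ^ i / (aeval (pe ψ) F).eval z ∈ R := by
  obtain ⟨f, hf⟩ : ∃ f, f = (aeval (pe ψ) F).eval z := ⟨_, rfl⟩
  rw [← hf]
  have hFx : eval x F = c ^ β * (t ^ (2 * β) * f) := by
    rw [hx, eval_smul_hom hF, eval_cvn hF, hf]
  have hf0 : f ≠ 0 := by
    rintro rfl
    rw [hFx] at hxF
    simp at hxF
  have hlin : ∀ k : Fin 3, ∑ l, θ k l * x l = c * (![(z * t) ^ 2, (z * t) * t, t ^ 2] k) := by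
    intro k
    have h1 := hθ ![(z * t) ^ 2, (z * t) * t, t ^ 2] k
    rw [← h1, Finset.mul_sum]
    refine Finset.sum_congr rfl fun l _ => ?_
    rw [hx]
    simp only [Pi.smul_apply, smul_eq_mul, cvn, Fin.sum_univ_three, Matrix.cons_val_zero,
      Matrix.cons_val_one, Matrix.cons_val]
    ring
  have e0 := hlin 0
  have e1 := hlin 1
  have e2 := hlin 2
  simp only [Matrix.cons_val_zero, Matrix.cons_val_one, Matrix.cons_val] at e0 e1 e2
  rcases le_total i β with h4 | h4
  · have h1 := wt hint (hθR 1) (hθR 2) (β - i) i 0 (by rw [map_zero]; omega)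
    rw [e1, e2, hFx] at h1
    convert h1 using 1
    simp only [Finsupp.coe_zero, Pi.zero_apply, pow_zero, Finset.prod_const_one, mul_one]
    rw [div_eq_div_iff hf0 (by positivity)]
    obtain ⟨k, rfl⟩ := Nat.exists_eq_add_of_le h4
    rw [Nat.add_sub_cancel_left]
    ring
  · have h1 := wt hint (hθR 0) (hθR 1) (2 * β - i) (i - β) 0 (by rw [map_zero]; omega)
    rw [e0, e1, hFx] at h1
    convert h1 using 1
    simp only [Finsupp.coe_zero, Pi.zero_apply, pow_zero, Finset.prod_const_one, mul_one]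
    rw [div_eq_div_iff hf0 (by positivity)]
    obtain ⟨k, rfl⟩ := Nat.exists_eq_add_of_le h4
    obtain ⟨m, hm⟩ := Nat.exists_eq_add_of_le (show k ≤ β by omega)
    have h5 : 2 * β - (β + k) = m := by omega
    rw [Nat.add_sub_cancel_left, h5, hm]
    ring

/-- The quotients of polynomials. -/
theorem eval_div_mem {K : Type} [Field K] {R : Subring K} {z f : K} {N : ℕ}
    (h : ∀ i ≤ N, z ^ i / f ∈ R) {Q : Polynomial K} (hQ : ∀ i, Q.coeff i ∈ R)
    (hdeg : Q.natDegree ≤ N) : Q.eval z / f ∈ R := by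
  rw [Polynomial.eval_eq_sum_range' (Nat.lt_succ_of_le hdeg), Finset.sum_div]
  refine sum_mem fun i hi => ?_
  rw [mul_div_assoc]
  exact mul_mem (hQ i) (h i (Nat.lt_succ_iff.1 (Finset.mem_range.1 hi)))

/-- The quotients of linear factors. -/
theorem exists_quot {K : Type} [Field K] {N : ℕ} (φ : Polynomial K) (h8 : φ.natDegree ≤ N)
    (h0 : φ ≠ 0) {a b : K} (hb : φ.eval b = 0) :
    ∃ Z : Finset K, ∀ R : Subring K, (∀ z ∈ Z, z ∈ R) → ∀ z : K, φ.eval z ≠ 0 →
      (∀ i ≤ N, z ^ i / φ.eval z ∈ R) → (z - a) / (z - b) ∈ R := by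
  classical
  obtain ⟨ψ, hψ⟩ := Polynomial.dvd_iff_isRoot.2 hb
  refine ⟨((Polynomial.X - Polynomial.C a) * ψ).coeffs, fun R hR z hz hi => ?_⟩
  have hψ0 : ψ ≠ 0 := by
    rintro rfl
    rw [mul_zero] at hψ
    exact h0 hψ
  have hdeg : ((Polynomial.X - Polynomial.C a) * ψ).natDegree ≤ N := by
    rw [Polynomial.natDegree_mul (Polynomial.X_sub_C_ne_zero a) hψ0, Polynomial.natDegree_X_sub_C]
    rw [hψ, Polynomial.natDegree_mul (Polynomial.X_sub_C_ne_zero b) hψ0,
      Polynomial.natDegree_X_sub_C] at h8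
    exact h8
  have h1 := eval_div_mem hi (Q := (Polynomial.X - Polynomial.C a) * ψ) (fun i => by
    by_cases hk : ((Polynomial.X - Polynomial.C a) * ψ).coeff i = 0
    · rw [hk]; exact zero_mem _
    · exact hR _ (Polynomial.coeff_mem_coeffs hk)) hdeg
  convert h1 using 1
  have h2 : φ.eval z = (z - b) * ψ.eval z := by
    conv_lhs => rw [hψ]
    simp
  rw [h2] at hz ⊢
  have h3 := left_ne_zero_of_mul hz
  have h4 := right_ne_zero_of_mul hz
  rw [Polynomial.eval_mul, Polynomial.eval_sub, Polynomial.eval_X, Polynomial.eval_C]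
  rw [mul_div_mul_right _ _ h4]

/-- The left inverse. -/
theorem exists_inv {K : Type} [Field K] {n : ℕ} {ψ : Fin (n + 1) → Fin 3 → K}
    (hψ : Inj ψ) :
    ∃ θ : Fin 3 → Fin (n + 1) → K,
      ∀ (v : Fin 3 → K) (i : Fin 3), ∑ l, θ i l * ∑ j, ψ l j * v j = v i := by
  classical
  obtain ⟨M, hM⟩ : ∃ M : (Fin 3 → K) →ₗ[K] (Fin (n + 1) → K),
      ∀ v, M v = fun l => ∑ j, ψ l j * v j :=
    ⟨Matrix.mulVecLin (Matrix.of ψ), fun v => by
      funext l
      simp [Matrix.mulVecLin, Matrix.mulVec, dotProduct]⟩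
  have hker : LinearMap.ker M = ⊥ := by
    rw [LinearMap.ker_eq_bot']
    intro v hv
    refine hψ v fun l => ?_
    have h1 := congrFun hv l
    rw [hM] at h1
    exact h1
  obtain ⟨g, hg⟩ := LinearMap.exists_leftInverse_of_injective M hker
  refine ⟨fun i l => g (Pi.single l 1) i, fun v i => ?_⟩
  have h1 : g (M v) = v := by
    have := congrArg (fun f : (Fin 3 → K) →ₗ[K] (Fin 3 → K) => f v) hg
    simpa using this
  have h2 : M v = ∑ l, (∑ j, ψ l j * v j) • (Pi.single l 1 : Fin (n + 1) → K) := by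
    rw [hM]
    funext m
    rw [Finset.sum_apply, Finset.sum_eq_single m]
    · simp
    · intro l _ hl
      rw [Pi.smul_apply, Pi.single_eq_of_ne hl.symm, smul_zero]
    · intro h
      exact absurd (Finset.mem_univ _) h
  rw [h2, map_sum] at h1
  have h3 := congrFun h1 i
  rw [Finset.sum_apply] at h3
  rw [← h3]
  refine Finset.sum_congr rfl fun l _ => ?_
  rw [map_smul, Pi.smul_apply, smul_eq_mul, mul_comm]

theorem pe_deg {K : Type} [Field K] {n : ℕ} (ψ : Fin (n + 1) → Fin 3 → K) (l : Fin (n + 1)) :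
    (pe ψ l).natDegree ≤ 2 := by
  unfold pe
  exact Polynomial.natDegree_quadratic_le

theorem pe_coeff {K : Type} [Field K] {n : ℕ} (ψ : Fin (n + 1) → Fin 3 → K)
    (l : Fin (n + 1)) : (pe ψ l).coeff 2 = ψ l 0 := by
  unfold pe
  simp

theorem prod_deg {K : Type} [Field K] {n : ℕ} (ψ : Fin (n + 1) → Fin 3 → K)
    (e : Fin (n + 1) → ℕ) (S : Finset (Fin (n + 1))) :
    (∏ l ∈ S, pe ψ l ^ e l).natDegree ≤ 2 * ∑ l ∈ S, e l ∧
    (∏ l ∈ S, pe ψ l ^ e l).coeff (2 * ∑ l ∈ S, e l) = ∏ l ∈ S, ψ l 0 ^ e l := by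
  classical
  induction S using Finset.induction_on with
  | empty => simp
  | insert a S ha ih =>
    rw [Finset.prod_insert ha, Finset.prod_insert ha, Finset.sum_insert ha]
    have h1 : (pe ψ a ^ e a).natDegree ≤ 2 * e a := by
      rw [mul_comm]
      exact Polynomial.natDegree_pow_le_of_le _ (pe_deg ψ a)
    have h2 : (pe ψ a ^ e a).coeff (2 * e a) = ψ a 0 ^ e a := by
      rw [mul_comm, Polynomial.coeff_pow_of_natDegree_le (pe_deg ψ a), pe_coeff]
    refine ⟨?_, ?_⟩
    · rw [mul_add]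
      exact Polynomial.natDegree_mul_le_of_le h1 ih.1
    · rw [mul_add, Polynomial.coeff_mul_add_eq_of_natDegree_le h1 ih.1, h2, ih.2]

theorem aeval_pe_sum {K : Type} [Field K] {n : ℕ} (F : MvPolynomial (Fin (n + 1)) K)
    (ψ : Fin (n + 1) → Fin 3 → K) :
    aeval (pe ψ) F =
      ∑ d ∈ F.support, Polynomial.C (F.coeff d) * ∏ l, pe ψ l ^ d l := by
  rw [MvPolynomial.aeval_def, MvPolynomial.eval₂_eq']
  rfl

/-- Degree of the restriction. -/
theorem natDegree_aeval_pe {K : Type} [Field K] {n β : ℕ} {F : MvPolynomial (Fin (n + 1)) K}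
    (hF : F.IsHomogeneous β) (ψ : Fin (n + 1) → Fin 3 → K) :
    (aeval (pe ψ) F).natDegree ≤ 2 * β := by
  rw [aeval_pe_sum]
  refine Polynomial.natDegree_sum_le_of_forall_le _ _ fun d hd => ?_
  have h1 : ∑ l, d l = β := by
    rw [← Finsupp.degree_eq_sum]
    exact deg_of_mem hF hd
  have h2 := (prod_deg ψ d Finset.univ).1
  rw [h1] at h2
  exact (Polynomial.natDegree_C_mul_le _ _).trans h2

theorem coeff_aeval_pe {K : Type} [Field K] {n β : ℕ} {F : MvPolynomial (Fin (n + 1)) K}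
    (hF : F.IsHomogeneous β) (ψ : Fin (n + 1) → Fin 3 → K) :
    (aeval (pe ψ) F).coeff (2 * β) = eval (fun l => ψ l 0) F := by
  rw [aeval_pe_sum, Polynomial.finsetSum_coeff, MvPolynomial.eval_eq']
  refine Finset.sum_congr rfl fun d hd => ?_
  have h1 : ∑ l, d l = β := by
    rw [← Finsupp.degree_eq_sum]
    exact deg_of_mem hF hd
  have h2 := (prod_deg ψ d Finset.univ).2
  rw [h1] at h2
  rw [Polynomial.coeff_C_mul, h2]

theorem eval_cvn_zero {K : Type} [Field K] {n d : ℕ} {F : MvPolynomial (Fin (n + 1)) K}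
    (hF : F.IsHomogeneous d) (ψ : Fin (n + 1) → Fin 3 → K) (s : K) :
    eval (cvn ψ s 0) F = s ^ (2 * d) * (aeval (pe ψ) F).coeff (2 * d) := by
  have h1 : cvn ψ s 0 = (s ^ 2) • (fun l => ψ l 0) := by
    funext l
    simp only [cvn, Pi.smul_apply, smul_eq_mul]
    ring
  rw [coeff_aeval_pe hF, h1, eval_smul_hom hF, ← pow_mul]

/-- Finiteness when there are three zeros. -/
theorem conicU_aux {K : Type} [Field K] [IsAlgClosed K] [CharZero K] {n β : ℕ}
    {F : MvPolynomial (Fin (n + 1)) K} (hF : F.IsHomogeneous β)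
    {ψ : Fin (n + 1) → Fin 3 → K} (hψ : Inj ψ)
    {a b e : K} (hab : a ≠ b) (hae : a ≠ e) (hbe : b ≠ e)
    (ha : (aeval (pe ψ) F).eval a = 0)
    (hb : (aeval (pe ψ) F).eval b = 0)
    (he : (aeval (pe ψ) F).eval e = 0)
    (h0 : aeval (pe ψ) F ≠ 0)
    (T : Finset K) :
    {p | p ∈ RPts (fun _ : Unit => F) (fun _ => β) ∅ (Subring.closure (T : Set K)) ∧
      ∃ c s t : K, p.rep = c • cvn ψ s t}.Finite := by
  classical
  obtain ⟨φ, hφ⟩ : ∃ φ, φ = aeval (pe ψ) F := ⟨_, rfl⟩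
  have h8 := natDegree_aeval_pe hF ψ
  rw [← hφ] at ha hb he h0 h8
  obtain ⟨θ, hθ⟩ := exists_inv hψ
  obtain ⟨Z1, hZ1⟩ := exists_quot φ h8 h0 (a := a) hb
  obtain ⟨Z2, hZ2⟩ := exists_quot φ h8 h0 (a := b) ha
  obtain ⟨Z3, hZ3⟩ := exists_quot φ h8 h0 (a := a) he
  obtain ⟨Z4, hZ4⟩ := exists_quot φ h8 h0 (a := e) ha
  obtain ⟨Z5, hZ5⟩ : ∃ Z5 : Finset K,
    (e - a) / (e - b) ∈ Z5 ∧ (e - b) / (e - a) ∈ Z5 ∧ (a - b) / (e - b) ∈ Z5 ∧
      (e - b) / (a - b) ∈ Z5 :=
    ⟨{(e - a) / (e - b), (e - b) / (e - a), (a - b) / (e - b), (e - b) / (a - b)},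
      by simp, by simp, by simp, by simp⟩
  obtain ⟨Z6, hZ6⟩ : ∃ Z6 : Finset K, ∀ i l, θ i l ∈ Z6 :=
    ⟨Finset.univ.image fun x : Fin 3 × Fin (n + 1) => θ x.1 x.2, fun i l =>
      Finset.mem_image_of_mem (fun x : Fin 3 × Fin (n + 1) => θ x.1 x.2)
        (Finset.mem_univ (i, l))⟩
  obtain ⟨Z, hZ⟩ : ∃ Z, Z = T ∪ (Z1 ∪ (Z2 ∪ (Z3 ∪ (Z4 ∪ (Z5 ∪ Z6))))) := ⟨_, rfl⟩
  obtain ⟨R, hR⟩ : ∃ R : Subring K, R = Subring.closure (Z : Set K) := ⟨_, rfl⟩
  have hZR : ∀ z ∈ Z, z ∈ R := by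
    intro z hz
    rw [hR]
    exact Subring.subset_closure (Finset.mem_coe.2 hz)
  have hTR : Subring.closure (T : Set K) ≤ R := by
    rw [Subring.closure_le]
    intro z hz
    refine hZR z ?_
    rw [hZ]
    exact Finset.mem_union_left _ hz
  have m1 : ∀ z ∈ Z1, z ∈ R := fun z hz => hZR z (by
    rw [hZ]; simp only [Finset.mem_union]; tauto)
  have m2 : ∀ z ∈ Z2, z ∈ R := fun z hz => hZR z (by
    rw [hZ]; simp only [Finset.mem_union]; tauto)
  have m3 : ∀ z ∈ Z3, z ∈ R := fun z hz => hZR z (by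
    rw [hZ]; simp only [Finset.mem_union]; tauto)
  have m4 : ∀ z ∈ Z4, z ∈ R := fun z hz => hZR z (by
    rw [hZ]; simp only [Finset.mem_union]; tauto)
  have m5 : ∀ z ∈ Z5, z ∈ R := fun z hz => hZR z (by
    rw [hZ]; simp only [Finset.mem_union]; tauto)
  have m6 : ∀ z ∈ Z6, z ∈ R := fun z hz => hZR z (by
    rw [hZ]; simp only [Finset.mem_union]; tauto)
  have hUR := (uf : UF K) Z
  rw [← hR] at hUR
  obtain ⟨κ, hκ⟩ : ∃ κ, κ = (e - a) / (e - b) := ⟨_, rfl⟩
  have hea : e - a ≠ 0 := sub_ne_zero.2 hae.symm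
  have heb : e - b ≠ 0 := sub_ne_zero.2 hbe.symm
  have hab' : a - b ≠ 0 := sub_ne_zero.2 hab
  have hκ0 : κ ≠ 0 := by rw [hκ]; exact div_ne_zero hea heb
  have hn1 : cvn ψ 1 0 ≠ 0 := cvn_ne hψ (by simp)
  have hn2 : ∀ z, cvn ψ z 1 ≠ 0 := fun z => cvn_ne hψ (by simp)
  refine ((Set.finite_singleton (Projectivization.mk K (cvn ψ 1 0) hn1)).union
    (hUR.image fun X => Projectivization.mk K (cvn ψ ((b - a * (X / κ)) / (1 - X / κ)) 1)
      (hn2 _))).subset ?_
  rintro p ⟨⟨-, hp⟩, c, s, t, hrep⟩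
  have hp1 := hp () (by simp)
  have hc : c ≠ 0 := by
    rintro rfl
    rw [zero_smul] at hrep
    exact p.rep_nonzero hrep
  by_cases ht : t = 0
  · left
    rw [Set.mem_singleton_iff]
    refine mk_of_rep (b := c * s ^ 2) _ ?_
    rw [hrep, ht, ← smul_smul]
    congr 1
    funext l
    simp only [cvn, Pi.smul_apply, smul_eq_mul]
    ring
  right
  obtain ⟨z, hz⟩ : ∃ z, z = s / t := ⟨_, rfl⟩
  have hs : s = z * t := by rw [hz, div_mul_cancel₀ _ ht]
  rw [hs] at hrep
  have hint : ∀ I : Fin (n + 1) →₀ ℕ, I.degree = β →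
      (∏ i, p.rep i ^ I i) / eval p.rep F ∈ R := fun I hI => hTR (hp1.2 I hI)
  have hpd : ∀ i ≤ 2 * β, z ^ i / φ.eval z ∈ R := by
    intro i hi
    rw [hφ]
    exact pow_div_mem hF hθ (fun i l => m6 _ (hZ6 i l)) hrep hc ht hp1.1 hint hi
  have hφz : φ.eval z ≠ 0 := by
    intro h1
    apply hp1.1
    rw [hrep, eval_smul_hom hF, eval_cvn hF, ← hφ, h1, mul_zero, mul_zero]
  have q1 := hZ1 R m1 z hφz hpd
  have q2 := hZ2 R m2 z hφz hpd
  have q3 := hZ3 R m3 z hφz hpd
  have q4 := hZ4 R m4 z hφz hpd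
  have hza : z - a ≠ 0 := by
    intro h1
    rw [sub_eq_zero.1 h1] at hφz
    exact hφz ha
  have hzb : z - b ≠ 0 := by
    intro h1
    rw [sub_eq_zero.1 h1] at hφz
    exact hφz hb
  have hze : z - e ≠ 0 := by
    intro h1
    rw [sub_eq_zero.1 h1] at hφz
    exact hφz he
  obtain ⟨X, hX⟩ : ∃ X, X = (z - b) / (z - a) * ((e - a) / (e - b)) := ⟨_, rfl⟩
  have hX1 : 1 - X = (z - e) / (z - a) * ((a - b) / (e - b)) := by
    rw [hX]
    field_simp
    ring
  have hXp : UnitPair R X := by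
    refine ⟨?_, ?_, ?_, ?_, ?_, ?_⟩
    · rw [hX]
      exact mul_ne_zero (div_ne_zero hzb hza) (div_ne_zero hea heb)
    · rw [hX1]
      exact mul_ne_zero (div_ne_zero hze hza) (div_ne_zero hab' heb)
    · rw [hX]
      exact mul_mem q2 (m5 _ hZ5.1)
    · rw [hX, mul_inv, inv_div, inv_div]
      exact mul_mem q1 (m5 _ hZ5.2.1)
    · rw [hX1]
      exact mul_mem q4 (m5 _ hZ5.2.2.1)
    · rw [hX1, mul_inv, inv_div, inv_div]
      exact mul_mem q3 (m5 _ hZ5.2.2.2)
  refine ⟨X, hXp, ?_⟩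
  have hXκ : X / κ = (z - b) / (z - a) := by
    rw [hX, hκ, mul_div_cancel_right₀ _ (div_ne_zero hea heb)]
  have h1 : 1 - (z - b) / (z - a) ≠ 0 := by
    have : 1 - (z - b) / (z - a) = -(a - b) / (z - a) := by
      field_simp
      ring
    rw [this]
    exact div_ne_zero (neg_ne_zero.2 hab') hza
  have h2 : (b - a * (X / κ)) / (1 - X / κ) = z := by
    rw [hXκ, div_eq_iff h1]
    field_simp
    ring
  symm
  refine mk_of_rep (b := c * t ^ 2) _ ?_
  rw [h2, hrep, ← smul_smul]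
  congr 1
  funext l
  simp only [cvn, Pi.smul_apply, smul_eq_mul]
  ring

/-- Three zeros. -/
theorem three_roots {K : Type} [Field K] [IsAlgClosed K] {φ : Polynomial K} {N : ℕ}
    (h8 : φ.natDegree = N) (h0 : φ ≠ 0)
    (hno : ∀ (c a b : K) (i j : ℕ), c ≠ 0 → i + j = N →
      φ ≠ Polynomial.C c * (Polynomial.X - Polynomial.C a) ^ i *
        (Polynomial.X - Polynomial.C b) ^ j) :
    ∃ a b e : K, a ≠ b ∧ a ≠ e ∧ b ≠ e ∧ φ.eval a = 0 ∧ φ.eval b = 0 ∧ φ.eval e = 0 := by
  classical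
  by_contra hcon
  push Not at hcon
  have hs := IsAlgClosed.splits φ
  have hlc : φ.leadingCoeff ≠ 0 := Polynomial.leadingCoeff_ne_zero.2 h0
  have hcard : φ.roots.card = N := by
    rw [← h8]
    exact Polynomial.splits_iff_card_roots.1 hs
  have hprod : φ = Polynomial.C φ.leadingCoeff *
      (φ.roots.map fun a => Polynomial.X - Polynomial.C a).prod :=
    hs.eq_prod_roots
  by_cases hN : N = 0
  · rw [hN] at hcard
    rw [Multiset.card_eq_zero.1 hcard, Multiset.map_zero, Multiset.prod_zero] at hprod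
    exact hno φ.leadingCoeff 0 0 0 0 hlc (by omega) (by
      rw [pow_zero, mul_one]
      exact hprod)
  obtain ⟨a, ha⟩ : ∃ a, a ∈ φ.roots := Multiset.card_pos_iff_exists_mem.1 (by omega)
  by_cases hall : ∀ x ∈ φ.roots, x = a
  · have h1 : φ.roots = Multiset.replicate N a := Multiset.eq_replicate.2 ⟨hcard, hall⟩
    rw [h1, Multiset.map_replicate, Multiset.prod_replicate] at hprod
    exact hno φ.leadingCoeff a a N 0 hlc rfl (by rw [pow_zero, mul_one]; exact hprod)
  · push Not at hall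
    obtain ⟨b, hb, hba⟩ := hall
    have h2 : ∀ x ∈ φ.roots, x = a ∨ x = b := by
      intro x hx
      by_contra h
      push Not at h
      exact hcon a b x hba.symm h.1.symm h.2.symm (Polynomial.isRoot_of_mem_roots ha)
        (Polynomial.isRoot_of_mem_roots hb) (Polynomial.isRoot_of_mem_roots hx)
    have h3 : φ.roots.filter (fun x => x = a) + φ.roots.filter (fun x => ¬ x = a) = φ.roots :=
      Multiset.filter_add_not _ _
    have h4 : φ.roots.filter (fun x => x = a) =
        Multiset.replicate (φ.roots.filter (fun x => x = a)).card a :=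
      Multiset.eq_replicate.2 ⟨rfl, fun x hx => (Multiset.mem_filter.1 hx).2⟩
    have h5 : φ.roots.filter (fun x => ¬ x = a) =
        Multiset.replicate (φ.roots.filter (fun x => ¬ x = a)).card b :=
      Multiset.eq_replicate.2 ⟨rfl, fun x hx =>
        (h2 x (Multiset.mem_filter.1 hx).1).resolve_left (Multiset.mem_filter.1 hx).2⟩
    obtain ⟨i, hi⟩ : ∃ i, i = (φ.roots.filter (fun x => x = a)).card := ⟨_, rfl⟩
    obtain ⟨j, hj⟩ : ∃ j, j = (φ.roots.filter (fun x => ¬ x = a)).card := ⟨_, rfl⟩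
    rw [← hi] at h4
    rw [← hj] at h5
    have hij : i + j = N := by
      rw [hi, hj, ← Multiset.card_add, h3, hcard]
    rw [← h3, h4, h5, Multiset.map_add, Multiset.prod_add, Multiset.map_replicate,
      Multiset.prod_replicate, Multiset.map_replicate, Multiset.prod_replicate,
      ← mul_assoc] at hprod
    exact hno φ.leadingCoeff a b i j hlc hij hprod

/-- Zeros of a form on the conic. -/
theorem eval_eq_zero_of_cvn {K : Type} [Field K] {n d : ℕ} {F : MvPolynomial (Fin (n + 1)) K}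
    (hF : F.IsHomogeneous d) {ψ : Fin (n + 1) → Fin 3 → K} (h : aeval (pe ψ) F = 0) (s t : K) :
    eval (cvn ψ s t) F = 0 := by
  by_cases ht : t = 0
  · rw [ht, eval_cvn_zero hF, h, Polynomial.coeff_zero, mul_zero]
  · have h1 : s = s / t * t := by rw [div_mul_cancel₀ _ ht]
    rw [h1, eval_cvn hF, h, Polynomial.eval_zero, mul_zero]

/-- Job C1 -/
theorem conicUB {K A : Type} [Field K] [IsAlgClosed K] [CharZero K] {n β : ℕ} {dg : A → ℕ}
    {F : A → MvPolynomial (Fin (n + 1)) K} (hF : ∀ a, (F a).IsHomogeneous (dg a))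
    {C : Finset A} {G : MvPolynomial (Fin (n + 1)) K}
    (hG : G.IsHomogeneous β) (hno : NoCG F C G β) {ψ : Fin (n + 1) → Fin 3 → K} (hψ : Inj ψ)
    (hC : ∀ c ∈ C, aeval (pe ψ) (F c) = 0) (T : Finset K) :
    {p | p ∈ RPts (fun _ : Unit => G) (fun _ => β) ∅ (Subring.closure (T : Set K)) ∧
      ∃ c s t : K, p.rep = c • cvn ψ s t}.Finite := by
  classical
  by_cases h0 : aeval (pe ψ) G = 0
  · refine Set.finite_empty.subset ?_
    rintro p ⟨⟨-, hp⟩, c, s, t, hrep⟩
    apply (hp () (by simp)).1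
    rw [hrep, eval_smul_hom hG, eval_eq_zero_of_cvn hG h0, mul_zero]
  obtain ⟨z, hz0, hz⟩ : ∃ z : K, z ≠ 0 ∧ (aeval (pe ψ) G).eval z ≠ 0 := by
    by_contra hcon
    push Not at hcon
    apply h0
    refine Polynomial.eq_zero_of_infinite_isRoot _ ?_
    refine Set.Infinite.mono ?_ (Set.Infinite.sdiff (Set.infinite_univ (α := K))
      (Set.finite_singleton (0 : K)))
    rintro t ⟨-, ht⟩
    exact hcon t ht
  obtain ⟨ξ, hξ⟩ : ∃ ξ, ξ = z⁻¹ := ⟨_, rfl⟩
  obtain ⟨ψ', hψ'⟩ : ∃ ψ' : Fin (n + 1) → Fin 3 → K, ∀ l, ψ' l =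
      ![ψ l 0 + ξ * ψ l 1 + ξ ^ 2 * ψ l 2, ψ l 1 + 2 * ξ * ψ l 2, ψ l 2] := ⟨_, fun _ => rfl⟩
  have hcv : ∀ s t, cvn ψ' s t = cvn ψ s (t + ξ * s) := by
    intro s t
    funext l
    simp only [cvn, hψ', Matrix.cons_val_zero, Matrix.cons_val_one, Matrix.cons_val]
    ring
  have hinj : Inj ψ' := by
    intro c hc
    have h1 := hψ ![c 0, ξ * c 0 + c 1, ξ ^ 2 * c 0 + 2 * ξ * c 1 + c 2] fun l => by
      have h2 := hc l
      simp only [Fin.sum_univ_three, hψ', Matrix.cons_val_zero, Matrix.cons_val_one,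
        Matrix.cons_val] at h2 ⊢
      linear_combination h2
    have e0 := congrFun h1 0
    have e1 := congrFun h1 1
    have e2 := congrFun h1 2
    simp only [Matrix.cons_val_zero, Matrix.cons_val_one, Matrix.cons_val, Pi.zero_apply]
      at e0 e1 e2
    rw [e0, mul_zero, zero_add] at e1
    rw [e0, e1, mul_zero, mul_zero, zero_add, zero_add] at e2
    funext i
    fin_cases i
    · exact e0
    · exact e1
    · exact e2
  have hC' : ∀ c ∈ C, aeval (pe ψ') (F c) = 0 := by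
    intro c hc
    refine Polynomial.eq_zero_of_infinite_isRoot _ ?_
    refine Set.infinite_univ.mono ?_
    intro w _
    have h1 := eval_cvn (hF c) ψ' w 1
    rw [one_pow, one_mul, mul_one, hcv, eval_eq_zero_of_cvn (hF c) (hC c hc)] at h1
    exact h1.symm
  have hcoef : (aeval (pe ψ') G).coeff (2 * β) ≠ 0 := by
    rw [coeff_aeval_pe hG]
    have h1 : (fun l => ψ' l 0) = cvn ψ (z * ξ) ξ := by
      have h2 := hcv 1 0
      have h3 : z * ξ = 1 := by rw [hξ, mul_inv_cancel₀ hz0]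
      rw [h3]
      rw [mul_one, zero_add] at h2
      rw [← h2]
      funext l
      simp only [cvn]
      ring
    rw [h1, eval_cvn hG]
    exact mul_ne_zero (pow_ne_zero _ (by rw [hξ]; exact inv_ne_zero hz0)) hz
  have h8 : (aeval (pe ψ') G).natDegree = 2 * β :=
    le_antisymm (natDegree_aeval_pe hG ψ') (Polynomial.le_natDegree_of_ne_zero hcoef)
  have h0' : aeval (pe ψ') G ≠ 0 := by
    intro h
    rw [h] at hcoef
    exact hcoef (Polynomial.coeff_zero _)
  obtain ⟨a, b, e, hab, hae, hbe, ha, hb, he⟩ := three_roots h8 h0' (hno ψ' hinj hC')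
  refine (conicU_aux hG hinj hab hae hbe ha hb he h0' T).subset ?_
  rintro p ⟨hp, c, s, t, hrep⟩
  refine ⟨hp, c, s, t - ξ * s, ?_⟩
  rw [hcv, sub_add_cancel]
  exact hrep

theorem exists_le_degree {m : ℕ} {N : ℕ} : ∀ I : Fin N →₀ ℕ, m ≤ I.degree →
    ∃ J J' : Fin N →₀ ℕ, I = J + J' ∧ J.degree = m := by
  classical
  induction m with
  | zero => exact fun I _ => ⟨0, I, by rw [zero_add], map_zero _⟩
  | succ m ih =>
    intro I hI
    obtain ⟨J, J', rfl, hJ⟩ := ih I (by omega)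
    rw [map_add, hJ] at hI
    have h1 : J' ≠ 0 := by
      rintro rfl
      rw [map_zero] at hI
      omega
    obtain ⟨l, hl⟩ := Finsupp.ne_iff.1 h1
    rw [Finsupp.zero_apply] at hl
    have h2 : Finsupp.single l 1 ≤ J' := by
      rw [Finsupp.single_le_iff]
      omega
    refine ⟨J + Finsupp.single l 1, J' - Finsupp.single l 1, ?_, ?_⟩
    · rw [add_assoc, add_tsub_cancel_of_le h2]
    · rw [map_add, hJ, Finsupp.degree_single]

/-- Job C2 -/
theorem rpts_prod {K A : Type} [Field K] [DecidableEq A] [Fintype A] {n : ℕ} {dg : A → ℕ}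
    {F : A → MvPolynomial (Fin (n + 1)) K} {C : Finset A} {R : Subring K}
    {p : ℙ K (Fin (n + 1) → K)} (hp : p ∈ RPts F dg C R) :
    p ∈ RPts (fun _ : Unit => ∏ b ∈ Cᶜ, F b) (fun _ => ∑ b ∈ Cᶜ, dg b) ∅ R := by
  obtain ⟨-, hp⟩ := hp
  refine ⟨fun c hc => absurd hc (Finset.notMem_empty _), fun _ _ => ⟨?_, ?_⟩⟩
  · rw [map_prod]
    exact Finset.prod_ne_zero_iff.2 fun b hb => (hp b (Finset.mem_compl.1 hb)).1
  · have key : ∀ S : Finset A, (∀ b ∈ S, b ∉ C) → ∀ I : Fin (n + 1) →₀ ℕ,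
        I.degree = ∑ b ∈ S, dg b → (∏ i, p.rep i ^ I i) / eval p.rep (∏ b ∈ S, F b) ∈ R := by
      intro S
      induction S using Finset.induction_on with
      | empty =>
        intro _ I hI
        rw [Finset.sum_empty, Finsupp.degree_eq_zero_iff] at hI
        rw [hI, Finset.prod_empty, map_one]
        simp only [Finsupp.coe_zero, Pi.zero_apply, pow_zero, Finset.prod_const_one, div_one]
        exact one_mem _
      | insert a S ha ih =>
        intro hS I hI
        rw [Finset.sum_insert ha] at hI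
        obtain ⟨J, J', rfl, hJ⟩ := exists_le_degree (m := dg a) I (by omega)
        rw [map_add, hJ] at hI
        have h1 := (hp a (hS a (Finset.mem_insert_self _ _))).2 J hJ
        have h2 := ih (fun b hb => hS b (Finset.mem_insert_of_mem hb)) J' (by omega)
        have h3 : (∏ i, p.rep i ^ (J + J') i) / eval p.rep (∏ b ∈ insert a S, F b) =
            ((∏ i, p.rep i ^ J i) / eval p.rep (F a)) *
              ((∏ i, p.rep i ^ J' i) / eval p.rep (∏ b ∈ S, F b)) := by
          rw [Finset.prod_insert ha, map_mul, div_mul_div_comm, ← Finset.prod_mul_distrib]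
          simp only [Finsupp.add_apply, pow_add]
        rw [h3]
        exact mul_mem h1 h2
    exact fun I hI => key Cᶜ (fun b hb => Finset.mem_compl.1 hb) I hI

theorem single_of_degree_one {N : ℕ} {J : Fin N →₀ ℕ} (hJ : J.degree = 1) :
    ∃ l, Finsupp.single l 1 = J := by
  classical
  have h1 : J ≠ 0 := by
    rintro rfl
    rw [map_zero] at hJ
    omega
  obtain ⟨l, hl⟩ := Finsupp.ne_iff.1 h1
  rw [Finsupp.zero_apply] at hl
  have h2 : Finsupp.single l 1 ≤ J := by
    rw [Finsupp.single_le_iff]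
    omega
  refine ⟨l, ?_⟩
  have h3 := add_tsub_cancel_of_le h2
  rw [← h3, map_add, Finsupp.degree_single] at hJ
  have h4 : (J - Finsupp.single l 1).degree = 0 := by omega
  rw [Finsupp.degree_eq_zero_iff] at h4
  rw [h4, add_zero] at h3
  exact h3

/-- A quadratic form. -/
theorem exists_bil {K : Type} [Field K] {n : ℕ} {F : MvPolynomial (Fin (n + 1)) K}
    (hF : F.IsHomogeneous 2) : ∃ a : Fin (n + 1) → Fin (n + 1) → K, ∀ x : Fin (n + 1) → K,
      eval x F = ∑ l, ∑ m, a l m * (x l * x m) := by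
  classical
  have key : ∀ S : Finset (Fin (n + 1) →₀ ℕ), S ⊆ F.support →
      ∃ a : Fin (n + 1) → Fin (n + 1) → K,
      ∀ x : Fin (n + 1) → K, ∑ d ∈ S, F.coeff d * ∏ i, x i ^ d i =
        ∑ l, ∑ m, a l m * (x l * x m) := by
    intro S
    induction S using Finset.induction_on with
    | empty => exact fun _ => ⟨0, fun x => by simp⟩
    | insert d S hd ih =>
      intro hS
      obtain ⟨a, ha⟩ := ih fun e he => hS (Finset.mem_insert_of_mem he)
      have h1 : d.degree = 2 := deg_of_mem hF (hS (Finset.mem_insert_self _ _))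
      obtain ⟨J, J', rfl, hJ⟩ := exists_le_degree (m := 1) d (by omega)
      rw [map_add, hJ] at h1
      obtain ⟨l0, hl0⟩ := single_of_degree_one hJ
      obtain ⟨m0, hm0⟩ := single_of_degree_one (show J'.degree = 1 by omega)
      refine ⟨fun l m => a l m + if l = l0 then (if m = m0 then F.coeff (J + J') else 0) else 0,
        fun x => ?_⟩
      rw [Finset.sum_insert hd, ha]
      have h2 : ∏ i, x i ^ (J + J') i = x l0 * x m0 := by
        have h3 : ∀ (l : Fin (n + 1)),
            ∏ i, x i ^ (Finsupp.single l 1 : Fin (n + 1) →₀ ℕ) i = x l := by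
          intro l
          rw [Finset.prod_eq_single l]
          · rw [Finsupp.single_eq_same, pow_one]
          · intro m _ hm
            rw [Finsupp.single_eq_of_ne (by exact hm), pow_zero]
          · intro h
            exact absurd (Finset.mem_univ _) h
        simp only [Finsupp.add_apply, pow_add, Finset.prod_mul_distrib]
        rw [← hl0, ← hm0, h3, h3]
      rw [h2]
      simp only [add_mul, Finset.sum_add_distrib, ite_mul, zero_mul, Finset.sum_ite_eq',
        Finset.mem_univ, if_true, Finset.sum_ite_irrel, Finset.sum_const_zero]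
      ring
  obtain ⟨a, ha⟩ := key F.support (Finset.Subset.refl _)
  refine ⟨a, fun x => ?_⟩
  rw [← ha, MvPolynomial.eval_eq']

/-- The quadratic form in the plane. -/
theorem exists_sym3 {K : Type} [Field K] [CharZero K] {n : ℕ}
    {F : MvPolynomial (Fin (n + 1)) K} (hF : F.IsHomogeneous 2) (M : Fin (n + 1) → Fin 3 → K) :
    ∃ q : Fin 3 → Fin 3 → K, (∀ i j, q i j = q j i) ∧
      ∀ z : Fin 3 → K, eval (fun l => ∑ i, M l i * z i) F = Q.bb q z z := by
  obtain ⟨a, ha⟩ := exists_bil hF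
  refine ⟨fun i j => (2 : K)⁻¹ * ∑ l, ∑ m, a l m * (M l i * M m j + M l j * M m i),
    fun i j => ?_, fun z => ?_⟩
  · refine congrArg (fun t => (2 : K)⁻¹ * t) ?_
    refine Finset.sum_congr rfl fun l _ => Finset.sum_congr rfl fun m _ => ?_
    ring
  · rw [ha]
    unfold Q.bb
    simp only [Fin.sum_univ_three, Finset.mul_sum, Finset.sum_mul, ← Finset.sum_add_distrib]
    refine Finset.sum_congr rfl fun l _ => ?_
    refine Finset.sum_congr rfl fun m _ => ?_
    field_simp
    ring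

/-- The points of the plane on a line. -/
theorem fin_nuW {K A : Type} [Field K] [IsAlgClosed K] [CharZero K] [DecidableEq A] [Fintype A]
    {n : ℕ} {dg : A → ℕ} {F : A → MvPolynomial (Fin (n + 1)) K}
    (hF : ∀ a, (F a).IsHomogeneous (dg a)) {C : Finset A}
    {W : Submodule K (Fin (n + 1) → K)} (hW : Module.finrank K W = 2) (T : Finset K) :
    {p | p ∈ RPts F dg C (Subring.closure (T : Set K)) ∧ p.rep ∈ W ∧
      ∀ L, IsLine F C L → p.rep ∈ L → 3 ≤ (Pts L ∩ Bd F C).encard}.Finite := by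
  by_cases hL : IsLine F C W
  · by_cases h3 : 3 ≤ (Pts W ∩ Bd F C).encard
    · refine (fin_line (uf : UF K) hF hW h3 T).subset ?_
      rintro p ⟨hp, hpW, -⟩
      exact ⟨hp, hpW⟩
    · refine Set.finite_empty.subset ?_
      rintro p ⟨-, hpW, h⟩
      exact h3 (h W hL hpW)
  · have h1 : ¬ ∀ c ∈ C, ∀ v ∈ W, eval v (F c) = 0 := fun h => hL ⟨hW, h⟩
    push Not at h1
    obtain ⟨c, hc, v, hv, hvF⟩ := h1
    rcases Nat.eq_zero_or_pos (dg c) with h0 | h0
    · refine Set.finite_empty.subset ?_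
      rintro p ⟨hp, -⟩
      have h2 := hp.1 c hc
      have h3 : ∀ x : Fin (n + 1) → K, eval x (F c) = eval 0 (F c) := by
        intro x
        have h4 := eval_smul_hom (hF c) x (0 : K)
        rw [zero_smul, h0, pow_zero, one_mul] at h4
        exact h4.symm
      rw [h3] at h2 hvF
      exact hvF h2
    · refine (finite_line (hF c) h0 hW.le hv hvF).subset ?_
      rintro p ⟨hp, hpW, -⟩
      exact ⟨hpW, hp.1 c hc⟩

/-- Job C3 -/
theorem fin_plane {K A : Type} [Field K] [IsAlgClosed K] [CharZero K] [DecidableEq A] [Fintype A]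
    {n : ℕ} {dg : A → ℕ} {F : A → MvPolynomial (Fin (n + 1)) K}
    (hF : ∀ a, (F a).IsHomogeneous (dg a)) {C : Finset A}
    (hno : NoCG F C (∏ b ∈ Cᶜ, F b) (∑ b ∈ Cᶜ, dg b))
    {W : Submodule K (Fin (n + 1) → K)} (hW : Module.finrank K W = 3)
    (hq : ∃ c ∈ C, dg c = 2 ∧ ∃ v ∈ W, eval v (F c) ≠ 0) (T : Finset K) :
    {p | p ∈ RPts F dg C (Subring.closure (T : Set K)) ∧ p.rep ∈ W ∧
      ∀ L, IsLine F C L → p.rep ∈ L → 3 ≤ (Pts L ∩ Bd F C).encard}.Finite := by
  classical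
  obtain ⟨c0, hc0, hd0, v0, hv0, hvF⟩ := hq
  -- a basis of the plane
  obtain ⟨M, hMI, hMW⟩ : ∃ M : Fin (n + 1) → Fin 3 → K, Inj M ∧
      ∀ x, x ∈ W ↔ ∃ z : Fin 3 → K, x = fun l => ∑ i, M l i * z i := by
    have hfin : FiniteDimensional K W := FiniteDimensional.finiteDimensional_submodule W
    obtain ⟨b⟩ : Nonempty (Module.Basis (Fin 3) K W) := ⟨Module.finBasisOfFinrankEq K W hW⟩
    have hsum : ∀ z : Fin 3 → K, ((∑ i, z i • b i : W) : Fin (n + 1) → K) =
        fun l => ∑ i, (b i : Fin (n + 1) → K) l * z i := by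
      intro z
      funext l
      rw [Submodule.coe_sum, Finset.sum_apply]
      refine Finset.sum_congr rfl fun i _ => ?_
      rw [Submodule.coe_smul, Pi.smul_apply, smul_eq_mul, mul_comm]
    refine ⟨fun l i => (b i : Fin (n + 1) → K) l, fun z hz => ?_, fun x => ⟨fun hx => ?_, ?_⟩⟩
    · have h1 : (∑ i, z i • b i : W) = 0 := by
        apply Subtype.ext
        rw [hsum]
        funext l
        exact hz l
      have h2 := b.linearIndependent
      rw [Fintype.linearIndependent_iff] at h2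
      funext i
      exact h2 z h1 i
    · refine ⟨fun i => b.repr ⟨x, hx⟩ i, ?_⟩
      rw [← hsum, b.sum_repr]
    · rintro ⟨z, rfl⟩
      rw [← hsum]
      exact Subtype.mem _
  obtain ⟨q, hqs, hqe⟩ := exists_sym3 (hd0 ▸ hF c0) M
  have hq0 : q ≠ 0 := by
    rintro rfl
    obtain ⟨z, rfl⟩ := (hMW v0).1 hv0
    apply hvF
    rw [hqe]
    simp [Q.bb]
  obtain ⟨ν1, ν2, hν1, hν2, h⟩ := Q.conic_cases hqs hq0
  -- a line in the plane
  have hline : ∀ ν : Fin 3 → K, ν ≠ 0 → ∃ W' : Submodule K (Fin (n + 1) → K),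
      Module.finrank K W' = 2 ∧ ∀ z : Fin 3 → K, ∑ l, ν l * z l = 0 →
        (fun l => ∑ i, M l i * z i) ∈ W' := by
    intro ν hν
    obtain ⟨W0, hW0, hmem⟩ := Q.exists_plane (K := K) (ν := ν) hν
    obtain ⟨g, hg⟩ : ∃ g : (Fin 3 → K) →ₗ[K] (Fin (n + 1) → K),
        ∀ v, g v = fun l => ∑ j, M l j * v j :=
      ⟨Matrix.mulVecLin (Matrix.of M), fun v => by
        funext l
        simp [Matrix.mulVecLin, Matrix.mulVec, dotProduct]⟩
    have hinj : Function.Injective g := by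
      rw [← LinearMap.ker_eq_bot, LinearMap.ker_eq_bot']
      intro v hv
      refine hMI v fun l => ?_
      have h1 := congrFun hv l
      rw [hg] at h1
      exact h1
    refine ⟨W0.map g, ?_, fun z hz => ?_⟩
    · rw [← hW0]
      exact (Submodule.equivMapOfInjective g hinj W0).finrank_eq.symm
    · rw [← hg]
      exact Submodule.mem_map_of_mem ((hmem z).2 hz)
  obtain ⟨W1, hW1, hm1⟩ := hline ν1 hν1
  obtain ⟨W2, hW2, hm2⟩ := hline ν2 hν2
  rcases h with h | ⟨ψ, hψ, h⟩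
  · refine ((fin_nuW hF (C := C) hW1 T).union (fin_nuW hF (C := C) hW2 T)).subset ?_
    rintro p ⟨hp, hpW, hL⟩
    obtain ⟨z, hz⟩ := (hMW _).1 hpW
    have h1 := hp.1 c0 hc0
    rw [hz, hqe] at h1
    rcases h z h1 with h2 | h2
    · exact Or.inl ⟨hp, by rw [hz]; exact hm1 z h2, hL⟩
    · exact Or.inr ⟨hp, by rw [hz]; exact hm2 z h2, hL⟩
  · obtain ⟨χ, hχ⟩ : ∃ χ : Fin (n + 1) → Fin 3 → K, ∀ l j, χ l j = ∑ i, M l i * ψ i j :=
      ⟨fun l j => ∑ i, M l i * ψ i j, fun _ _ => rfl⟩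
    have hχI : Inj χ := by
      intro v hv
      refine hψ v fun l => ?_
      have h1 := hMI (fun i => ∑ j, ψ i j * v j) fun m => by
        have h2 := hv m
        simp only [hχ, Fin.sum_univ_three] at h2 ⊢
        linear_combination h2
      exact congrFun h1 l
    have hcv : ∀ c s t : K, (fun l => ∑ i, M l i * (c • Q.cv ψ s t) i) = c • cvn χ s t := by
      intro c s t
      funext l
      simp only [Q.cv, cvn, hχ, Fin.sum_univ_three, Pi.smul_apply, smul_eq_mul]
      ring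
    have hcon : {p : ℙ K (Fin (n + 1) → K) | p ∈ RPts F dg C (Subring.closure (T : Set K)) ∧
        ∃ c s t : K, p.rep = c • cvn χ s t}.Finite := by
      by_cases hC : ∀ c ∈ C, aeval (pe χ) (F c) = 0
      · refine (conicUB hF (MvPolynomial.IsHomogeneous.prod Cᶜ F dg fun a _ => hF a) hno
          hχI hC T).subset ?_
        rintro p ⟨hp, h1⟩
        exact ⟨rpts_prod hp, h1⟩
      · push Not at hC
        obtain ⟨c, hc, hne⟩ := hC
        have hn1 : cvn χ 1 0 ≠ 0 := cvn_ne hχI (by simp)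
        have hn2 : ∀ z, cvn χ z 1 ≠ 0 := fun z => cvn_ne hχI (by simp)
        refine ((Set.finite_singleton (Projectivization.mk K (cvn χ 1 0) hn1)).union
          ((Multiset.finite_toSet (aeval (pe χ) (F c)).roots).image fun z =>
            Projectivization.mk K (cvn χ z 1) (hn2 z))).subset ?_
        rintro p ⟨hp, a, s, t, hrep⟩
        by_cases ht : t = 0
        · left
          rw [Set.mem_singleton_iff]
          refine mk_of_rep (b := a * s ^ 2) _ ?_
          rw [hrep, ht, ← smul_smul]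
          congr 1
          funext l
          simp only [cvn, Pi.smul_apply, smul_eq_mul]
          ring
        · right
          have ha : a ≠ 0 := by
            rintro rfl
            rw [zero_smul] at hrep
            exact p.rep_nonzero hrep
          have hs : s = s / t * t := by rw [div_mul_cancel₀ _ ht]
          refine ⟨s / t, ?_, ?_⟩
          · rw [Set.mem_ofPred_eq, Polynomial.mem_roots hne, Polynomial.IsRoot.def]
            have h1 := hp.1 c hc
            rw [hrep, hs, eval_smul_hom (hF c), eval_cvn (hF c)] at h1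
            exact (mul_eq_zero.1 ((mul_eq_zero.1 h1).resolve_left (pow_ne_zero _ ha))).resolve_left
              (pow_ne_zero _ ht)
          · symm
            refine mk_of_rep (b := a * t ^ 2) _ ?_
            rw [hrep, ← smul_smul]
            congr 1
            funext l
            simp only [cvn, Pi.smul_apply, smul_eq_mul]
            field_simp
    refine ((fin_nuW hF (C := C) hW1 T).union hcon).subset ?_
    rintro p ⟨hp, hpW, hL⟩
    obtain ⟨z, hz⟩ := (hMW _).1 hpW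
    have h1 := hp.1 c0 hc0
    rw [hz, hqe] at h1
    rcases h z h1 with h2 | ⟨c, s, t, h2⟩
    · exact Or.inl ⟨hp, by rw [hz]; exact hm1 z h2, hL⟩
    · exact Or.inr ⟨hp, c, s, t, by rw [hz, h2, hcv]⟩

end Pool.Agent.NH27.B
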