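import Pool.Agent.NH27.B.Quad
import Pool.Agent.Y741.ExcG
import Pool.Agent.Y741.LClass

/-!
Planes and generic surfaces.
-/

set_option autoImplicit false

open MvPolynomial Pool.Agent.TH145.GH
open Pool.Agent.TH145.GC (Cf Rt)
open Pool.Agent.Y735 (pl)
open Pool.Agent.Y741

namespace Pool.Agent.NH27.B

section

variable {L : Type} [Field L] [CharZero L] {n : ℕ}

/-- Smooth quadrics of dimension at most three do not contain planes. -/
theorem plane_neW (hn : n ≤ 4) {F : MvPolynomial (Fin (n + 1)) L} (hF : F.IsHomogeneous 2)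
    (hsm : ∀ z, (∀ j, eval z (pderiv j F) = 0) → z = 0) {W : Submodule L (Fin (n + 1) → L)}
    (hW : Module.finrank L W = 3) : ∃ v ∈ W, eval v F ≠ 0 := by
  by_contra hcon
  push Not at hcon
  obtain ⟨B, hB1, hB3, hB2⟩ := exists_bilQ hF
  have h2 : (2 : L) ≠ 0 := two_ne_zero
  have hzB : ∀ u ∈ W, ∀ v ∈ W, B u v = 0 := by
    intro u hu v hv
    have h3 := hB2 u
    have h4 := hB2 v
    have h5 := hB2 (u + v)
    rw [hcon _ hu, mul_zero] at h3
    rw [hcon _ hv, mul_zero] at h4
    rw [hcon _ (W.add_mem hu hv), mul_zero] at h5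
    simp only [map_add, LinearMap.add_apply] at h5
    simp only [← h3, ← h4] at h5
    rw [hB1 v u] at h5
    have h7 : 2 * B u v = 0 := by linear_combination -h5
    exact (mul_eq_zero.1 h7).resolve_left h2
  obtain ⟨G, hG⟩ : ∃ G : W →ₗ[L] W.dualAnnihilator, ∀ w v, (G w : Module.Dual L _) v = B w v := by
    refine ⟨LinearMap.codRestrict W.dualAnnihilator (B ∘ₗ W.subtype) fun w => ?_, fun w v => rfl⟩
    rw [Submodule.mem_dualAnnihilator]
    intro v hv
    exact hzB w w.2 v hv
  have hfr := Subspace.finrank_add_finrank_dualAnnihilator_eq W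
  rw [hW, Module.finrank_fin_fun] at hfr
  have hlt : Module.finrank L W.dualAnnihilator < Module.finrank L W := by
    rw [hW]
    change 3 + Module.finrank L W.dualAnnihilator = n + 1 at hfr
    omega
  have hinj : ¬ Function.Injective G := fun h =>
    absurd (LinearMap.finrank_le_finrank_of_injective h) (not_le.2 hlt)
  apply hinj
  intro w w' hww
  rw [← sub_eq_zero]
  have hw : G (w - w') = 0 := by rw [map_sub, hww, sub_self]
  apply Subtype.ext
  refine hsm ((w - w' : W) : Fin (n + 1) → L) fun j => ?_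
  rw [hB3, ← hG, hw]
  rfl

end

variable {k K : Type} [Field k] [Field K] [IsAlgClosed K] [CharZero K] [Algebra k K] {n : ℕ}
  {A : Type} [Fintype A] [DecidableEq A] {d : A → ℕ}

omit [IsAlgClosed K] [DecidableEq A] in
/-- The hypersurfaces are smooth. -/
theorem smooth_ratio (hpos : ∀ a, 0 < d a) (F : A → MvPolynomial (Fin (n + 1)) K)
    (hF : ∀ a, (F a).IsHomogeneous (d a)) (I0 : A → Fin (n + 1) →₀ ℕ)
    (h0 : ∀ a, (F a).coeff (I0 a) ≠ 0)
    (hind : AlgebraicIndependent k fun p : Rt d I0 =>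
      (F p.1).coeff p.2.1 / (F p.1).coeff (I0 p.1)) (c : A) (z : Fin (n + 1) → K)
    (hz : ∀ j, eval z (pderiv j (F c)) = 0) : z = 0 := by
  obtain ⟨K', i1, i2, i3, i4, u, G, hG, hGh, hGi⟩ := exists_scaled F hF I0 h0 hind
  have hcz : CharZero K' := charZero_of_injective_algebraMap (algebraMap K K').injective
  have h1 := smooth_of_indep (k := k) (hpos c) (hGh c) (hGi.comp
    (fun I : {I : Fin (n + 1) →₀ ℕ // I.degree = d c} => (⟨c, I⟩ : Cf n d)) (by
      intro I J h
      exact eq_of_heq (Sigma.mk.inj_iff.1 h).2)) (fun j => algebraMap K K' (z j)) (fun j => by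
      rw [hG, pderiv_C_mul, map_mul, pderiv_map, eval_map]
      have h5 := eval₂_comp_left (algebraMap K K') (RingHom.id K) z (pderiv j (F c))
      rw [RingHom.comp_id] at h5
      have h6 : eval₂ (algebraMap K K') (fun j => algebraMap K K' (z j)) (pderiv j (F c)) =
          algebraMap K K' (eval z (pderiv j (F c))) := h5.symm
      rw [h6, hz, map_zero, mul_zero])
  funext j
  have h2 := congrFun h1 j
  exact (map_eq_zero _).1 h2

/-- There are no lines on the surface if the degree of the boundary is one. -/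
theorem no_lines {C : Finset A} (h2 : Bd2 n d C) (hβ : ∑ b ∈ Cᶜ, d b = 1)
    (F : A → MvPolynomial (Fin (n + 1)) K)
    (hF : ∀ a, (F a).IsHomogeneous (d a)) (I0 : A → Fin (n + 1) →₀ ℕ)
    (h0 : ∀ a, (F a).coeff (I0 a) ≠ 0)
    (hind : AlgebraicIndependent k fun p : Rt d I0 =>
      (F p.1).coeff p.2.1 / (F p.1).coeff (I0 p.1)) (W : Submodule K (Fin (n + 1) → K)) :
    ¬ IsLine F C W := by
  refine no_line_sub (k := k) C ?_ hF h0 hind W
  have h3 := h2.sums
  have h4 := h2.card
  rw [Finset.sum_add_distrib, Finset.sum_const, smul_eq_mul, mul_one]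
  omega

/-- Planes are not contained in the quadrics. -/
theorem plane_out {C : Finset A} (hpos : ∀ a, 0 < d a) (h2 : Bd2 n d C)
    (F : A → MvPolynomial (Fin (n + 1)) K)
    (hF : ∀ a, (F a).IsHomogeneous (d a)) (I0 : A → Fin (n + 1) →₀ ℕ)
    (h0 : ∀ a, (F a).coeff (I0 a) ≠ 0)
    (hind : AlgebraicIndependent k fun p : Rt d I0 =>
      (F p.1).coeff p.2.1 / (F p.1).coeff (I0 p.1)) {W : Submodule K (Fin (n + 1) → K)}
    (hW : Module.finrank K W = 3) : ∃ c ∈ C, d c = 2 ∧ ∃ v ∈ W, eval v (F c) ≠ 0 := by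
  by_cases hn : n ≤ 4
  · obtain ⟨c, hc, hc2⟩ := h2.quad
    have hFc : (F c).IsHomogeneous 2 := by
      have := hF c
      rwa [hc2] at this
    exact ⟨c, hc, hc2, plane_neW hn hFc (smooth_ratio (k := k) hpos F hF I0 h0 hind c) hW⟩
  · by_contra hcon
    push Not at hcon
    have hsum := h2.sums
    have h3 : C.card * 2 ≤ ∑ c ∈ C, d c := by
      rw [← smul_eq_mul, ← Finset.sum_const]
      exact Finset.sum_le_sum fun c hc => h2.two c hc
    have hcard := h2.card
    obtain ⟨b0, hb0⟩ := h2.bdry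
    have h4 : d b0 ≤ ∑ b ∈ Cᶜ, d b :=
      Finset.single_le_sum (f := d) (fun _ _ => Nat.zero_le _) (Finset.mem_compl.2 hb0)
    have h5 := hpos b0
    have hall : ∀ c ∈ C, d c = 2 := by
      intro c hc
      by_contra hne
      have h6 : C.card * 2 + 1 ≤ ∑ c ∈ C, d c := by
        have h7 : ∑ c' ∈ C, (2 + if c' = c then 1 else 0) ≤ ∑ c' ∈ C, d c' := by
          refine Finset.sum_le_sum fun c' hc' => ?_
          have h8 := h2.two c' hc'
          split_ifs with h9
          · subst h9
            omega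
          · exact h8
        rw [Finset.sum_add_distrib, Finset.sum_const, Finset.sum_ite_eq', if_pos hc,
          smul_eq_mul] at h7
        exact h7
      omega
    obtain ⟨W', hW', hW2⟩ : ∃ W' ≤ W, Module.finrank K W' = 2 := by
      obtain ⟨b⟩ : Nonempty (Module.Basis (Fin 3) K W) :=
        ⟨Module.finBasisOfFinrankEq K W hW⟩
      have h6 : LinearIndependent K fun i : Fin 2 => ((b (Fin.castSucc i) : W) : Fin (n + 1) → K) :=
        (b.linearIndependent.map' W.subtype (Submodule.ker_subtype _)).comp Fin.castSucc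
          (Fin.castSucc_injective _)
      refine ⟨Submodule.span K (Set.range fun i : Fin 2 =>
        ((b (Fin.castSucc i) : W) : Fin (n + 1) → K)), ?_, ?_⟩
      · rw [Submodule.span_le]
        rintro _ ⟨i, rfl⟩
        exact (b _).2
      · rw [finrank_span_eq_card h6, Fintype.card_fin]
    exact no_lines (k := k) h2 (by omega) F hF I0 h0 hind W'
      ⟨hW2, fun c hc v hv => hcon c hc (hall c hc) v (hW' hv)⟩

end Pool.Agent.NH27.B
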