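import Pool.Agent.NH27.B.FinB
import Pool.Agent.Y741.MainV

/-!
Finiteness of integral points, up to planes.
-/

set_option autoImplicit false

open MvPolynomial Pool.Agent.TH145.GH
open Pool.Agent.TH145.GC (Gen Cf finite_cf Rt exists_big indep_scale)
open Pool.Agent.Y735 (rho eval_rho rho_X pl fht rho_deg fht_nonneg)
open Pool.Agent.Y741
open LinearAlgebra.Projectivization

namespace Pool.Agent.NH27.B

section points

/-- Finiteness of integral points over a ring generated by a finite set over `k0`. -/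
theorem points_V {k0 K : Type} [Field k0] [Field K] [Algebra k0 K] [IsAlgClosed K]
    [CharZero K] [IsAlgClosed k0] {n : ℕ} {A : Type} [Fintype A] [DecidableEq A] {dg : A → ℕ}
    {C : Finset A} (hpos : ∀ a, 0 < dg a) (h2' : Bd2 n dg C) (hB5 : Bnd5 n A dg C)
    {F : A → MvPolynomial (Fin (n + 1)) K} (hF : ∀ a, (F a).IsHomogeneous (dg a))
    (hind : AlgebraicIndependent k0 fun p : Cf n dg => (F p.1).coeff p.2.1)
    (T : Finset K) (l0 : Fin (n + 1)) :
    FewP {x : Fin (n + 1) → K | (∀ j, x j ∈ IntermediateField.adjoin k0 (T : Set K)) ∧ x l0 = 1 ∧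
      (∀ a ∈ C, eval x (F a) = 0) ∧
      (∀ a, a ∉ C → eval x (F a) ≠ 0) ∧ (∀ a, a ∉ C → ∀ j, x j ^ dg a / eval x (F a) ∈
        Subring.closure (Set.range (algebraMap k0 K) ∪ (T : Set K))) ∧ ¬ Exc 2 F C x} := by
  classical
  obtain ⟨B, hB, K1, y, E, F1, DE, D, hK1, hc, hy, h1, h2, h3, h4, h5, h6, h7, h8⟩ :=
    TH145.GC.exists_all hF hind T
  have : Finite B := hB
  obtain ⟨T1, hT1, hT1T⟩ : ∃ T1 : Finset K1, (∀ t ∈ T1, t ∈ E) ∧
      ∀ t ∈ T, ∃ t1 ∈ T1, (t1 : K) = t := by
    have h9 : ∀ t : {t // t ∈ T}, ∃ e : K1, e ∈ E ∧ (e : K) = t := fun t =>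
      h8 t (IntermediateField.subset_adjoin _ _ t.2)
    choose e he het using h9
    refine ⟨T.attach.image e, ?_, fun t ht => ?_⟩
    · intro t ht
      obtain ⟨s, -, rfl⟩ := Finset.mem_image.1 ht
      exact he s
    · exact ⟨_, Finset.mem_image_of_mem _ (Finset.mem_attach _ ⟨t, ht⟩), het _⟩
  have hgen : GenA dg F1 := by
    have h9 : GenA dg F := GenA.of_base hind
    rw [← funext h7] at h9
    exact GenA.of_map _ h9
  have h9 := fin_B E hpos hy h3 hgen D h4 h5 h6 (comm_of hy h5 h6) h2' hB5 l0 T1 hT1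
  refine fewP_mono (fewP_map (algebraMap K1 K) h9) ?_
  rintro x ⟨hx, hxl, hxC, hxF, hxs, hxX⟩
  choose e he hex using fun j => h8 (x j) (hx j)
  have hex' : (fun j => algebraMap K1 K (e j)) = x := funext hex
  have hev : ∀ a, algebraMap K1 K (eval e (map E.toSubfield.subtype (F1 a))) =
      eval x (F a) := by
    intro a
    rw [← h7, eval_map, eval_map]
    have h10 := hom_eval₂ (F1 a) E.toSubfield.subtype (algebraMap K1 K) e
    rw [h10, hex']
  have heC : ∀ a ∈ C, eval e (map E.toSubfield.subtype (F1 a)) = 0 := fun a ha => by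
    apply (algebraMap K1 K).injective
    rw [hev, hxC a ha, map_zero]
  refine ⟨e, ⟨he, ?_, heC, fun a ha => ?_, fun a ha j => ?_, fun hX => hxX ?_⟩,
    funext hex⟩
  · apply Subtype.ext
    rw [hex, hxl]
    rfl
  · intro h0
    have h10 := hev a
    rw [h0, map_zero] at h10
    exact hxF a ha h10.symm
  · have h10 : Subring.closure (Set.range (algebraMap k0 K) ∪ (T : Set K)) ≤
        (Subring.closure (Set.range (algebraMap k0 K1) ∪ (T1 : Set K1))).map (algebraMap K1 K) := by
      rw [Subring.closure_le]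
      rintro z (⟨r, rfl⟩ | hz)
      · exact ⟨algebraMap k0 K1 r, Subring.subset_closure (Or.inl ⟨r, rfl⟩), rfl⟩
      · obtain ⟨t1, ht1, htz⟩ := hT1T z hz
        exact ⟨t1, Subring.subset_closure (Or.inr ht1), htz⟩
    obtain ⟨w, hw, hwx⟩ := h10 (hxs a ha j)
    have h11 : w = e j ^ dg a / eval e (map E.toSubfield.subtype (F1 a)) := by
      apply (algebraMap K1 K).injective
      rw [hwx, map_div₀, hev, map_pow]
      congr 2
      exact (hex j).symm
    rw [← h11]
    exact hw
  · have h10 := exc_map (algebraMap K1 K) (F := fun a => map E.toSubfield.subtype (F1 a))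
      (fun a => (h3.hom a).map _) heC hX
    have h11 : mapF (algebraMap K1 K) (fun a => map E.toSubfield.subtype (F1 a)) = F := by
      funext a
      unfold mapF
      rw [map_map, h7]
    rwa [h11, hex'] at h10

/-- Finiteness of the integral points. -/
theorem points_W {k0 K : Type} [Field k0] [Field K] [Algebra k0 K] [IsAlgClosed K]
    [CharZero K] [IsAlgClosed k0] {n : ℕ} {A : Type} [Fintype A] [DecidableEq A] {dg : A → ℕ}
    {C : Finset A} (hpos : ∀ a, 0 < dg a) (h2' : Bd2 n dg C) (hB5 : Bnd5 n A dg C)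
    (F : A → MvPolynomial (Fin (n + 1)) K) (hF : ∀ a, (F a).IsHomogeneous (dg a))
    (I0 : A → Fin (n + 1) →₀ ℕ) (h0 : ∀ a, (F a).coeff (I0 a) ≠ 0)
    (hind : AlgebraicIndependent k0 fun p : Rt dg I0 =>
      (F p.1).coeff p.2.1 / (F p.1).coeff (I0 p.1))
    (T : Finset K) (l0 : Fin (n + 1)) :
    FewP {x : Fin (n + 1) → K | (∀ j, x j ∈ IntermediateField.adjoin k0 (T : Set K)) ∧ x l0 = 1 ∧
      (∀ a ∈ C, eval x (F a) = 0) ∧
      (∀ a, a ∉ C → eval x (F a) ≠ 0) ∧ (∀ a, a ∉ C → ∀ j, x j ^ dg a / eval x (F a) ∈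
        Subring.closure (Set.range (algebraMap k0 K) ∪ (T : Set K))) ∧ ¬ Exc 2 F C x} := by
  classical
  obtain ⟨K', _, _, hK', hc, t, ht⟩ := exists_big K A
  let _ : Algebra k0 K' := ((algebraMap K K').comp (algebraMap k0 K)).toAlgebra
  have hst : IsScalarTower k0 K K' := IsScalarTower.of_algebraMap_eq fun _ => rfl
  have hI0 : ∀ a, (I0 a).degree = dg a := fun a =>
    deg_of_mem (hF a) (mem_support_iff.2 (h0 a))
  have h1 := indep_scale (k0 := k0) (K' := K') F I0 hI0 h0 hind ht
  obtain ⟨G, hG⟩ : ∃ G : A → MvPolynomial (Fin (n + 1)) K', ∀ a, G a =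
    MvPolynomial.C (t a / algebraMap K K' ((F a).coeff (I0 a))) * map (algebraMap K K') (F a) :=
    ⟨_, fun _ => rfl⟩
  have h2 : ∀ a, (G a).IsHomogeneous (dg a) := fun a => by
    have := (isHomogeneous_C (Fin (n + 1)) (t a / algebraMap K K' ((F a).coeff (I0 a)))).mul
      ((hF a).map (algebraMap K K'))
    rwa [zero_add, ← hG] at this
  have h4 : (fun p : Cf n dg => (G p.1).coeff p.2.1) =
      fun p => t p.1 / algebraMap K K' ((F p.1).coeff (I0 p.1)) *
        algebraMap K K' ((F p.1).coeff p.2.1) := by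
    funext p
    rw [hG, coeff_C_mul, coeff_map]
  have h5 : AlgebraicIndependent k0 (fun p : Cf n dg => (G p.1).coeff p.2.1) := by
    rw [h4]
    exact h1
  have ha0 : ∀ a, algebraMap K K' ((F a).coeff (I0 a)) ≠ 0 := fun a => by
    rw [Ne, map_eq_zero]; exact h0 a
  have ht0 : ∀ a, t a ≠ 0 := fun a => by
    intro h5
    have h6 : Transcendental K (t a) := ht.transcendental a
    rw [h5] at h6
    exact h6 (by
      have := isAlgebraic_algebraMap (R := K) (A := K') 0
      rwa [map_zero] at this)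
  obtain ⟨T', hT'⟩ : ∃ T' : Finset K', T' = Finset.univ.image
    (fun a => algebraMap K K' ((F a).coeff (I0 a)) / t a) ∪ T.image (algebraMap K K') := ⟨_, rfl⟩
  have h3 := points_V (k0 := k0) hpos h2' hB5 h2 h5 T' l0
  have hev : ∀ (a : A) (x : Fin (n + 1) → K), eval (fun j => algebraMap K K' (x j)) (G a) =
      t a / algebraMap K K' ((F a).coeff (I0 a)) * algebraMap K K' (eval x (F a)) := by
    intro a x
    rw [hG, map_mul, eval_map, eval_C]
    have h5 := eval₂_comp_left (algebraMap K K') (RingHom.id K) x (F a)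
    rw [RingHom.comp_id] at h5
    congr 1
    exact h5.symm
  refine fewP_comap (algebraMap K K') (fewP_mono h3 ?_)
  rintro _ ⟨x, ⟨hx, hxl, hxC, hxF, hxs, hxX⟩, rfl⟩
  refine ⟨fun j => ?_, ?_, fun a ha => ?_, fun a ha => ?_, fun a ha j => ?_, fun hX => hxX ?_⟩
  · have h4 : (IntermediateField.adjoin k0 (T : Set K)).map (IsScalarTower.toAlgHom k0 K K') =
        IntermediateField.adjoin k0 ((T.image (algebraMap K K') : Finset K') : Set K') := by
      rw [IntermediateField.adjoin_map, Finset.coe_image]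
      rfl
    have h6 : algebraMap K K' (x j) ∈
        IntermediateField.adjoin k0 ((T.image (algebraMap K K') : Finset K') : Set K') := by
      rw [← h4]
      exact ⟨x j, hx j, rfl⟩
    refine IntermediateField.adjoin.mono _ _ _ ?_ h6
    rw [hT', Finset.coe_union]
    exact Set.subset_union_right
  · dsimp only
    rw [hxl, map_one]
  · rw [hev, hxC a ha, map_zero, mul_zero]
  · rw [hev]
    exact mul_ne_zero (div_ne_zero (ht0 a) (ha0 a)) (by rw [Ne, map_eq_zero]; exact hxF a ha)
  · rw [hev]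
    have h6 : algebraMap K K' (x j) ^ dg a /
        (t a / algebraMap K K' ((F a).coeff (I0 a)) * algebraMap K K' (eval x (F a))) =
        algebraMap K K' ((F a).coeff (I0 a)) / t a *
          algebraMap K K' (x j ^ dg a / eval x (F a)) := by
      rw [map_div₀, map_pow]
      have h7 : algebraMap K K' (eval x (F a)) ≠ 0 := by rw [Ne, map_eq_zero]; exact hxF a ha
      have h8 := ht0 a
      have h9 := ha0 a
      field_simp
    rw [h6]
    refine mul_mem (Subring.subset_closure (Or.inr ?_)) ?_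
    · rw [hT', Finset.mem_coe]
      exact Finset.mem_union_left _ (Finset.mem_image_of_mem _ (Finset.mem_univ _))
    · have h7 : Subring.closure (Set.range (algebraMap k0 K) ∪ (T : Set K)) ≤
          (Subring.closure (Set.range (algebraMap k0 K') ∪
            (T' : Set K'))).comap (algebraMap K K') := by
        rw [Subring.closure_le]
        rintro z (⟨r, rfl⟩ | hz)
        · exact Subring.subset_closure (Or.inl ⟨r, rfl⟩)
        · refine Subring.subset_closure (Or.inr ?_)
          rw [hT', Finset.mem_coe]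
          exact Finset.mem_union_right _ (Finset.mem_image_of_mem _ hz)
      exact h7 (hxs a ha j)
  · exact exc_descend hF hxC (exc_scale (fun a => div_ne_zero (ht0 a) (ha0 a)) hG hX)

/-- Finiteness of the integral points, up to planes. -/
theorem main_planes {k K : Type} [Field k] [Field K] [IsAlgClosed K] [CharZero K] [Algebra k K]
    {n : ℕ} {A : Type} [Fintype A] [DecidableEq A] {d : A → ℕ} {C : Finset A}
    (hpos : ∀ a, 0 < d a) (h2 : Bd2 n d C) (hB5 : Bnd5 n A d C)
    (F : A → MvPolynomial (Fin (n + 1)) K) (hF : ∀ a, (F a).IsHomogeneous (d a))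
    (I0 : A → Fin (n + 1) →₀ ℕ) (h0 : ∀ a, (F a).coeff (I0 a) ≠ 0)
    (hind : AlgebraicIndependent k fun p : Rt d I0 =>
      (F p.1).coeff p.2.1 / (F p.1).coeff (I0 p.1)) (T : Finset K) (R : Subring K)
    (hR : R ≤ Subring.closure ((algebraicClosure k K : Set K) ∪ (T : Set K))) :
    ∃ 𝓦 : Set (Submodule K (Fin (n + 1) → K)), 𝓦.Finite ∧
      (∀ W ∈ 𝓦, Module.finrank K W ≤ 3) ∧
      ∀ p ∈ IntPts F d C R,
        (∃ W, IsLine F C W ∧ (Pts W ∩ Bd F C).encard ≤ 2 ∧ p.rep ∈ W) ∨
        ∃ W ∈ 𝓦, p.rep ∈ W := by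
  classical
  have hac : IsAlgClosed (algebraicClosure k K) := (algebraicClosure.isAlgClosure k K).isAlgClosed
  have hR' : R ≤ Subring.closure
      (Set.range (algebraMap (algebraicClosure k K) K) ∪ (T : Set K)) := by
    refine hR.trans (Subring.closure_mono (Set.union_subset_union_left _ ?_))
    intro x hx
    exact ⟨⟨x, hx⟩, rfl⟩
  have hRf : Subfield.closure (R : Set K) ≤
      (IntermediateField.adjoin (algebraicClosure k K) (T : Set K)).toSubfield := by
    rw [Subfield.closure_le]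
    refine Set.Subset.trans hR' ?_
    have h1 : Subring.closure (Set.range (algebraMap (algebraicClosure k K) K) ∪ (T : Set K)) ≤
        (IntermediateField.adjoin (algebraicClosure k K) (T : Set K)).toSubfield.toSubring := by
      rw [Subring.closure_le]
      rintro x (⟨r, rfl⟩ | hx)
      · exact (IntermediateField.adjoin (algebraicClosure k K) (T : Set K)).algebraMap_mem r
      · exact IntermediateField.subset_adjoin _ _ hx
    exact h1
  choose L hL1 hL2 hL3 using fun l0 => points_W (k0 := algebraicClosure k K)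
    hpos h2 hB5 F hF I0 h0 hind.algebraicClosure T l0
  refine ⟨⋃ l0, L l0, Set.finite_iUnion hL1, ?_, ?_⟩
  · intro W hW
    rw [Set.mem_iUnion] at hW
    obtain ⟨l0, hl0⟩ := hW
    exact hL2 l0 W hl0
  · rintro p ⟨x, hx, hp, hxR, hxC, hxs⟩
    obtain ⟨l0, hl0⟩ : ∃ l, x l ≠ 0 := Function.ne_iff.1 hx
    obtain ⟨x', hx'⟩ : ∃ x', x' = (x l0)⁻¹ • x := ⟨_, rfl⟩
    have hev : ∀ a, eval x' (F a) = (x l0)⁻¹ ^ d a * eval x (F a) := fun a => by
      rw [hx', eval_smul_hom (hF a)]
    have hi0 : (x l0)⁻¹ ≠ 0 := inv_ne_zero hl0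
    have hx'b : ∀ b, b ∉ C → eval x' (F b) ≠ 0 := fun b hb => by
      rw [hev]
      exact mul_ne_zero (pow_ne_zero _ hi0) (hxs b hb).1
    obtain ⟨e, he, hpe⟩ : ∃ e : K, e ≠ 0 ∧ p.rep = e • x' := by
      have h1 : Projectivization.mk K p.rep p.rep_nonzero = Projectivization.mk K x hx := by
        rw [p.mk_rep, hp]
      obtain ⟨a, ha⟩ := (Projectivization.mk_eq_mk_iff' K _ _ _ _).1 h1
      refine ⟨a * x l0, ?_, ?_⟩
      · refine mul_ne_zero ?_ hl0
        rintro rfl
        rw [zero_smul] at ha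
        exact p.rep_nonzero ha.symm
      · rw [hx', smul_smul, mul_assoc, mul_inv_cancel₀ hl0, mul_one, ha]
    have hmemW : ∀ W : Submodule K (Fin (n + 1) → K), x' ∈ W → p.rep ∈ W := fun W hW => by
      rw [hpe]
      exact W.smul_mem _ hW
    by_cases hexc : Exc 2 F C x'
    · left
      obtain ⟨W, hW1, hW2, hW3⟩ := exc_line hF hx'b hexc
      exact ⟨W, hW1, hW2, hmemW W hW3⟩
    right
    have hxl : x' l0 = 1 := by
      rw [hx', Pi.smul_apply, smul_eq_mul, inv_mul_cancel₀ hl0]
    have hR1 : ∀ j, x' j ∈ IntermediateField.adjoin (algebraicClosure k K) (T : Set K) := by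
      intro j
      rw [hx', Pi.smul_apply, smul_eq_mul]
      exact mul_mem (inv_mem (hRf (hxR l0))) (hRf (hxR j))
    have hC1 : ∀ c ∈ C, eval x' (F c) = 0 := by
      intro c hc
      rw [hev, hxC c hc, mul_zero]
    have hs1 : ∀ b, b ∉ C → ∀ j, x' j ^ d b / eval x' (F b) ∈ Subring.closure
        (Set.range (algebraMap (algebraicClosure k K) K) ∪ (T : Set K)) := by
      intro b hb j
      have h3 : x' j ^ d b / eval x' (F b) = x j ^ d b / eval x (F b) := by
        rw [hev, hx', Pi.smul_apply, smul_eq_mul, mul_pow,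
          mul_div_mul_left _ _ (pow_ne_zero _ hi0)]
      rw [h3]
      exact hR' ((hxs b hb).2 j)
    obtain ⟨W, hW, hxW⟩ := hL3 l0 x' ⟨hR1, hxl, hC1, hx'b, hs1, hexc⟩
    exact ⟨W, Set.mem_iUnion.2 ⟨l0, hW⟩, hmemW W hxW⟩

end points

end Pool.Agent.NH27.B
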