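import Pool.Agent.NH27.B.FinPlane
import Pool.Agent.NH27.B.NoConicB
import Pool.Agent.NH27.B.Bounded5
import Pool.Agent.NH27.B.PointsB
import Pool.Agent.NH27.B.ExcFinB
import Pool.Agent.NH27.B.PlaneW
import Pool.Agent.Y741.MainR
import Pool.Agent.Y741.Conv
import Pool.Agent.Y741.LArith
import Pool.Agent.Y741.LClass

/-!
Integral points on generic log surfaces of the smallest degree, with a quadric: assembly.
-/

set_option autoImplicit false

open MvPolynomial Pool.Agent.TH145.GH
open Pool.Agent.TH145.GC (Cf Rt)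
open Pool.Agent.Y735.S (pe)
open Pool.Agent.Y741
open LinearAlgebra.Projectivization

namespace Pool.Agent.NH27.B

section descend

variable {K K' : Type} [Field K] [Field K'] [Algebra K K'] {n : ℕ}

theorem pe_map (ψ : Fin (n + 1) → Fin 3 → K) (l : Fin (n + 1)) :
    pe (fun l m => algebraMap K K' (ψ l m)) l = (pe ψ l).map (algebraMap K K') := by
  simp only [pe, Polynomial.map_add, Polynomial.map_mul, Polynomial.map_C,
    Polynomial.map_pow, Polynomial.map_X]

theorem aeval_pe_map (ψ : Fin (n + 1) → Fin 3 → K) (F : MvPolynomial (Fin (n + 1)) K) :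
    aeval (pe fun l m => algebraMap K K' (ψ l m)) (map (algebraMap K K') F) =
      (aeval (pe ψ) F).map (algebraMap K K') := by
  rw [← Polynomial.coe_mapRingHom, aeval_def, aeval_def, eval₂_map, hom_eval₂]
  congr 1
  · ext x
    simp
  · funext l
    rw [pe_map]
    rfl

theorem inj_map {ψ : Fin (n + 1) → Fin 3 → K} (hψ : Inj ψ) :
    Inj fun l m => algebraMap K K' (ψ l m) := by
  have h1 : LinearIndependent K fun m : Fin 3 => fun l => ψ l m := by
    rw [Fintype.linearIndependent_iff]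
    intro g hg
    have h2 := hψ g fun l => by
      have := congrFun hg l
      simp only [Finset.sum_apply, Pi.smul_apply, smul_eq_mul, Pi.zero_apply] at this
      rw [← this]
      exact Finset.sum_congr rfl fun i _ => mul_comm _ _
    intro i
    exact congrFun h2 i
  have h2 := li_asc (algebraMap K K') h1
  rw [Fintype.linearIndependent_iff] at h2
  intro c hc
  funext i
  refine h2 c ?_ i
  funext l
  rw [Finset.sum_apply, Pi.zero_apply, ← hc l]
  exact Finset.sum_congr rfl fun i _ => by rw [Pi.smul_apply, smul_eq_mul, mul_comm]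

theorem noCG_descend {A : Type} [Fintype A] [DecidableEq A] {F : A → MvPolynomial (Fin (n + 1)) K}
    {G : A → MvPolynomial (Fin (n + 1)) K'} {u : A → K'}
    (hG : ∀ a, G a = MvPolynomial.C (u a) * map (algebraMap K K') (F a)) (hu : ∀ a, u a ≠ 0)
    {C : Finset A} {β : ℕ} (h : NoCG G C (∏ b ∈ Cᶜ, G b) β) :
    NoCG F C (∏ b ∈ Cᶜ, F b) β := by
  intro ψ hψ hC c a b i j hc hij heq
  have hev : ∀ a, aeval (pe fun l m => algebraMap K K' (ψ l m)) (G a) =
      Polynomial.C (u a) * (aeval (pe ψ) (F a)).map (algebraMap K K') := by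
    intro a
    rw [hG, map_mul, aeval_pe_map, aeval_C, Polynomial.algebraMap_eq]
  refine h (fun l m => algebraMap K K' (ψ l m)) (inj_map hψ) (fun c hc => ?_)
    ((∏ b ∈ Cᶜ, u b) * algebraMap K K' c) (algebraMap K K' a) (algebraMap K K' b) i j ?_ hij ?_
  · rw [hev, hC c hc, Polynomial.map_zero, mul_zero]
  · exact mul_ne_zero (Finset.prod_ne_zero_iff.2 fun b _ => hu b) ((map_ne_zero _).2 hc)
  · rw [map_prod] at heq
    rw [map_prod, Finset.prod_congr rfl fun b _ => hev b, Finset.prod_mul_distrib,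
      ← Polynomial.map_prod, heq]
    simp only [Polynomial.map_mul, Polynomial.map_pow, Polynomial.map_sub, Polynomial.map_X,
      Polynomial.map_C, Polynomial.C_mul, map_prod]
    ring

end descend

section main

variable {k K : Type} [Field k] [Field K] [IsAlgClosed K] [CharZero K] [Algebra k K] {n : ℕ}
  {A : Type} [Fintype A] [DecidableEq A] {d : A → ℕ}

omit [IsAlgClosed K] in
/-- No smooth conic meets the boundary in at most two points. -/
theorem noCG_of_ratio {C : Finset A} (hd : 3 * n + 2 ≤ 2 * ∑ a, d a + C.card)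
    (F : A → MvPolynomial (Fin (n + 1)) K) (hF : ∀ a, (F a).IsHomogeneous (d a))
    (I0 : A → Fin (n + 1) →₀ ℕ) (h0 : ∀ a, (F a).coeff (I0 a) ≠ 0)
    (hind : AlgebraicIndependent k fun p : Rt d I0 =>
      (F p.1).coeff p.2.1 / (F p.1).coeff (I0 p.1)) :
    NoCG F C (∏ b ∈ Cᶜ, F b) (∑ b ∈ Cᶜ, d b) := by
  classical
  obtain ⟨K', i1, i2, hK', hc, t, ht⟩ := Pool.Agent.TH145.GC.exists_big K A
  let i3 : Algebra k K' := ((algebraMap K K').comp (algebraMap k K)).toAlgebra
  have hst : IsScalarTower k K K' := IsScalarTower.of_algebraMap_eq fun _ => rfl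
  have hI0 : ∀ a, (I0 a).degree = d a := fun a =>
    deg_of_mem (hF a) (mem_support_iff.2 (h0 a))
  have h1 := Pool.Agent.TH145.GC.indep_scale (k0 := k) (K' := K') F I0 hI0 h0 hind ht
  obtain ⟨G, hG⟩ : ∃ G : A → MvPolynomial (Fin (n + 1)) K', ∀ a, G a =
    MvPolynomial.C (t a / algebraMap K K' ((F a).coeff (I0 a))) * map (algebraMap K K') (F a) :=
    ⟨_, fun _ => rfl⟩
  have ht0 : ∀ a, t a ≠ 0 := fun a => by
    intro h5
    have h6 : Transcendental K (t a) := ht.transcendental a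
    rw [h5] at h6
    exact h6 (by
      have := isAlgebraic_algebraMap (R := K) (A := K') 0
      rwa [map_zero] at this)
  refine noCG_descend hG (fun a => div_ne_zero (ht0 a) (by
    rw [Ne, map_eq_zero]; exact h0 a)) ?_
  refine noCG_of_generic (k0 := k) (fun a => ?_) ?_ C hd
  · have := (isHomogeneous_C (Fin (n + 1)) (t a / algebraMap K K' ((F a).coeff (I0 a)))).mul
      ((hF a).map (algebraMap K K'))
    rwa [zero_add, ← hG] at this
  · have h4 : (fun p : Cf n d => (G p.1).coeff p.2.1) =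
        fun p => t p.1 / algebraMap K K' ((F p.1).coeff (I0 p.1)) *
          algebraMap K K' ((F p.1).coeff p.2.1) := by
      funext p
      rw [hG, coeff_C_mul, coeff_map]
    rw [h4]
    exact h1

variable {C : Finset A} (hpos : ∀ a, 0 < d a) (h2 : Bd2 n d C)
  (F : A → MvPolynomial (Fin (n + 1)) K) (hF : ∀ a, (F a).IsHomogeneous (d a))
  (I0 : A → Fin (n + 1) →₀ ℕ) (h0 : ∀ a, (F a).coeff (I0 a) ≠ 0)
  (hind : AlgebraicIndependent k fun p : Rt d I0 =>
    (F p.1).coeff p.2.1 / (F p.1).coeff (I0 p.1))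

include hpos h2 hF h0 hind

/-- The points over the subrings of finitely generated algebras over the closure of `k`. -/
theorem main_planesR (T : Finset K) (R : Subring K)
    (hR : R ≤ Subring.closure ((algebraicClosure k K : Set K) ∪ (T : Set K))) :
    ∃ 𝓦 : Set (Submodule K (Fin (n + 1) → K)), 𝓦.Finite ∧
      (∀ W ∈ 𝓦, Module.finrank K W = 3 ∧ ∃ c ∈ C, d c = 2 ∧ ∃ v ∈ W, eval v (F c) ≠ 0) ∧
      ∀ p ∈ RPts F d C R, (∃ W, ExL F C W ∧ p.rep ∈ W) ∨ ∃ W ∈ 𝓦, p.rep ∈ W := by
  classical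
  obtain ⟨𝓦, hW1, hW2, hW3⟩ := main_planes hpos h2 (bounded5 h2) F hF I0 h0 hind T R hR
  -- enlarge the subspaces
  have hbig : ∀ W : Submodule K (Fin (n + 1) → K), Module.finrank K W ≤ 3 →
      ∃ W', W ≤ W' ∧ Module.finrank K W' = 3 := by
    have h3 : 3 ≤ Module.finrank K (Fin (n + 1) → K) := by
      rw [Module.finrank_fin_fun]
      have := h2.card
      omega
    intro W hW
    obtain ⟨m, hm⟩ : ∃ m, m = 3 - Module.finrank K W := ⟨_, rfl⟩
    induction m generalizing W with
    | zero => exact ⟨W, le_rfl, by omega⟩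
    | succ m ih =>
      obtain ⟨v, hv⟩ : ∃ v, v ∉ W := by
        by_contra hcon
        push Not at hcon
        have : W = ⊤ := (Submodule.eq_top_iff').2 hcon
        rw [this, finrank_top] at hm
        omega
      have h4 := Pool.Agent.Y735.finrank_sup_one hv
      obtain ⟨W', h5, h6⟩ := ih (W ⊔ Submodule.span K {v}) (by rw [h4]; omega)
        (by rw [h4]; omega)
      exact ⟨W', le_sup_left.trans h5, h6⟩
  choose! g hg1 hg2 using hbig
  refine ⟨g '' 𝓦, hW1.image _, ?_, fun p hp => ?_⟩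
  · rintro _ ⟨W, hW, rfl⟩
    exact ⟨hg2 W (hW2 W hW), plane_out hpos h2 F hF I0 h0 hind (hg2 W (hW2 W hW))⟩
  · rcases hW3 p (rpts_sub hF hpos h2.bdry R hp) with ⟨W, h3, h4, h5⟩ | ⟨W, h3, h4⟩
    · exact Or.inl ⟨W, ⟨h3, h4⟩, h5⟩
    · exact Or.inr ⟨g W, ⟨W, h3, rfl⟩, hg1 W (hW2 W h3) h4⟩

/-- The points over the finitely generated rings. -/
theorem main_fgB (T : Finset K) (R : Subring K) (hR : R ≤ Subring.closure (T : Set K)) :
    {p | p ∈ RPts F d C R ∧ ¬ ∃ W, ExL F C W ∧ p.rep ∈ W}.Finite := by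
  classical
  obtain ⟨𝓦, hW1, hW2, hW3⟩ := main_planesR hpos h2 F hF I0 h0 hind T
    (Subring.closure (T : Set K)) (Subring.closure_mono Set.subset_union_right)
  have hno := noCG_of_ratio (k := k) (C := C) (by rw [h2.sum]; have := h2.card; omega) F hF I0 h0
    hind
  refine (hW1.biUnion fun W hW => fin_plane hF hno (hW2 W hW).1 (hW2 W hW).2 T).subset ?_
  rintro p ⟨hp, hpW⟩
  have hp1 := rpts_mono hR hp
  rcases hW3 p hp1 with h | ⟨W, hW, hpW'⟩
  · exact absurd h hpW
  · refine Set.mem_biUnion hW ⟨hp1, hpW', fun L hL hpL => ?_⟩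
    by_contra hcon
    rw [not_le] at hcon
    exact hpW ⟨L, ⟨hL, Order.le_of_lt_add_one hcon⟩, hpL⟩

/-- The special set. -/
theorem arithB {H : MvPolynomial (Fin (n + 1)) K} {e : ℕ} (hH : H.IsHomogeneous e) :
    (∀ W, ExL F C W → ∀ v ∈ W, eval v H = 0) ↔
      ∀ (T : Finset K) (R : Subring K), R ≤ Subring.closure (T : Set K) →
        {p | p ∈ RPts F d C R ∧ eval p.rep H ≠ 0}.Finite := by
  constructor
  · intro h T R hR
    refine (main_fgB hpos h2 F hF I0 h0 hind T R hR).subset ?_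
    rintro p ⟨hp, hpG⟩
    refine ⟨hp, ?_⟩
    rintro ⟨W, hW, hpW⟩
    exact hpG (h W hW _ hpW)
  · intro h W hW
    by_contra hcon
    obtain ⟨T, hT⟩ := conv_line hF hW.1 hW.2
    refine hT (((h T _ le_rfl).union (line_zeros_finite hW.1.1 hH hcon)).subset ?_)
    rintro p ⟨hp, hpW⟩
    by_cases hpG : eval p.rep H = 0
    · exact Or.inr ⟨hpW, hpG⟩
    · exact Or.inl ⟨hp, hpG⟩

end main

end Pool.Agent.NH27.B
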