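import Pool.Agent.NH27.B.Defs
import Pool.Agent.TH145.GH.Smooth
import Pool.Agent.TH145.GH.FinB
import Pool.Agent.Y741.Tri
import Pool.Agent.Y741.Exc

/-!
Quadratic forms on planes.
-/

set_option autoImplicit false

open MvPolynomial FF Pool.Agent.W603.LV Pool.Agent.W603.PV Pool.Agent.TH145.GH
open Pool.Agent.NH27.Q (mo sum_mo)
open Pool.Agent.Y735 (pl)
open Pool.Agent.TH145.GC (Cf)
open Pool.Agent.Y741

namespace Pool.Agent.NH27.B

section quad

variable {L : Type} [Field L] [CharZero L] {n : ℕ}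

omit [CharZero L] in
theorem pd_comm (i j : Fin (n + 1)) (F : MvPolynomial (Fin (n + 1)) L) :
    pderiv i (pderiv j F) = pderiv j (pderiv i F) := by
  classical
  obtain ⟨Di, hDi⟩ : ∃ Di : Derivation L (MvPolynomial (Fin (n + 1)) L)
    (MvPolynomial (Fin (n + 1)) L), Di = pderiv i := ⟨_, rfl⟩
  obtain ⟨Dj, hDj⟩ : ∃ Dj : Derivation L (MvPolynomial (Fin (n + 1)) L)
    (MvPolynomial (Fin (n + 1)) L), Dj = pderiv j := ⟨_, rfl⟩
  have h1 : ⁅Di, Dj⁆ = 0 := by
    refine MvPolynomial.derivation_ext fun k => ?_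
    have h2 : ∀ a b : Fin (n + 1), pderiv a (pderiv b (X k : MvPolynomial (Fin (n + 1)) L)) = 0 := by
      intro a b
      rw [pderiv_X, Pi.single_apply]
      split_ifs
      · exact Derivation.map_one_eq_zero _
      · exact map_zero _
    rw [Derivation.commutator_apply, hDi, hDj, h2, h2, sub_zero, Derivation.zero_apply]
  have h2 : ⁅Di, Dj⁆ F = 0 := by rw [h1, Derivation.zero_apply]
  rw [Derivation.commutator_apply, hDi, hDj] at h2
  exact sub_eq_zero.1 h2

omit [CharZero L] in
/-- The bilinear form of a quadratic form. -/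
theorem exists_bilQ {F : MvPolynomial (Fin (n + 1)) L} (hF : F.IsHomogeneous 2) :
    ∃ B : (Fin (n + 1) → L) →ₗ[L] (Fin (n + 1) → L) →ₗ[L] L, (∀ u v, B u v = B v u) ∧
      (∀ v i, eval v (pderiv i F) = B v (Pi.single i 1)) ∧ ∀ v, 2 * eval v F = B v v := by
  classical
  obtain ⟨h, hh⟩ : ∃ h : Fin (n + 1) → Fin (n + 1) → L, ∀ i j, h i j =
    eval 0 (pderiv j (pderiv i F)) := ⟨_, fun _ _ => rfl⟩
  have hs : ∀ i j, h i j = h j i := by
    intro i j
    rw [hh, hh]
    congr 1
    exact pd_comm j i F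
  have h1 : ∀ v i, eval v (pderiv i F) = ∑ j, h i j * v j := by
    intro v i
    have h2 := TH145.GC.dF_self (hF.pderiv (i := i)) v
    rw [show ((2 - 1 : ℕ) : L) = 1 by norm_num, one_mul] at h2
    rw [← h2]
    unfold dF
    refine Finset.sum_congr rfl fun j _ => ?_
    rw [hh]
    congr 1
    have h3 : (pderiv j (pderiv i F)).IsHomogeneous 0 := (hF.pderiv (i := i)).pderiv (i := j)
    have h4 := eval_smul_hom h3 v (0 : L)
    rw [zero_smul, pow_zero, one_mul] at h4
    exact h4.symm
  refine ⟨LinearMap.mk₂ L (fun u v => ∑ i, ∑ j, h i j * u j * v i) ?_ ?_ ?_ ?_, ?_, ?_, ?_⟩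
  · intro u u' v
    simp only [Pi.add_apply, mul_add, add_mul, Finset.sum_add_distrib]
  · intro c u v
    simp only [Pi.smul_apply, smul_eq_mul, Finset.mul_sum]
    exact Finset.sum_congr rfl fun i _ => Finset.sum_congr rfl fun j _ => by ring
  · intro u v v'
    simp only [Pi.add_apply, mul_add, Finset.sum_add_distrib]
  · intro c u v
    simp only [Pi.smul_apply, smul_eq_mul, Finset.mul_sum]
    exact Finset.sum_congr rfl fun i _ => Finset.sum_congr rfl fun j _ => by ring
  · intro u v
    change ∑ i, ∑ j, h i j * u j * v i = ∑ i, ∑ j, h i j * v j * u i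
    rw [Finset.sum_comm]
    refine Finset.sum_congr rfl fun i _ => Finset.sum_congr rfl fun j _ => ?_
    rw [hs]
    ring
  · intro v i
    change _ = ∑ k, ∑ j, h k j * v j * (Pi.single i (1 : L) : Fin (n + 1) → L) k
    have h2 : ∀ k, ∑ j, h k j * v j * (Pi.single i (1 : L) : Fin (n + 1) → L) k =
        if k = i then ∑ j, h i j * v j else 0 := by
      intro k
      split_ifs with hk
      · subst hk
        exact Finset.sum_congr rfl fun j _ => by rw [Pi.single_eq_same, mul_one]
      · exact Finset.sum_eq_zero fun j _ => by rw [Pi.single_eq_of_ne hk, mul_zero]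
    rw [h1, Finset.sum_congr rfl fun k _ => h2 k, Finset.sum_ite_eq', if_pos (Finset.mem_univ i)]
  · intro v
    change _ = ∑ i, ∑ j, h i j * v j * v i
    have h2 := TH145.GC.dF_self hF v
    rw [show ((2 : ℕ) : L) = 2 by norm_num] at h2
    rw [← h2]
    unfold dF
    refine Finset.sum_congr rfl fun i _ => ?_
    rw [h1, Finset.sum_mul]

/-- The coefficients of the quadratic form on a plane. -/
noncomputable def eB (F : MvPolynomial (Fin (n + 1)) L) (p : Fin 3 → Fin (n + 1) → L) : Fin 6 → L :=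
  ![eval (p 0) F, eval (p 1) F, eval (p 2) F, eval (p 0 + p 1) F - eval (p 0) F - eval (p 1) F,
    eval (p 0 + p 2) F - eval (p 0) F - eval (p 2) F,
    eval (p 1 + p 2) F - eval (p 1) F - eval (p 2) F]

theorem eval_plane {F : MvPolynomial (Fin (n + 1)) L} (hF : F.IsHomogeneous 2)
    (p : Fin 3 → Fin (n + 1) → L) (t : Fin 3 → L) :
    eval (∑ i, t i • p i) F = ∑ i, eB F p i * mo t i := by
  obtain ⟨B, hB1, -, hB2⟩ := exists_bilQ hF
  have h2 : (2 : L) ≠ 0 := two_ne_zero
  apply mul_left_cancel₀ h2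
  have key : ∀ u v, 2 * (eval (u + v) F - eval u F - eval v F) = 2 * B u v := by
    intro u v
    rw [mul_sub, mul_sub, hB2, hB2, hB2]
    simp only [map_add, LinearMap.add_apply]
    rw [hB1 v u]
    ring
  have k01 := mul_left_cancel₀ h2 (key (p 0) (p 1))
  have k02 := mul_left_cancel₀ h2 (key (p 0) (p 2))
  have k12 := mul_left_cancel₀ h2 (key (p 1) (p 2))
  rw [sum_mo]
  unfold eB
  simp only [Matrix.cons_val_zero, Matrix.cons_val_one, Matrix.cons_val]
  rw [k01, k02, k12, hB2, Fin.sum_univ_three]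
  simp only [map_add, LinearMap.add_apply, map_smul, LinearMap.smul_apply, smul_eq_mul]
  rw [hB1 (p 1) (p 0), hB1 (p 2) (p 0), hB1 (p 2) (p 1)]
  linear_combination (-(t 0) ^ 2) * hB2 (p 0) - (t 1) ^ 2 * hB2 (p 1) - (t 2) ^ 2 * hB2 (p 2)

omit [CharZero L] in
theorem ech_inj {ι : Fin 3 → Fin (n + 1)} {p : Fin 3 → Fin (n + 1) → L}
    (h : ∀ i j, p i (ι j) = if i = j then 1 else 0) : Function.Injective ι := by
  intro j k hjk
  by_contra hne
  have h1 := h j j
  rw [hjk, h, if_neg hne, if_pos rfl] at h1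
  exact zero_ne_one h1

/-- Smooth quadrics of dimension at most three do not contain planes. -/
theorem plane_ne (hn : n ≤ 4) {F : MvPolynomial (Fin (n + 1)) L} (hF : F.IsHomogeneous 2)
    (hsm : ∀ z, (∀ j, eval z (pderiv j F) = 0) → z = 0) {ι : Fin 3 → Fin (n + 1)}
    {p : Fin 3 → Fin (n + 1) → L} (h : ∀ i j, p i (ι j) = if i = j then 1 else 0) :
    eB F p ≠ 0 := by
  classical
  intro h0
  obtain ⟨B, hB1, hB3, hB2⟩ := exists_bilQ hF
  have h2 : (2 : L) ≠ 0 := two_ne_zero
  have hz : ∀ t : Fin 3 → L, eval (∑ i, t i • p i) F = 0 := by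
    intro t
    rw [eval_plane hF, h0]
    simp
  have hzB : ∀ t s : Fin 3 → L, B (∑ i, t i • p i) (∑ i, s i • p i) = 0 := by
    intro t s
    have h3 := hB2 (∑ i, t i • p i)
    have h4 := hB2 (∑ i, s i • p i)
    have h5 := hB2 (∑ i, (t + s) i • p i)
    have h6 : ∑ i, (t + s) i • p i = ∑ i, t i • p i + ∑ i, s i • p i := by
      rw [← Finset.sum_add_distrib]
      exact Finset.sum_congr rfl fun i _ => by rw [Pi.add_apply, add_smul]
    rw [hz, mul_zero] at h3 h4 h5
    rw [h6] at h5
    simp only [map_add, LinearMap.add_apply] at h5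
    simp only [← h3, ← h4] at h5
    rw [hB1 (∑ i, s i • p i) (∑ i, t i • p i)] at h5
    have h7 : 2 * B (∑ i, t i • p i) (∑ i, s i • p i) = 0 := by linear_combination -h5
    exact (mul_eq_zero.1 h7).resolve_left h2
  -- the gradient
  have hinj := ech_inj h
  obtain ⟨G, hG⟩ : ∃ G : (Fin 3 → L) →ₗ[L] ({i : Fin (n + 1) // i ∉ Set.range ι} → L),
      ∀ t i, G t i = B (∑ k, t k • p k) (Pi.single i.1 1) := by
    refine ⟨LinearMap.pi fun i => (B.flip (Pi.single i.1 1)) ∘ₗ
      (Fintype.linearCombination L p), fun t i => ?_⟩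
    rw [LinearMap.pi_apply, LinearMap.comp_apply, Fintype.linearCombination_apply,
      LinearMap.flip_apply]
  have hcard : Fintype.card {i : Fin (n + 1) // i ∉ Set.range ι} < 3 := by
    rw [Fintype.card_subtype_compl, Fintype.card_fin]
    have h3 : Fintype.card {x // x ∈ Set.range ι} = 3 := by
      have h4 := Set.card_range_of_injective hinj
      rw [Fintype.card_fin] at h4
      exact (Fintype.card_congr (Equiv.refl _)).trans h4
    omega
  have hker : LinearMap.ker G ≠ ⊥ := LinearMap.ker_ne_bot_of_finrank_lt (by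
    rw [Module.finrank_fin_fun, Module.finrank_fintype_fun_eq_card]; exact hcard)
  obtain ⟨t, ht, ht0⟩ := (Submodule.ne_bot_iff _).1 hker
  rw [LinearMap.mem_ker] at ht
  obtain ⟨w, hw⟩ : ∃ w, w = ∑ k, t k • p k := ⟨_, rfl⟩
  have h3 : ∀ i, i ∉ Set.range ι → B w (Pi.single i 1) = 0 := by
    intro i hi
    have := congrFun ht ⟨i, hi⟩
    rw [hG, ← hw] at this
    exact this
  have h4 : ∀ k, B w (Pi.single (ι k) 1) = 0 := by
    intro k
    have h5 : p k = ∑ i, p k i • (Pi.single i 1 : Fin (n + 1) → L) := by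
      funext m'
      rw [Finset.sum_apply, Finset.sum_eq_single m']
      · rw [Pi.smul_apply, Pi.single_eq_same, smul_eq_mul, mul_one]
      · intro j _ hj
        rw [Pi.smul_apply, Pi.single_eq_of_ne hj.symm, smul_zero]
      · intro h; exact absurd (Finset.mem_univ m') h
    have h6 := hzB t (Pi.single k 1)
    rw [← hw] at h6
    have h7 : ∑ i, (Pi.single k 1 : Fin 3 → L) i • p i = p k := by
      rw [Finset.sum_eq_single k]
      · rw [Pi.single_eq_same, one_smul]
      · intro j _ hj
        rw [Pi.single_eq_of_ne hj, zero_smul]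
      · intro h; exact absurd (Finset.mem_univ k) h
    rw [h7, h5, map_sum, Finset.sum_eq_single (ι k)] at h6
    · rw [map_smul, h, if_pos rfl, one_smul] at h6
      exact h6
    · intro j _ hj
      rw [map_smul]
      by_cases hjr : j ∈ Set.range ι
      · obtain ⟨k', rfl⟩ := hjr
        rw [h, if_neg, zero_smul]
        rintro rfl
        exact hj rfl
      · rw [h3 j hjr, smul_zero]
    · intro h; exact absurd (Finset.mem_univ _) h
  have hw0 : w = 0 := hsm w fun j => by
    rw [hB3]
    by_cases hjr : j ∈ Set.range ι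
    · obtain ⟨k', rfl⟩ := hjr
      exact h4 k'
    · exact h3 j hjr
  apply ht0
  funext k
  have h8 := congrFun hw0 (ι k)
  rw [hw, Finset.sum_apply, Finset.sum_eq_single k] at h8
  · rw [Pi.smul_apply, h, if_pos rfl, smul_eq_mul, mul_one] at h8
    exact h8
  · intro j _ hj
    rw [Pi.smul_apply, h, if_neg hj, smul_zero]
  · intro h; exact absurd (Finset.mem_univ k) h

end quad

section cases

variable {L A : Type} [Field L] {n : ℕ}

theorem lin_form {F : MvPolynomial (Fin (n + 1)) L} (hF : F.IsHomogeneous 1)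
    (t : L) (x y : Fin (n + 1) → L) : eval (t • x + y) F = t * eval x F + eval y F := by
  have h1 : ∀ v, eval v F = ∑ j, eval 0 (pderiv j F) * v j := by
    intro v
    have h2 := TH145.GC.dF_self hF v
    rw [Nat.cast_one, one_mul] at h2
    rw [← h2]
    unfold dF
    refine Finset.sum_congr rfl fun j _ => ?_
    congr 1
    have h3 : (pderiv j F).IsHomogeneous 0 := hF.pderiv (i := j)
    have h4 := eval_smul_hom h3 v (0 : L)
    rw [zero_smul, pow_zero, one_mul] at h4
    exact h4.symm
  rw [h1, h1 x, h1 y, Finset.mul_sum, ← Finset.sum_add_distrib]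
  refine Finset.sum_congr rfl fun j _ => ?_
  rw [Pi.add_apply, Pi.smul_apply, smul_eq_mul]
  ring

variable [CharZero L] [Fintype A] [DecidableEq A] {dg : A → ℕ} {C : Finset A}

theorem Bd2.sums {n : ℕ} (h2 : Bd2 n dg C) :
    ∑ c ∈ C, dg c + ∑ b ∈ Cᶜ, dg b = n + 2 := by
  rw [Finset.sum_add_sum_compl, h2.sum]

/-- The quadratic form on the plane. -/
theorem exists_quad (h2 : Bd2 n dg C) (hpos : ∀ a, 0 < dg a) {F : Fam L n A}
    (hF : ∀ a, (F a).IsHomogeneous (dg a)) (hgen : GenA dg F) {x : Fin (n + 1) → L}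
    (hxb : ∀ b, b ∉ C → eval x (F b) ≠ 0) (hx0 : x ≠ 0) {ι : Fin 3 → Fin (n + 1)}
    {p : Fin 3 → Fin (n + 1) → L} (he : Ech ι p x)
    (hline : ∀ (y : Fin (n + 1) → L) (ik : Fin (n + 1) × Fin (n + 1)), pl x y ik ≠ 0 →
      OnL F C x y → ¬ Pun 2 F C x y) :
    ∃ c ∈ C, dg c = 2 ∧ eB (F c) p ≠ 0 := by
  classical
  by_cases hn : n ≤ 4
  · obtain ⟨c, hc, hc2⟩ := h2.quad
    have hFc : (F c).IsHomogeneous 2 := by rw [← hc2]; exact hF c
    refine ⟨c, hc, hc2, plane_ne hn hFc (fun z hz => ?_) he.ech⟩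
    refine smooth_of_indep (k := ℚ) (hpos c) (hF c) ?_ z hz
    exact hgen.rat.comp (fun I : {I : Fin (n + 1) →₀ ℕ // I.degree = dg c} => (⟨c, I⟩ : Cf n dg))
      (by
        intro I J h
        exact eq_of_heq (Sigma.mk.inj_iff.1 h).2)
  · by_contra hcon
    push Not at hcon
    have hsum := h2.sums
    have h3 : C.card * 2 ≤ ∑ c ∈ C, dg c := by
      rw [← smul_eq_mul, ← Finset.sum_const]
      exact Finset.sum_le_sum fun c hc => h2.two c hc
    have hcard := h2.card
    obtain ⟨b0, hb0⟩ := h2.bdry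
    have h4 : dg b0 ≤ ∑ b ∈ Cᶜ, dg b :=
      Finset.single_le_sum (f := dg) (fun _ _ => Nat.zero_le _) (Finset.mem_compl.2 hb0)
    have h5 := hpos b0
    -- the equations are quadrics
    have hall : ∀ c ∈ C, dg c = 2 := by
      intro c hc
      by_contra hne
      have h6 : C.card * 2 + 1 ≤ ∑ c ∈ C, dg c := by
        have h7 : ∑ c' ∈ C, (2 + if c' = c then 1 else 0) ≤ ∑ c' ∈ C, dg c' := by
          refine Finset.sum_le_sum fun c' hc' => ?_
          have h8 := h2.two c' hc'
          split_ifs with h9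
          · subst h9
            omega
          · exact h8
        rw [Finset.sum_add_distrib, Finset.sum_const, Finset.sum_ite_eq', if_pos hc,
          smul_eq_mul] at h7
        exact h7
      omega
    have hb1 : dg b0 = 1 := by omega
    have huniq : ∀ b, b ∉ C → b = b0 := by
      intro b hb
      by_contra hne
      have h6 : dg b + dg b0 ≤ ∑ b ∈ Cᶜ, dg b := by
        rw [← Finset.sum_pair hne]
        refine Finset.sum_le_sum_of_subset ?_
        intro b' hb'
        rw [Finset.mem_insert, Finset.mem_singleton] at hb'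
        rcases hb' with rfl | rfl
        · exact Finset.mem_compl.2 hb
        · exact Finset.mem_compl.2 hb0
      have := hpos b
      omega
    -- the plane lies on the variety
    have hpl : ∀ c ∈ C, ∀ t : Fin 3 → L, eval (∑ i, t i • p i) (F c) = 0 := by
      intro c hc t
      have hFc : (F c).IsHomogeneous 2 := by rw [← hall c hc]; exact hF c
      rw [eval_plane hFc, hcon c hc (hall c hc)]
      simp
    have hxs : x = ∑ i, x (ι i) • p i := by
      funext l
      rw [he.eq l, Finset.sum_apply]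
      rfl
    obtain ⟨j, hj⟩ : ∃ j, x (ι j) ≠ 0 := by
      by_contra h
      push Not at h
      apply hx0
      rw [hxs]
      exact Finset.sum_eq_zero fun i _ => by rw [h, zero_smul]
    obtain ⟨k, hk⟩ : ∃ k : Fin 3, k ≠ j := exists_ne j
    refine hline (p k) (ι j, ι k) ?_ ?_ ?_
    · change x (ι j) * p k (ι k) - x (ι k) * p k (ι j) ≠ 0
      rw [he.ech, he.ech, if_pos rfl, if_neg hk, mul_zero, mul_one, sub_zero]
      exact hj
    · intro c hc a b
      have h6 : a • x + b • p k = ∑ i, (a * x (ι i) + b * (Pi.single k 1 : Fin 3 → L) i) • p i := by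
        have h7 : p k = ∑ i, (Pi.single k 1 : Fin 3 → L) i • p i := by
          rw [Finset.sum_eq_single k]
          · rw [Pi.single_eq_same, one_smul]
          · intro j _ hj
            rw [Pi.single_eq_of_ne hj, zero_smul]
          · intro h; exact absurd (Finset.mem_univ k) h
        conv_lhs => rw [h7]
        nth_rewrite 1 [hxs]
        rw [Finset.smul_sum, Finset.smul_sum, ← Finset.sum_add_distrib]
        exact Finset.sum_congr rfl fun i _ => by rw [add_smul, smul_smul, smul_smul]
      rw [h6]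
      exact hpl c hc _
    · have hFb : (F b0).IsHomogeneous 1 := by
        have := hF b0
        rwa [hb1] at this
      refine pun_of_one (by norm_num) (dg := dg) ⟨-(eval (p k) (F b0) / eval x (F b0)), ?_⟩
      intro b hb t
      rw [huniq b hb, lin_form hFb, hb1, pow_one]
      have := hxb b0 hb0
      field_simp
      ring

end cases

section heights

variable {κ L : Type} [Field κ] [Field L] [Algebra κ L] [IsAlgClosed κ] [CharZero κ] [IsFF κ L]
  {n : ℕ}

/-- The heights of the coefficients of the quadratic form. -/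
theorem eB_ht (F : MvPolynomial (Fin (n + 1)) L) (H : ℤ) :
    ∃ B : ℤ, ∀ p : Fin 3 → Fin (n + 1) → L, (∀ i l, hgt κ (p i l) ≤ H) →
      ∀ i, hgt κ (eB F p i) ≤ B := by
  obtain ⟨B1, hB1⟩ := hgt_eval_le (κ := κ) H F
  obtain ⟨B2, hB2⟩ := hgt_eval_le (κ := κ) (H + H) F
  refine ⟨max B1 (B2 + B1 + B1), fun p hp => ?_⟩
  have h1 : ∀ i, hgt κ (eval (p i) F) ≤ B1 := fun i => hB1 (p i) (hp i)
  have h2 : ∀ i j, hgt κ (eval (p i + p j) F - eval (p i) F - eval (p j) F) ≤
      B2 + B1 + B1 := by
    intro i j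
    rw [sub_eq_add_neg, sub_eq_add_neg]
    refine (Pool.Agent.TH145.MW.hgt_add_le (k := κ) _ _).trans (add_le_add
      ((Pool.Agent.TH145.MW.hgt_add_le (k := κ) _ _).trans (add_le_add (hB2 _ fun l => ?_) ?_)) ?_)
    · exact (Pool.Agent.TH145.MW.hgt_add_le (k := κ) _ _).trans (add_le_add (hp i l) (hp j l))
    · rw [Pool.Agent.TH145.MW.hgt_neg]
      exact h1 i
    · rw [Pool.Agent.TH145.MW.hgt_neg]
      exact h1 j
  intro i
  fin_cases i
  · exact (h1 0).trans (le_max_left _ _)
  · exact (h1 1).trans (le_max_left _ _)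
  · exact (h1 2).trans (le_max_left _ _)
  · exact (h2 0 1).trans (le_max_right _ _)
  · exact (h2 0 2).trans (le_max_right _ _)
  · exact (h2 1 2).trans (le_max_right _ _)

end heights

end Pool.Agent.NH27.B
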